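import Pool.Agent.R110.MT.Cnt

/-!
# Word algebra I: the words `Ω`
-/

set_option autoImplicit false
set_option linter.unusedSectionVars false

namespace Pool.Agent.R110.MT

/-- the relations for the letters `0, ..., N` -/
structure RelN {A : Type*} [Ring A] (N : ℕ) (T : ℕ → A) : Prop where
  V : ∀ a b, a < N → b < N → T a * T b - T a * T (b + 1) + T (a + 1) * T (b + 1) + T b * T a -
    T b * T (a + 1) + T (b + 1) * T (a + 1) = 0
  C : ∀ a b c, a ≤ N → b ≤ N → c ≤ N → T a * T b * T c + T a * T c * T b + T b * T a * T c +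
    T b * T c * T a + T c * T a * T b + T c * T b * T a = 0

theorem Rel.toN {A : Type*} [Ring A] {T : ℕ → A} (h : Rel T) (N : ℕ) : RelN N T :=
  ⟨fun a b _ _ => h.V a b, fun a b c _ _ _ => h.C a b c⟩

theorem Rel.sh {A : Type*} [Ring A] {T : ℕ → A} (h : Rel T) : Rel (sh T) :=
  ⟨fun a b => h.V (a + 1) (b + 1), fun a b c => h.C (a + 1) (b + 1) (c + 1)⟩

/-- the element `Ω` of the letters `s, ..., s + n - 1` -/
def om {A : Type*} [Ring A] (T : ℕ → A) (s : ℕ) : ℕ → A
  | 0 => 1
  | n + 1 => T (s + n) * T (s + n) * om T s n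

theorem om_bot {A : Type*} [Ring A] (T : ℕ → A) : ∀ n s : ℕ,
    om T s (n + 1) = om T (s + 1) n * (T s * T s)
  | 0, s => by simp [om]
  | n + 1, s => by
    rw [om, om_bot T n s, om, show s + 1 + n = s + (n + 1) by ring]
    noncomm_ring

section alg

variable {A : Type*} [Ring A] [Algebra ℚ A] {T : ℕ → A} {N : ℕ}

theorem RelN.sq (h : RelN N T) (k : ℕ) (hk : k < N) :
    T k * T (k + 1) = T k * T k + T (k + 1) * T (k + 1) := by
  have h1 := h.V k k hk hk
  have h2 : (T k * T k - T k * T (k + 1) + T (k + 1) * T (k + 1)) +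
      (T k * T k - T k * T (k + 1) + T (k + 1) * T (k + 1)) = 0 := by
    rw [← h1]; abel
  have h3 := two_cancel h2
  linear_combination (norm := noncomm_ring) -h3

theorem RelN.cube (h : RelN N T) (a : ℕ) (ha : a ≤ N) : T a * T a * T a = 0 := by
  apply six_cancel
  have h1 := h.C a a a ha ha ha
  rw [← h1]

theorem RelN.C2 (h : RelN N T) (a b : ℕ) (ha : a ≤ N) (hb : b ≤ N) :
    T a * T a * T b + T a * T b * T a + T b * T a * T a = 0 := by
  apply two_cancel
  have h1 := h.C a a b ha ha hb
  rw [← h1]
  abel

theorem RelN.om_right (h : RelN N T) : ∀ n s : ℕ, s + n ≤ N + 1 →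
    (∀ k, s ≤ k → k < s + n → om T s n * T k = 0) ∧
    (∀ b, s ≤ b → b < s + n → om T (s + 1) (n - 1) * T s * T b = om T s n) := by
  intro n
  induction n with
  | zero => exact fun s _ => ⟨fun k h1 h2 => by omega, fun k h1 h2 => by omega⟩
  | succ n ih =>
    intro s hs
    obtain ⟨hZ, -⟩ := ih (s + 1) (by omega)
    have hL : ∀ b, s ≤ b → b < s + (n + 1) → om T (s + 1) n * T s * T b = om T s (n + 1) := by
      intro b hb
      induction b, hb using Nat.le_induction with
      | base => intro _; rw [om_bot, mul_assoc]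
      | succ b hb ihb =>
        intro hb2
        have h1 := ihb (by omega)
        have hV := h.V s b (by omega) (by omega)
        have z1 := hZ (s + 1) le_rfl (by omega)
        have z2 := hZ (b + 1) (by omega) (by omega)
        rcases Nat.eq_or_lt_of_le hb with rfl | hlt
        · have h2 := h.sq s (by omega)
          linear_combination (norm := noncomm_ring) om T (s + 1) n * h2 + z1 * T (s + 1) + h1
        · have z3 := hZ b (by omega) (by omega)
          linear_combination (norm := noncomm_ring) -(om T (s + 1) n * hV) + z1 * T (b + 1) +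
            z3 * T s - z3 * T (s + 1) + z2 * T (s + 1) + h1
    refine ⟨?_, by simpa using hL⟩
    intro k hk1 hk2
    have hC := h.C2 s k (by omega) (by omega)
    have hcube := h.cube s (by omega)
    rcases Nat.eq_or_lt_of_le hk1 with rfl | hlt
    · rw [om_bot]
      linear_combination (norm := noncomm_ring) om T (s + 1) n * hcube
    · have z := hZ k (by omega) (by omega)
      have h1 := hL k hk1 hk2
      have h0 := om_bot T n s
      linear_combination (norm := noncomm_ring) om T (s + 1) n * hC - z * (T s * T s) - h1 * T s +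
        h0 * T k - h0 * T s - om T (s + 1) n * hcube

/-- `Ω T k = 0` -/
theorem RelN.ZR (h : RelN N T) {n s k : ℕ} (hs : s + n ≤ N + 1) (h1 : s ≤ k) (h2 : k < s + n) :
    om T s n * T k = 0 := (h.om_right n s hs).1 k h1 h2

theorem RelN.LR (h : RelN N T) {n s b : ℕ} (hs : s + (n + 1) ≤ N + 1) (h1 : s ≤ b)
    (h2 : b < s + (n + 1)) : om T (s + 1) n * T s * T b = om T s (n + 1) := by
  have := (h.om_right (n + 1) s hs).2 b h1 h2
  simpa using this

theorem RelN.om_left (h : RelN N T) : ∀ n s : ℕ, s + n ≤ N + 1 →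
    (∀ k, s ≤ k → k < s + n → T k * om T s n = 0) ∧
    (∀ b, s ≤ b → b < s + n → T b * T (s + (n - 1)) * om T s (n - 1) = om T s n) := by
  intro n
  induction n with
  | zero => exact fun s _ => ⟨fun k h1 h2 => by omega, fun k h1 h2 => by omega⟩
  | succ n ih =>
    intro s hs
    obtain ⟨hZ, -⟩ := ih s (by omega)
    -- descending induction on `b = s + n - c`
    have hL : ∀ c, c ≤ n → T (s + (n - c)) * T (s + n) * om T s n = om T s (n + 1) := by
      intro c
      induction c with
      | zero => intro _; rw [Nat.sub_zero, om]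
      | succ c ihc =>
        intro hc
        have h1 := ihc (by omega)
        obtain ⟨b, hb⟩ : ∃ b, b = s + (n - (c + 1)) := ⟨_, rfl⟩
        have hb1 : s + (n - c) = b + 1 := by omega
        rw [hb1] at h1
        rw [← hb]
        obtain ⟨e, he⟩ : ∃ e, s + n = e + 1 := ⟨s + n - 1, by omega⟩
        rw [he] at h1 ⊢
        have z1 := hZ e (by omega) (by omega)
        have z2 := hZ b (by omega) (by omega)
        have hV := h.V b e (by omega) (by omega)
        rcases Nat.eq_zero_or_pos c with rfl | hcpos
        · have hbe : b = e := by omega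
          subst hbe
          have h2 := h.sq b (by omega)
          linear_combination (norm := noncomm_ring) h2 * om T s n + T b * z1 + h1
        · have z3 := hZ (b + 1) (by omega) (by omega)
          linear_combination (norm := noncomm_ring) -(hV * om T s n) + T b * z1 + T e * z2 -
            T e * z3 + T (e + 1) * z3 + h1
    have hL' : ∀ b, s ≤ b → b < s + (n + 1) → T b * T (s + n) * om T s n = om T s (n + 1) := by
      intro b hb1 hb2
      have := hL (s + n - b) (by omega)
      rwa [show s + (n - (s + n - b)) = b by omega] at this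
    refine ⟨?_, by simpa using hL'⟩
    intro k hk1 hk2
    have hC := h.C2 (s + n) k (by omega) (by omega)
    have hcube := h.cube (s + n) (by omega)
    rcases Nat.eq_or_lt_of_le (show k ≤ s + n by omega) with rfl | hlt
    · rw [om]
      linear_combination (norm := noncomm_ring) hcube * om T s n
    · have z := hZ k (by omega) (by omega)
      have h1 := hL' k hk1 hk2
      have h0 : om T s (n + 1) = T (s + n) * T (s + n) * om T s n := rfl
      rw [h0] at h1 ⊢
      linear_combination (norm := noncomm_ring) hC * om T s n - T (s + n) * T (s + n) * z -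
        T (s + n) * h1 - hcube * om T s n

/-- `T k Ω = 0` -/
theorem RelN.ZL (h : RelN N T) {n s k : ℕ} (hs : s + n ≤ N + 1) (h1 : s ≤ k) (h2 : k < s + n) :
    T k * om T s n = 0 := (h.om_left n s hs).1 k h1 h2

theorem RelN.LL (h : RelN N T) {n s b : ℕ} (hs : s + (n + 1) ≤ N + 1) (h1 : s ≤ b)
    (h2 : b < s + (n + 1)) : T b * T (s + n) * om T s n = om T s (n + 1) := by
  have := (h.om_left (n + 1) s hs).2 b h1 h2
  simpa using this

/-- the sum of the words `Ω` with one letter removed -/
def so {A : Type*} [Ring A] (T : ℕ → A) (s : ℕ) : ℕ → A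
  | 0 => 0
  | n + 1 => T (s + n) * T (s + n) * so T s n + T (s + n) * om T s n

theorem so_bot {A : Type*} [Ring A] (T : ℕ → A) : ∀ n s : ℕ,
    so T s (n + 1) = so T (s + 1) n * (T s * T s) + om T (s + 1) n * T s
  | 0, s => by simp [so, om]
  | n + 1, s => by
    have h1 : so T s (n + 1 + 1) = T (s + (n + 1)) * T (s + (n + 1)) * so T s (n + 1) +
      T (s + (n + 1)) * om T s (n + 1) := rfl
    have h2 : so T (s + 1) (n + 1) = T (s + 1 + n) * T (s + 1 + n) * so T (s + 1) n +
      T (s + 1 + n) * om T (s + 1) n := rfl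
    have h3 : om T (s + 1) (n + 1) = T (s + 1 + n) * T (s + 1 + n) * om T (s + 1) n := rfl
    rw [h1, h2, h3, so_bot T n s, om_bot T n s, show s + 1 + n = s + (n + 1) by ring]
    noncomm_ring

/-- top letter times `so` -/
theorem RelN.top_so (h : RelN N T) {n s : ℕ} (hs : s + n ≤ N) :
    T (s + n) * so T s (n + 1) = om T s (n + 1) := by
  have hcube := h.cube (s + n) (by omega)
  rw [so, om]
  linear_combination (norm := noncomm_ring) hcube * so T s n

/-- `so` times bottom letter -/
theorem RelN.so_bottom (h : RelN N T) {n s : ℕ} (hs : s + n ≤ N) :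
    so T s (n + 1) * T s = om T s (n + 1) := by
  have hcube := h.cube s (by omega)
  rw [so_bot, om_bot]
  linear_combination (norm := noncomm_ring) so T (s + 1) n * hcube

/-- moving the lowest letter to the right, auxiliary relation -/
theorem RelN.bot_top (h : RelN N T) {n s : ℕ} (hs : s + (n + 2) ≤ N) :
    T s * T (s + (n + 2)) * om T (s + 1) (n + 1) =
      T (s + (n + 2)) * T (s + (n + 2)) * om T (s + 1) (n + 1) +
        T (s + (n + 1)) * T s * om T (s + 1) (n + 1) := by
  have hV := h.V s (s + (n + 1)) (by omega) (by omega)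
  have z1 := h.ZL (n := n + 1) (s := s + 1) (k := s + (n + 1)) (by omega) (by omega) (by omega)
  have z2 := h.ZL (n := n + 1) (s := s + 1) (k := s + 1) (by omega) (by omega) (by omega)
  have hl := h.LL (n := n + 1) (s := s + 1) (b := s + 1) (by omega) (by omega) (by omega)
  have hl2 : om T (s + 1) (n + 1 + 1) = T (s + 1 + (n + 1)) * T (s + 1 + (n + 1)) *
    om T (s + 1) (n + 1) := rfl
  rw [hl2, show s + 1 + (n + 1) = s + (n + 2) by ring] at hl
  rw [show s + (n + 1) + 1 = s + (n + 2) by ring] at hV
  linear_combination (norm := noncomm_ring) -(hV * om T (s + 1) (n + 1)) + T s * z1 + hl -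
    T (s + (n + 1)) * z2 + T (s + (n + 2)) * z2

/-- `T s Ω[s+1..] = ± so` -/
theorem RelN.sigL (h : RelN N T) : ∀ n s : ℕ, s + n ≤ N →
    T s * om T (s + 1) n = (-1) ^ n * so T s (n + 1) := by
  intro n
  induction n with
  | zero => intro s _; simp [so, om]
  | succ n ih =>
    intro s hs
    have h1 := ih s (by omega)
    have hC := h.C2 (s + (n + 1)) s (by omega) (by omega)
    have hs2 : so T s (n + 1 + 1) = T (s + (n + 1)) * T (s + (n + 1)) * so T s (n + 1) +
      T (s + (n + 1)) * om T s (n + 1) := rfl
    have ho : om T (s + 1) (n + 1) = T (s + (n + 1)) * T (s + (n + 1)) * om T (s + 1) n := by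
      rw [om, show s + 1 + n = s + (n + 1) by ring]
    have htop := h.top_so (n := n) (s := s) (by omega)
    -- the last term
    have key : T s * T (s + (n + 1)) * om T (s + 1) n = T (s + (n + 1)) * T (s + (n + 1)) *
        om T (s + 1) n + T (s + n) * T s * om T (s + 1) n := by
      cases n with
      | zero =>
        have := h.sq s (by omega)
        simp only [om, mul_one, add_zero, zero_add]
        rw [this]; abel
      | succ n => exact h.bot_top (by omega)
    have hcube := h.cube (s + (n + 1)) (by omega)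
    rw [ho, hs2, pow_succ]
    have e1 : T (s + n) * T s * om T (s + 1) n = (-1) ^ n * om T s (n + 1) := by
      rw [mul_assoc, h1, ← htop]
      have hc : ∀ x y : A, x * ((-1) ^ n * y) = (-1) ^ n * (x * y) := by
        intro x y
        rw [← mul_assoc, ← mul_assoc, ((Commute.neg_one_left x).pow_left n).eq]
      rw [hc]
    rw [e1] at key
    have hc : ∀ x y : A, x * ((-1) ^ n * y) = (-1) ^ n * (x * y) := by
      intro x y
      rw [← mul_assoc, ← mul_assoc, ((Commute.neg_one_left x).pow_left n).eq]
    have e2 : T (s + (n + 1)) * T (s + (n + 1)) * (T s * om T (s + 1) n) =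
        (-1) ^ n * (T (s + (n + 1)) * T (s + (n + 1)) * so T s (n + 1)) := by
      rw [h1, hc]
    have e3 : T (s + (n + 1)) * ((-1) ^ n * om T s (n + 1)) =
        (-1) ^ n * (T (s + (n + 1)) * om T s (n + 1)) := hc _ _
    linear_combination (norm := noncomm_ring) hC * om T (s + 1) n - e2 -
      T (s + (n + 1)) * key - hcube * om T (s + 1) n - e3

theorem sgn_comm (n : ℕ) (x y : A) : x * ((-1) ^ n * y) = (-1) ^ n * (x * y) := by
  rw [← mul_assoc, ← mul_assoc, ((Commute.neg_one_left x).pow_left n).eq]

theorem sgn_sq (n : ℕ) (x : A) : (-1) ^ n * ((-1) ^ n * x) = x := by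
  rw [← mul_assoc, ← pow_add, Even.neg_one_pow ⟨n, rfl⟩, one_mul]

/-- moving the highest letter to the left, auxiliary relation -/
theorem RelN.top_bot (h : RelN N T) {n s : ℕ} (hs : s + (n + 2) ≤ N) :
    om T (s + 1) (n + 1) * T s * T (s + (n + 2)) =
      om T (s + 1) (n + 1) * T s * T s + om T (s + 1) (n + 1) * T (s + (n + 2)) * T (s + 1) := by
  have hV := h.V s (s + (n + 1)) (by omega) (by omega)
  have z1 := h.ZR (n := n + 1) (s := s + 1) (k := s + (n + 1)) (by omega) (by omega) (by omega)
  have z2 := h.ZR (n := n + 1) (s := s + 1) (k := s + 1) (by omega) (by omega) (by omega)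
  have hl := h.LR (n := n + 1) (s := s) (b := s + (n + 1)) (by omega) (by omega) (by omega)
  have hl2 := h.LR (n := n + 1) (s := s) (b := s) (by omega) (by omega) (by omega)
  rw [← hl2] at hl
  rw [show s + (n + 1) + 1 = s + (n + 2) by ring] at hV
  linear_combination (norm := noncomm_ring) -(om T (s + 1) (n + 1) * hV) + hl +
    z2 * T (s + (n + 2)) + z1 * T s - z1 * T (s + 1)

/-- `Ω T = ± so` -/
theorem RelN.sigR (h : RelN N T) : ∀ n s : ℕ, s + n ≤ N →
    om T s n * T (s + n) = (-1) ^ n * so T s (n + 1) := by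
  intro n
  induction n with
  | zero => intro s _; simp [so, om]
  | succ n ih =>
    intro s hs
    have h1 := ih (s + 1) (by omega)
    have hC := h.C2 s (s + (n + 1)) (by omega) (by omega)
    rw [show s + 1 + n = s + (n + 1) by ring] at h1
    have hs2 := so_bot T (n + 1) s
    have ho := om_bot T n s
    have hbot := h.so_bottom (n := n) (s := s + 1) (by omega)
    have key : om T (s + 1) n * T s * T (s + (n + 1)) = om T (s + 1) n * T s * T s +
        om T (s + 1) n * T (s + (n + 1)) * T (s + 1) := by
      cases n with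
      | zero =>
        have := h.sq s (by omega)
        simp only [om, one_mul, zero_add]
        rw [this]
      | succ n => exact h.top_bot (by omega)
    have hcube := h.cube s (by omega)
    have e1 : om T (s + 1) n * T (s + (n + 1)) * T (s + 1) = (-1) ^ n * om T (s + 1) (n + 1) := by
      rw [h1, mul_assoc, hbot]
    rw [e1] at key
    rw [ho, hs2, pow_succ]
    linear_combination (norm := noncomm_ring) om T (s + 1) n * hC - h1 * (T s * T s) -
      key * T s - om T (s + 1) n * hcube

/-- sliding -/
theorem RelN.slide (h : RelN N T) {n s : ℕ} (hs : s + n ≤ N) :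
    T s * om T (s + 1) n = om T s n * T (s + n) := by
  rw [h.sigL n s hs, h.sigR n s hs]

/-- `T Ω T = ± Ω` -/
theorem RelN.hH (h : RelN N T) {n s : ℕ} (hs : s + n ≤ N) :
    T (s + n) * om T s n * T (s + n) = (-1) ^ n * om T s (n + 1) := by
  rw [mul_assoc, h.sigR n s hs, sgn_comm, h.top_so hs]

theorem RelN.hK (h : RelN N T) {n s : ℕ} (hs : s + (n + 1) ≤ N) :
    T (s + (n + 1)) * om T (s + 1) n * T s * (T (s + (n + 1)) * T (s + (n + 1))) =
      (-1) ^ (n + 1) * om T s (n + 2) := by
  have hC := h.C2 (s + (n + 1)) s (by omega) (by omega)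
  have hH := h.hH (n := n) (s := s + 1) (by omega)
  rw [show s + 1 + n = s + (n + 1) by ring] at hH
  have z := h.ZR (n := n + 1) (s := s + 1) (k := s + (n + 1)) (by omega) (by omega) (by omega)
  have hl := h.LR (n := n + 1) (s := s) (b := s + (n + 1)) (by omega) (by omega) (by omega)
  have hl' : om T (s + 1) (n + 1) * T s * T (s + (n + 1)) = om T s (n + 2) := hl
  rw [pow_succ, ← hl']
  have hH1 : T (s + (n + 1)) * om T (s + 1) n * T (s + (n + 1)) * (T (s + (n + 1)) * T s) =
      (-1) ^ n * (om T (s + 1) (n + 1) * T (s + (n + 1)) * T s) := by rw [hH]; noncomm_ring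
  have hH2 : T (s + (n + 1)) * om T (s + 1) n * T (s + (n + 1)) * (T s * T (s + (n + 1))) =
      (-1) ^ n * (om T (s + 1) (n + 1) * T s * T (s + (n + 1))) := by rw [hH]; noncomm_ring
  rw [z, zero_mul, mul_zero] at hH1
  linear_combination (norm := noncomm_ring) (T (s + (n + 1)) * om T (s + 1) n) * hC - hH1 - hH2

/-- the relation `ac = a² + b² + c² + ba + cb` -/
theorem RelN.ac (h : RelN N T) (s : ℕ) (hs : s + 2 ≤ N) : T s * T (s + 2) =
    T s * T s + T (s + 1) * T (s + 1) + T (s + 2) * T (s + 2) + T (s + 1) * T s +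
      T (s + 2) * T (s + 1) := by
  have hV := h.V s (s + 1) (by omega) (by omega)
  have h1 := h.sq s (by omega)
  have h2 := h.sq (s + 1) (by omega)
  rw [show s + 1 + 1 = s + 2 by ring] at hV h2
  linear_combination (norm := noncomm_ring) -hV + h1 + h2

/-- `bab = baa` -/
theorem RelN.bab (h : RelN N T) (s : ℕ) (hs : s + 1 ≤ N) :
    T (s + 1) * T s * T (s + 1) = T (s + 1) * T s * T s := by
  have h1 := h.sq s (by omega)
  have h2 := h.cube (s + 1) (by omega)
  linear_combination (norm := noncomm_ring) T (s + 1) * h1 + h2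

/-- `aab = abb` -/
theorem RelN.aab (h : RelN N T) (s : ℕ) (hs : s + 1 ≤ N) :
    T s * T s * T (s + 1) = T s * T (s + 1) * T (s + 1) := by
  have h1 := h.sq s (by omega)
  have h3 := h.cube s (by omega)
  linear_combination (norm := noncomm_ring) T s * h1 + h3

/-- `aba = bba` -/
theorem RelN.aba (h : RelN N T) (s : ℕ) (hs : s + 1 ≤ N) :
    T s * T (s + 1) * T s = T (s + 1) * T (s + 1) * T s := by
  have h1 := h.sq s (by omega)
  have h3 := h.cube s (by omega)
  linear_combination (norm := noncomm_ring) h1 * T s + h3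

theorem RelN.aux13 (h : RelN N T) {n s : ℕ} (hs : s + (n + 3) ≤ N) :
    T s * T (s + (n + 3)) * om T (s + 2) (n + 1) =
      T (s + (n + 3)) * T (s + (n + 3)) * om T (s + 2) (n + 1) +
      T (s + (n + 2)) * T s * om T (s + 2) (n + 1) +
      T (s + (n + 3)) * T (s + 1) * om T (s + 2) (n + 1) := by
  have hV := h.V s (s + (n + 2)) (by omega) (by omega)
  have z1 := h.ZL (n := n + 1) (s := s + 2) (k := s + (n + 2)) (by omega) (by omega) (by omega)
  have h2 := h.bot_top (n := n) (s := s + 1) (by omega)
  rw [show s + 1 + (n + 2) = s + (n + 3) by ring, show s + 1 + 1 = s + 2 by ring,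
    show s + 1 + (n + 1) = s + (n + 2) by ring] at h2
  rw [show s + (n + 2) + 1 = s + (n + 3) by ring] at hV
  linear_combination (norm := noncomm_ring) -(hV * om T (s + 2) (n + 1)) + T s * z1 + h2

theorem RelN.hG (h : RelN N T) : ∀ n s : ℕ, s + (n + 2) ≤ N →
    T (s + (n + 2)) * T s * om T (s + 2) (n + 1) * T (s + 1) =
      (-1) ^ n * (om T (s + 1) (n + 2) * T s) := by
  intro n
  induction n with
  | zero =>
    intro s hs
    have h1 := h.ac s hs
    have h2 := h.C2 (s + 2) s (by omega) (by omega)
    have h3 := h.cube (s + 2) (by omega)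
    have h4 := h.bab s (by omega)
    have h5 := h.aab s (by omega)
    have h6 := h.C2 (s + 1) s (by omega) (by omega)
    have h7 := h.cube (s + 1) (by omega)
    have e1 : om T (s + 2) (0 + 1) = T (s + 2) * T (s + 2) := by simp [om]
    have e2 : om T (s + 1) (0 + 2) = T (s + 2) * T (s + 2) * (T (s + 1) * T (s + 1)) := by
      simp [om]
    rw [e1, e2]
    simp only [zero_add, pow_zero, one_mul]
    linear_combination (norm := noncomm_ring) T (s + 2) * h2 * T (s + 1) -
      h3 * T s * T (s + 1) - T (s + 2) * T (s + 2) * h1 * T (s + 1) -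
      h3 * T (s + 2) * T (s + 1) - h3 * T (s + 1) * T (s + 1) -
      T (s + 2) * T (s + 2) * h5 - T (s + 2) * T (s + 2) * h4 -
      T (s + 2) * T (s + 2) * h7 - T (s + 2) * T (s + 2) * h6 + T (s + 2) * T (s + 2) * h4
  | succ n ih =>
    intro s hs
    have h1 := ih s (by omega)
    have h2 := h.aux13 (n := n) (s := s) (by omega)
    have h3 := h.C2 (s + (n + 3)) s (by omega) (by omega)
    have h4 := h.cube (s + (n + 3)) (by omega)
    have e1 : om T (s + 2) (n + 1 + 1) = T (s + (n + 3)) * T (s + (n + 3)) * om T (s + 2) (n + 1) := by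
      rw [om, show s + 2 + (n + 1) = s + (n + 3) by ring]
    have e2 : om T (s + 1) (n + 1 + 2) = T (s + (n + 3)) * T (s + (n + 3)) * om T (s + 1) (n + 2) := by
      rw [om, show s + 1 + (n + 2) = s + (n + 3) by ring]
    rw [show s + (n + 1 + 2) = s + (n + 3) by ring, e1, e2, pow_succ]
    have e3 : T (s + (n + 3)) * T (s + (n + 3)) *
        (T (s + (n + 2)) * T s * om T (s + 2) (n + 1) * T (s + 1)) =
        (-1) ^ n * (T (s + (n + 3)) * T (s + (n + 3)) * (om T (s + 1) (n + 2) * T s)) := by
      rw [h1, sgn_comm]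
    linear_combination (norm := noncomm_ring) T (s + (n + 3)) * h3 * om T (s + 2) (n + 1) * T (s + 1) -
      h4 * T s * om T (s + 2) (n + 1) * T (s + 1) -
      T (s + (n + 3)) * T (s + (n + 3)) * h2 * T (s + 1) - e3 -
      h4 * T (s + (n + 3)) * om T (s + 2) (n + 1) * T (s + 1) -
      h4 * T (s + 1) * om T (s + 2) (n + 1) * T (s + 1)

end alg

end Pool.Agent.R110.MT
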