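import Pool.Agent.R110.MT.Poly

/-!
# The monotone triangle polynomial and its values
-/

set_option autoImplicit false

namespace Pool.Agent.R110.MT

open MvPolynomial Finset

theorem mem_IL : ∀ w l : List ℕ, l ∈ IL w ↔ l.length + 1 = w.length ∧
    (∀ i, i < l.length → w.getD i 0 ≤ l.getD i 0 ∧ l.getD i 0 ≤ w.getD (i + 1) 0) ∧
    (∀ i, i + 1 < l.length → l.getD i 0 < l.getD (i + 1) 0)
  | [], l => by simp [IL]
  | [a], l => by
    simp only [IL, mem_singleton, List.length_cons, List.length_nil, zero_add]
    constructor
    · rintro rfl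
      simp
    · rintro ⟨h, _⟩
      exact List.length_eq_zero_iff.1 (by omega)
  | a :: b :: w, l => by
    simp only [IL, mem_image, mem_filter, mem_product, mem_Icc, Prod.exists, mem_IL (b :: w)]
    constructor
    · rintro ⟨c, l', ⟨⟨⟨h1, h2⟩, h3, h4, h5⟩, h6⟩, rfl⟩
      refine ⟨by simp only [List.length_cons] at h3 ⊢; omega, ?_, ?_⟩
      · intro i hi
        cases i with
        | zero => simp only [List.getD_cons_zero, List.getD_cons_succ]; exact ⟨h1, h2⟩
        | succ i =>
          simp only [List.getD_cons_succ] at h4 ⊢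
          simp only [List.length_cons] at hi
          exact h4 i (by omega)
      · intro i hi
        simp only [List.length_cons] at hi
        cases i with
        | zero =>
          cases l' with
          | nil => simp at hi
          | cons d l' =>
            simp only [List.head?_cons, Option.mem_some_iff, forall_eq'] at h6
            simpa using h6
        | succ i =>
          simp only [List.getD_cons_succ]
          exact h5 i (by omega)
    · rintro ⟨h1, h2, h3⟩
      cases l with
      | nil => simp at h1
      | cons c l' =>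
        refine ⟨c, l', ⟨⟨?_, ?_, ?_, ?_⟩, ?_⟩, rfl⟩
        · have := h2 0 (by simp)
          simpa using this
        · simp only [List.length_cons] at h1 ⊢; omega
        · intro i hi
          have := h2 (i + 1) (by simpa using hi)
          simpa using this
        · intro i hi
          have := h3 (i + 1) (by simpa using hi)
          simpa using this
        · intro d hd
          cases l' with
          | nil => simp at hd
          | cons e l' =>
            simp only [List.head?_cons, Option.mem_some_iff] at hd
            subst hd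
            have := h3 0 (by simp)
            simpa using this

theorem ofFn_getD {n : ℕ} {l : List ℕ} (h : l.length = n) :
    List.ofFn (fun i : Fin n => l.getD i 0) = l := by
  subst h
  apply List.ext_getElem
  · simp
  · intro i h1 h2
    simp

theorem getD_ofFn {n : ℕ} (w : Fin n → ℕ) (i : ℕ) (hi : i < n) :
    (List.ofFn w).getD i 0 = w ⟨i, hi⟩ := by
  rw [List.getD_eq_getElem _ _ (by simpa using hi)]
  simp

theorem al_nil (j : ℕ) : al j [] = 1 := by
  have h : (E 0 [] * Q ([] : List ℕ).length : PP) = monomial 0 1 := by
    simp [E, Q, prs]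
  rw [al, h, D_monomial, one_mul]
  simp [mdet]

theorem al_eq_mtc : ∀ (n : ℕ) (w : Fin n → ℕ), StrictMono w →
    al 0 (List.ofFn w) = mtc n (fun i => (w i : ℤ)) := by
  intro n
  induction n with
  | zero =>
    intro w _
    rw [List.ofFn_zero, al_nil, mtc_zero, Nat.cast_one]
  | succ n ih =>
    intro w hw
    have hp : (List.ofFn w).Pairwise (· < ·) := by
      rw [List.pairwise_ofFn]
      intro i j hij
      exact hw hij
    rw [al_count _ hp (by simp), mtc_succ' n _ (fun i j hij => by
      have := hw hij
      exact_mod_cast this), Nat.cast_sum]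
    refine sum_bij (fun l _ => fun i : Fin n => (l.getD i 0 : ℤ)) ?_ ?_ ?_ ?_
    · intro l hl
      rw [mem_IL] at hl
      obtain ⟨h1, h2, h3⟩ := hl
      rw [List.length_ofFn] at h1
      rw [mem_IF]
      refine ⟨fun j => ?_, ?_⟩
      · have h4 := h2 j (by omega)
        rw [getD_ofFn w j (by omega), getD_ofFn w (j + 1) (by omega)] at h4
        exact ⟨by exact_mod_cast h4.1, by exact_mod_cast h4.2⟩
      · have h5 : ∀ i, i + 1 < n → (l.getD i 0 : ℤ) < l.getD (i + 1) 0 := fun i hi => by
          exact_mod_cast h3 i (by omega)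
        cases n with
        | zero => intro i; exact i.elim0
        | succ n =>
          rw [Fin.strictMono_iff_lt_succ]
          intro i
          exact h5 i (by omega)
    · intro l hl l' hl' hll
      rw [mem_IL] at hl hl'
      have h1 := hl.1
      have h2 := hl'.1
      rw [List.length_ofFn] at h1 h2
      rw [← ofFn_getD (n := n) (l := l) (by omega), ← ofFn_getD (n := n) (l := l') (by omega)]
      congr 1
      funext i
      have := congrFun hll i
      exact_mod_cast this
    · intro l hl
      rw [mem_IF] at hl
      have h0 : ∀ i, 0 ≤ l i := fun i => le_trans (by positivity) (hl.1 i).1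
      refine ⟨List.ofFn fun i => (l i).toNat, ?_, ?_⟩
      · rw [mem_IL]
        simp only [List.length_ofFn, true_and]
        refine ⟨fun i hi => ?_, fun i hi => ?_⟩
        · rw [getD_ofFn _ i hi, getD_ofFn _ i (by omega), getD_ofFn _ (i + 1) (by omega)]
          have h1 := hl.1 ⟨i, hi⟩
          have h2 := h0 ⟨i, hi⟩
          simp only [Fin.castSucc_mk, Fin.succ_mk] at h1
          omega
        · rw [getD_ofFn _ i (by omega), getD_ofFn _ (i + 1) (by omega)]
          have h1 : l ⟨i, by omega⟩ < l ⟨i + 1, hi⟩ := hl.2 (by simp [Fin.lt_def])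
          have h2 := h0 ⟨i, by omega⟩
          omega
      · funext i
        rw [getD_ofFn _ i i.2, Int.toNat_of_nonneg (h0 _)]
    · intro l hl
      rw [mem_IL] at hl
      obtain ⟨h1, h2, h3⟩ := hl
      rw [List.length_ofFn] at h1
      have h4 : StrictMono (fun i : Fin n => l.getD i 0) := by
        cases n with
        | zero => intro i; exact i.elim0
        | succ n =>
          rw [Fin.strictMono_iff_lt_succ]
          intro i
          exact h3 i (by have := i.2; omega)
      rw [← ih _ h4, ofFn_getD (by omega)]

/-- translation of the bottom row -/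
theorem mtc_add (n : ℕ) (k : Fin n → ℤ) (c : ℤ) : mtc n (fun i => k i + c) = mtc n k := by
  rw [mtc, mtc]
  refine Nat.card_congr
    { toFun := fun a => ⟨fun i j => a.1 i j - c, ?_⟩
      invFun := fun a => ⟨fun i j => a.1 i j + c, ?_⟩
      left_inv := fun a => by ext; simp
      right_inv := fun a => by ext; simp }
  · obtain ⟨a, ⟨h1, h2⟩, h3⟩ := a
    refine ⟨⟨fun i x y hxy => ?_, fun i hi j => ?_⟩, fun i hi j => ?_⟩
    · have := h1 i hxy
      simp only
      linarith
    · have := h2 i hi j
      simp only
      constructor <;> linarith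
    · have := h3 i hi j
      simp only
      linarith
  · obtain ⟨a, ⟨h1, h2⟩, h3⟩ := a
    refine ⟨⟨fun i x y hxy => ?_, fun i hi j => ?_⟩, fun i hi j => ?_⟩
    · have := h1 i hxy
      simp only
      linarith
    · have := h2 i hi j
      simp only
      constructor <;> linarith
    · have := h3 i hi j
      simp only
      linarith

/-- translation of the polynomial -/
theorem translate {n : ℕ} {P : MvPolynomial (Fin n) ℚ}
    (hP : ∀ w : Fin n → ℕ, StrictMono w → eval (fun i => (w i : ℚ)) P = mtc n (fun i => (w i : ℤ)))
    (c : ℕ) (x : Fin n → ℚ) : eval (fun i => x i + c) P = eval x P := by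
  have h1 : bind₁ (fun i => X i + C (c : ℚ)) P = P := by
    apply poly_unique
    intro w hw
    have h2 : ∀ y : Fin n → ℚ, eval y (bind₁ (fun i => X i + C (c : ℚ)) P) =
        eval (fun i => y i + c) P := by
      intro y
      rw [← eval₂_id, eval₂_id]
      rw [← coe_aeval_eq_eval, ← coe_aeval_eq_eval]
      change (aeval y) (bind₁ _ P) = _
      rw [aeval_bind₁]
      simp
    rw [h2, hP w hw]
    have h3 := hP (fun i => w i + c) (fun i j hij => by
      have := hw hij
      simp only
      omega)
    have h4 := mtc_add n (fun i => (w i : ℤ)) c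
    push_cast at h3
    rw [h3, ← h4]
  have h2 : ∀ y : Fin n → ℚ, eval y (bind₁ (fun i => X i + C (c : ℚ)) P) =
      eval (fun i => y i + c) P := by
    intro y
    rw [← coe_aeval_eq_eval, ← coe_aeval_eq_eval]
    change (aeval y) (bind₁ _ P) = _
    rw [aeval_bind₁]
    simp
  rw [← h2, h1]

/-- the monotone triangle polynomial exists, and takes the values `al 0` on words -/
theorem exists_alpha (n : ℕ) : ∃ P : MvPolynomial (Fin n) ℚ, IsAlpha n P ∧
    ∀ w : Fin n → ℕ, eval (fun i => (w i : ℚ)) P = al 0 (List.ofFn w) := by
  obtain ⟨P, hP⟩ := exists_poly n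
  have hP' : ∀ w : Fin n → ℕ, StrictMono w →
      eval (fun i => (w i : ℚ)) P = mtc n (fun i => (w i : ℤ)) := by
    intro w hw
    rw [← hP, al_eq_mtc n w hw]
  refine ⟨P, ?_, fun w => (hP w).symm⟩
  intro k hk
  obtain ⟨c, hc⟩ : ∃ c : ℕ, ∀ i, 0 ≤ k i + c := by
    refine ⟨∑ i, (k i).natAbs, fun i => ?_⟩
    have h0 : (k i).natAbs ≤ ∑ i, (k i).natAbs :=
      single_le_sum (f := fun i => (k i).natAbs) (fun _ _ => Nat.zero_le _) (mem_univ i)
    have h1 : -(k i) ≤ (k i).natAbs := by omega
    push_cast
    have h2 : ((k i).natAbs : ℤ) ≤ ∑ i, ((k i).natAbs : ℤ) := by exact_mod_cast h0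
    simp only [Int.natCast_natAbs] at h1 h2 ⊢
    linarith
  rw [← translate hP' c, ← mtc_add n k c]
  have h1 := hP' (fun i => (k i + c).toNat) (fun i j hij => by
    have h2 := hk hij
    have h3 := hc i
    have h4 := hc j
    simp only
    omega)
  have h2 : ∀ i, (((k i + c).toNat : ℕ) : ℤ) = k i + c := fun i => Int.toNat_of_nonneg (hc i)
  have h3 : ∀ i, (((k i + c).toNat : ℕ) : ℚ) = (k i : ℚ) + c := fun i => by
    have := congrArg (fun z : ℤ => (z : ℚ)) (h2 i)
    push_cast at this
    exact_mod_cast this
  simp only [h2, h3] at h1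
  exact h1

/-- values of the monotone triangle polynomial at words -/
theorem IsAlpha.eval {n : ℕ} {P : MvPolynomial (Fin n) ℚ} (hP : IsAlpha n P) (w : Fin n → ℕ) :
    MvPolynomial.eval (fun i => (w i : ℚ)) P = al 0 (List.ofFn w) := by
  obtain ⟨P', hP', h⟩ := exists_alpha n
  have h1 : P = P' := by
    apply poly_unique
    intro w hw
    have h2 := hP (fun i => (w i : ℤ)) (fun i j hij => Int.ofNat_lt.2 (hw hij))
    have h3 := hP' (fun i => (w i : ℤ)) (fun i j hij => Int.ofNat_lt.2 (hw hij))
    push_cast at h2 h3
    rw [h2, h3]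
  rw [h1, h]

end Pool.Agent.R110.MT
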