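import Pool.Agent.R110.MT.Alg1
import Pool.Agent.R110.MT.Alpha

/-!
# Word algebra II: the Laplace operator on the words `Ω R`
-/

set_option autoImplicit false
set_option linter.unusedSectionVars false

namespace Pool.Agent.R110.MT

/-- the word `Ω` -/
def omw (s : ℕ) : ℕ → List ℕ
  | 0 => []
  | n + 1 => (s + n) :: (s + n) :: omw s n

section alg

variable {A : Type*} [Ring A] [Algebra ℚ A] {T : ℕ → A}

theorem wd_omw (T : ℕ → A) (s : ℕ) : ∀ n, wd T (omw s n) = om T s n
  | 0 => rfl
  | n + 1 => by rw [omw, wd_cons, wd_cons, wd_omw T s n, om, mul_assoc]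

theorem om_sh (T : ℕ → A) (s : ℕ) : ∀ n, om (sh T) s n = om T (s + 1) n
  | 0 => rfl
  | n + 1 => by rw [om, om, om_sh T s n]; simp only [sh]; rw [show s + n + 1 = s + 1 + n by ring]

theorem length_omw (s : ℕ) : ∀ n, (omw s n).length = 2 * n
  | 0 => rfl
  | n + 1 => by rw [omw, List.length_cons, List.length_cons, length_omw s n]; ring

/-- twisted Leibniz rule -/
theorem Th_append (T : ℕ → A) (u v : List ℕ) : Th T (u ++ v) =
    Th T u * wd (sh T) v + (-1) ^ u.length * (wd T u * Th T v) := by
  induction u with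
  | nil => simp [Th]
  | cons k u ih =>
    rw [List.cons_append, Th, Th, ih, wd_append, List.length_cons, pow_succ, wd_cons, mul_add,
      sgn_comm]
    noncomm_ring

theorem Rel.ps (h : Rel T) : Rel (ps T) where
  V a b := by
    have h1 := h.V (a + 1) (b + 1)
    have h2 := h.V (a + 1) b
    have h3 := h.V a (b + 1)
    have h4 := h.V a b
    simp only [MT.ps]
    linear_combination (norm := noncomm_ring) h1 - h2 - h3 + h4
  C a b c := by
    have h1 := h.C (a + 1) (b + 1) (c + 1)
    have h2 := h.C a (b + 1) (c + 1)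
    have h3 := h.C (a + 1) b (c + 1)
    have h4 := h.C (a + 1) (b + 1) c
    have h5 := h.C a b (c + 1)
    have h6 := h.C a (b + 1) c
    have h7 := h.C (a + 1) b c
    have h8 := h.C a b c
    simp only [MT.ps]
    linear_combination (norm := noncomm_ring) h1 - h2 - h3 - h4 + h5 + h6 + h7 - h8

theorem Rel.psT (h : Rel T) (k : ℕ) : MT.ps T k * T (k + 1) = - (T k * T k) := by
  have h1 := h.sq k
  simp only [MT.ps]
  linear_combination (norm := noncomm_ring) -h1

theorem Rel.om_ps (h : Rel T) (s : ℕ) : ∀ n, om (MT.ps T) s (n + 1) =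
    (-1) ^ (n + 1) * (T (s + (n + 1)) * om T (s + 1) n * T s)
  | 0 => by
    have := h.psi_sq s
    simp only [om, add_zero, mul_one, zero_add, pow_one]
    rw [this]
    noncomm_ring
  | n + 1 => by
    have h1 := h.psi_sq (s + (n + 1))
    have e1 : om T (s + 1) (n + 1) = T (s + (n + 1)) * T (s + (n + 1)) * om T (s + 1) n := by
      rw [om, show s + 1 + n = s + (n + 1) by ring]
    rw [om, Rel.om_ps h s n, h1, e1, sgn_comm, pow_succ _ (n + 1),
      show s + (n + 1) + 1 = s + (n + 1 + 1) by ring]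
    noncomm_ring

/-- `Θ(Ω)` -/
theorem Rel.Th_omw (h : Rel T) (s : ℕ) : ∀ n, Th T (omw s (n + 1)) =
    T (s + (n + 1)) * om T (s + 1) n - om T (s + 1) n * T s
  | 0 => by
    simp [omw, Th, om, MT.sh]
  | n + 1 => by
    have h1 := Rel.Th_omw h s n
    have hc := (h.toN (s + (n + 1))).cube (s + (n + 1)) le_rfl
    have e1 : om T (s + 1) (n + 1) = T (s + (n + 1)) * T (s + (n + 1)) * om T (s + 1) n := by
      rw [om, show s + 1 + n = s + (n + 1) by ring]
    have e2 : wd (MT.sh T) (omw s (n + 1)) = om T (s + 1) (n + 1) := by rw [wd_omw, om_sh]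
    have e3 : omw s (n + 1 + 1) = (s + (n + 1)) :: (s + (n + 1)) :: omw s (n + 1) := rfl
    rw [e3, Th, Th, wd_cons, h1, e2, e1]
    simp only [MT.sh]
    rw [show s + (n + 1) + 1 = s + (n + 1 + 1) by ring]
    linear_combination (norm := noncomm_ring) -(hc * om T (s + 1) n) + hc * om T (s + 1) n

/-- `Θ(Ω) = ∂(Ω' T)` -/
theorem Rel.Th_omw_eq (h : Rel T) (s m : ℕ) : Th T (omw s (m + 1)) =
    om (MT.ps T) s m * MT.ps T (s + m) := by
  rcases m with _ | _ | n
  · simp [omw, Th, om, MT.ps, MT.sh]
  · have hN := h.toN (s + 2)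
    have h0 := h.psi_sq s
    have h1 := hN.ac s le_rfl
    have h2 := hN.bab s (by omega)
    have h3 := hN.aab (s + 1) (by omega)
    have h4 := hN.C2 (s + 1) (s + 2) (by omega) (by omega)
    have h5 := hN.cube (s + 1) (by omega)
    have e1 : om T (s + 1) 1 = T (s + 1) * T (s + 1) := by simp [om]
    have e0 : om (MT.ps T) s (0 + 1) = MT.ps T s * MT.ps T s := by simp [om]
    rw [h.Th_omw s 1, e0, h0, e1]
    simp only [MT.ps]
    simp only [show s + (1 + 1) = s + 2 by ring, show s + (0 + 1) = s + 1 by ring,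
      show s + 1 + 1 = s + 2 by ring] at *
    linear_combination (norm := noncomm_ring) h4 - h3 - h2 + T (s + 1) * h1 + h5
  · have hN := h.toN (s + (n + 3))
    have hpsN := h.ps.toN (s + (n + 3))
    have hsl := hpsN.slide (n := n + 2) (s := s) (by omega)
    rw [show s + (n + 1 + 1) = s + (n + 2) by ring, show n + 1 + 1 = n + 2 by ring, ← hsl,
      h.om_ps (s + 1) (n + 1), h.Th_omw s (n + 2)]
    have b1 := hN.bot_top (n := n) (s := s + 1) (by omega)
    have b2 := hN.aux13 (n := n) (s := s) (by omega)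
    have b3 := hN.hG n s (by omega)
    have b4 := hN.sigL (n + 1) (s + 1) (by omega)
    have b5 := hN.top_so (n := n + 1) (s := s + 1) (by omega)
    have b6 := hN.so_bottom (n := n + 1) (s := s + 1) (by omega)
    have b7 := hN.ZR (n := n + 2) (s := s + 1) (k := s + 1) (by omega) (by omega) (by omega)
    simp only [show s + 1 + (n + 2) = s + (n + 3) by ring, show s + 1 + 1 = s + 2 by ring,
      show s + 1 + (n + 1) = s + (n + 2) by ring, show n + 1 + 1 = n + 2 by ring,
      show s + (n + 2 + 1) = s + (n + 3) by ring]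
      at *
    set Y := om T (s + 2) (n + 1) with hY
    set O := om T (s + 1) (n + 2) with hO
    set S := so T (s + 1) (n + 2) with hS
    -- `T (s+n+2) * T (s+1) * Y = ± O`
    have c1 : T (s + (n + 2)) * T (s + 1) * Y = (-1) ^ (n + 1) * O := by
      rw [mul_assoc, b4, sgn_comm, b5]
    have c2 : T (s + 1) * Y * T (s + 1) = (-1) ^ (n + 1) * O := by
      rw [b4, mul_assoc, b6]
    have c3 : T (s + (n + 2)) * T (s + 1) * Y * T (s + 1) = 0 := by
      rw [c1, mul_assoc, b7, mul_zero]
    have c4 : T (s + (n + 3)) * (T (s + 1) * Y * T (s + 1)) =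
        (-1) ^ (n + 1) * (T (s + (n + 3)) * O) := by
      rw [c2, sgn_comm]
    -- the difference
    have c5 : MT.ps T s * (T (s + (n + 3)) * Y * T (s + 1)) =
        - ((-1) ^ n * (O * T s)) - (-1) ^ (n + 1) * (T (s + (n + 3)) * O) := by
      simp only [MT.ps]
      linear_combination (norm := noncomm_ring) b1 * T (s + 1) - b2 * T (s + 1) + c3 - b3 - c4
    rw [sgn_comm, c5, mul_sub, mul_neg]
    have e1 : (-1 : A) ^ (n + 2) = (-1) ^ n := by rw [pow_add]; simp
    have e2 : (-1 : A) ^ (n + 2) * ((-1) ^ (n + 1) * (T (s + (n + 3)) * O)) =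
        - (T (s + (n + 3)) * O) := by
      rw [show (-1 : A) ^ (n + 2) = - (-1) ^ (n + 1) by rw [pow_succ _ (n + 1)]; noncomm_ring,
        neg_mul, sgn_sq]
    rw [e2, e1, sgn_sq]
    noncomm_ring

/-- the value of an increasing word under `∂` -/
theorem Rel.F1 (h : Rel T) (s : ℕ) : ∀ n, wd (MT.ps T) (List.range' s n) * T (s + n) =
    (-1) ^ n * (T s * wd T (List.range' s n))
  | 0 => by simp
  | n + 1 => by
    have h1 := Rel.F1 h s n
    have h2 := h.psT (s + n)
    rw [List.range'_1_concat, wd_append, wd_append, wd_cons, wd_nil, wd_cons, wd_nil, mul_one,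
      mul_one, pow_succ, show s + (n + 1) = s + n + 1 by ring]
    linear_combination (norm := noncomm_ring) wd (MT.ps T) (List.range' s n) * h2 - h1 * T (s + n)

theorem Rel.om_ps_sq (h : Rel T) (s : ℕ) : ∀ m, om (MT.ps T) s m * (T (s + m) * T (s + m)) =
    om T s (m + 1)
  | 0 => by simp [om]
  | n + 1 => by
    have hN := h.toN (s + (n + 1))
    have hK := hN.hK (n := n) (s := s) (by omega)
    rw [h.om_ps s n, mul_assoc, hK, sgn_sq]

theorem Rel.main_aux (h : Rel T) (s m r : ℕ) :
    wd (MT.ps T) (omw s m ++ List.range' (s + m) (r + 1)) * T (s + m + (r + 1)) =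
      - ((-1) ^ r * wd T (omw s (m + 1) ++ List.range' (s + m + 1) r)) := by
  rw [wd_append, wd_append, mul_assoc, h.F1, wd_omw, wd_omw, sgn_comm, pow_succ,
    List.range'_succ, wd_cons, ← h.om_ps_sq s m]
  noncomm_ring

/-- `Θ(Ω R) = ∂(Ω' R')` -/
theorem Rel.main (h : Rel T) (s m : ℕ) : ∀ r, Th T (omw s (m + 1) ++ List.range' (s + m + 1) r) =
    wd (MT.ps T) (omw s m ++ List.range' (s + m) (r + 1))
  | 0 => by
    rw [List.range'_zero, List.append_nil, h.Th_omw_eq, wd_append, wd_omw]
    simp
  | r + 1 => by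
    have h1 := Rel.main h s m r
    have h2 := h.main_aux s m r
    have e3 : List.range' (s + m) (r + 1 + 1) = List.range' (s + m) (r + 1) ++ [s + m + (r + 1)] :=
      List.range'_1_concat
    rw [List.range'_1_concat, ← List.append_assoc, Th_append, h1, e3,
      ← List.append_assoc (omw s m),
      wd_append (MT.ps T) (omw s m ++ List.range' (s + m) (r + 1)) [s + m + (r + 1)]]
    have e1 : Th T [s + m + 1 + r] = 1 := by simp [Th]
    have e2 : (-1 : A) ^ (omw s (m + 1) ++ List.range' (s + m + 1) r).length = (-1) ^ r := by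
      rw [List.length_append, length_omw, List.length_range', pow_add, pow_mul]
      simp
    rw [e1, e2, wd_cons, wd_nil, wd_cons, wd_nil, mul_one, mul_one, mul_one]
    simp only [MT.sh, MT.ps] at *
    rw [show s + m + 1 + r + 1 = s + m + (r + 1) + 1 by ring]
    linear_combination (norm := noncomm_ring) h2

end alg

/-- transport of an identity `Θ w = ∂ v` -/
theorem al_of_Th {w v : List ℕ} (hw : w ≠ []) (h : Th TT w = wd (ps TT) v) : al 0 w = al 0 v := by
  rw [← laplace w hw, h, wd_ps]

/-- the values at the words `Ω R` -/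
theorem al_omw (s : ℕ) : ∀ m r, al 0 (omw s m ++ List.range' (s + m) r) =
    al 0 (List.range' s (m + r))
  | 0, r => by simp [omw]
  | m + 1, r => by
    have h := rel_TT.main s m r
    rw [← add_assoc, al_of_Th (by simp [omw]) h, al_omw s m (r + 1)]
    congr 2
    ring

end Pool.Agent.R110.MT
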