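import Mathlib

/-!
# Monotone triangles and their polynomial
-/

set_option autoImplicit false

namespace Pool.Agent.R110.MT

/-- `a` is a monotone triangle with `n` rows: the rows are `a 0, ..., a (n - 1)`, row `a i` has
`i + 1` entries and is strictly increasing, and consecutive rows interlace. -/
structure IsMT (n : ℕ) (a : (i : Fin n) → Fin (i.val + 1) → ℤ) : Prop where
  mono : ∀ i, StrictMono (a i)
  inter : ∀ (i : ℕ) (h : i + 1 < n) (j : Fin (i + 1)),
    a ⟨i + 1, h⟩ j.castSucc ≤ a ⟨i, Nat.lt_of_succ_lt h⟩ j ∧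
      a ⟨i, Nat.lt_of_succ_lt h⟩ j ≤ a ⟨i + 1, h⟩ j.succ

/-- the set of monotone triangles with `n` rows and bottom row `k` -/
def MTs (n : ℕ) (k : Fin n → ℤ) : Set ((i : Fin n) → Fin (i.val + 1) → ℤ) :=
  {a | IsMT n a ∧ ∀ (i : ℕ) (h : i + 1 = n) (j : Fin (i + 1)),
    a ⟨i, h ▸ Nat.lt_succ_self i⟩ j = k (Fin.cast h j)}

/-- the number of monotone triangles with bottom row `k` -/
noncomputable def mtc (n : ℕ) (k : Fin n → ℤ) : ℕ := Nat.card (MTs n k)

/-- `P` is the monotone triangle polynomial `α (n; k₁, ..., k_n)`: it counts the monotone triangles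
with bottom row `k` for every strictly increasing integer row `k` -/
def IsAlpha (n : ℕ) (P : MvPolynomial (Fin n) ℚ) : Prop :=
  ∀ k : Fin n → ℤ, StrictMono k → MvPolynomial.eval (fun i => (k i : ℚ)) P = mtc n k

open Finset

/-- strictly interlacing rows -/
noncomputable def IF {n : ℕ} (k : Fin (n + 1) → ℤ) : Finset (Fin n → ℤ) :=
  (Fintype.piFinset fun j : Fin n => Icc (k j.castSucc) (k j.succ)).filter
    fun l => ∀ i j : Fin n, i < j → l i < l j

theorem mem_IF {n : ℕ} {k : Fin (n + 1) → ℤ} {l : Fin n → ℤ} :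
    l ∈ IF k ↔ (∀ j : Fin n, k j.castSucc ≤ l j ∧ l j ≤ k j.succ) ∧ StrictMono l := by
  simp only [IF, mem_filter, Fintype.mem_piFinset, mem_Icc]
  exact Iff.rfl

theorem mem_MTs_succ {m : ℕ} {k : Fin (m + 1) → ℤ} {a : (i : Fin (m + 1)) → Fin (i.val + 1) → ℤ} :
    a ∈ MTs (m + 1) k ↔ IsMT (m + 1) a ∧ a (Fin.last m) = k := by
  constructor
  · rintro ⟨h1, h2⟩
    refine ⟨h1, ?_⟩
    ext j
    exact h2 m rfl j
  · rintro ⟨h1, h2⟩
    refine ⟨h1, ?_⟩
    intro i h j
    obtain rfl : i = m := by omega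
    exact congrFun h2 j

theorem isMT_succ {m : ℕ} {a : (i : Fin (m + 2)) → Fin (i.val + 1) → ℤ} :
    IsMT (m + 2) a ↔ IsMT (m + 1) (fun i => a i.castSucc) ∧ StrictMono (a (Fin.last (m + 1))) ∧
      ∀ j : Fin (m + 1), (a (Fin.last (m + 1)) : Fin (m + 2) → ℤ) j.castSucc ≤
        (a (Fin.last m).castSucc : Fin (m + 1) → ℤ) j ∧
        (a (Fin.last m).castSucc : Fin (m + 1) → ℤ) j ≤
          (a (Fin.last (m + 1)) : Fin (m + 2) → ℤ) j.succ := by
  constructor
  · intro h
    refine ⟨⟨fun i => h.mono i.castSucc, fun i hi j => h.inter i (by omega) j⟩, h.mono _, ?_⟩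
    intro j
    exact h.inter m (by omega) j
  · rintro ⟨h1, h2, h3⟩
    refine ⟨fun i => ?_, fun i hi j => ?_⟩
    · induction i using Fin.lastCases with
      | last => exact h2
      | cast i => exact h1.mono i
    · by_cases him : i = m
      · subst him
        exact h3 j
      · exact h1.inter i (by omega) j

theorem mtc_zero (k : Fin 0 → ℤ) : mtc 0 k = 1 := by
  rw [mtc, Nat.card_eq_one_iff_unique]
  refine ⟨⟨fun a b => ?_⟩, ⟨⟨fun i => i.elim0, ⟨⟨fun i => i.elim0, fun i h => by omega⟩,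
    fun i h => by omega⟩⟩⟩⟩
  apply Subtype.ext
  funext i
  exact i.elim0

theorem mtc_one (k : Fin 1 → ℤ) : mtc 1 k = 1 := by
  rw [mtc, Nat.card_eq_one_iff_unique]
  refine ⟨⟨fun a b => ?_⟩, ⟨⟨fun i j => k 0, ?_⟩⟩⟩
  · apply Subtype.ext
    have ha := (mem_MTs_succ.1 a.2).2
    have hb := (mem_MTs_succ.1 b.2).2
    funext i
    obtain rfl : i = Fin.last 0 := Subsingleton.elim (α := Fin 1) _ _
    rw [ha, hb]
  · rw [mem_MTs_succ]
    refine ⟨⟨fun i => ?_, fun i h => by omega⟩, ?_⟩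
    · obtain rfl : i = 0 := Subsingleton.elim (α := Fin 1) _ _
      intro x y hxy
      exact absurd (Subsingleton.elim (α := Fin 1) x y) hxy.ne
    · funext j
      obtain rfl : j = 0 := Subsingleton.elim (α := Fin 1) _ _
      rfl

/-- removing the bottom row -/
def mtEquiv (m : ℕ) (k : Fin (m + 2) → ℤ) (hk : StrictMono k) :
    MTs (m + 2) k ≃ Σ l : {l // l ∈ IF k}, MTs (m + 1) l.1 where
  toFun a := ⟨⟨a.1 (Fin.last m).castSucc, by
      have h1 := mem_MTs_succ.1 a.2
      have h2 := isMT_succ.1 h1.1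
      rw [mem_IF]
      refine ⟨?_, h1.1.mono _⟩
      intro j
      have h3 := h2.2.2 j
      rw [h1.2] at h3
      exact h3⟩, ⟨fun i => a.1 i.castSucc, mem_MTs_succ.2
        ⟨(isMT_succ.1 (mem_MTs_succ.1 a.2).1).1, rfl⟩⟩⟩
  invFun x := ⟨Fin.snoc (α := fun i : Fin (m + 2) => Fin (i.val + 1) → ℤ) x.2.1 k, by
    obtain ⟨⟨l, hl⟩, ⟨a, ha⟩⟩ := x
    rw [mem_IF] at hl
    have ha' := mem_MTs_succ.1 ha
    rw [mem_MTs_succ, isMT_succ]
    have e1 : (fun i : Fin (m + 1) => (Fin.snoc (α := fun i : Fin (m + 2) => Fin (i.val + 1) → ℤ)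
      a k : (i : Fin (m + 2)) → Fin (i.val + 1) → ℤ) i.castSucc) = a := by
      funext i
      exact Fin.snoc_castSucc (α := fun i : Fin (m + 2) => Fin (i.val + 1) → ℤ) k a i
    have e2 : (Fin.snoc (α := fun i : Fin (m + 2) => Fin (i.val + 1) → ℤ)
      a k : (i : Fin (m + 2)) → Fin (i.val + 1) → ℤ) (Fin.last (m + 1)) = k :=
      Fin.snoc_last (α := fun i : Fin (m + 2) => Fin (i.val + 1) → ℤ) k a
    have e3 := congrFun e1 (Fin.last m)
    simp only at e3 ⊢
    rw [e1, e2, e3, ha'.2]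
    exact ⟨⟨ha'.1, hk, hl.1⟩, rfl⟩⟩
  left_inv a := by
    apply Subtype.ext
    have h1 := mem_MTs_succ.1 a.2
    simp only
    funext i
    induction i using Fin.lastCases with
    | last =>
      rw [Fin.snoc_last (α := fun i : Fin (m + 2) => Fin (i.val + 1) → ℤ)]
      exact h1.2.symm
    | cast i => rw [Fin.snoc_castSucc (α := fun i : Fin (m + 2) => Fin (i.val + 1) → ℤ)]
  right_inv x := by
    obtain ⟨⟨l, hl⟩, ⟨a, ha⟩⟩ := x
    have ha' := mem_MTs_succ.1 ha
    have e1 : (fun i : Fin (m + 1) => (Fin.snoc (α := fun i : Fin (m + 2) => Fin (i.val + 1) → ℤ)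
      a k : (i : Fin (m + 2)) → Fin (i.val + 1) → ℤ) i.castSucc) = a := by
      funext i
      exact Fin.snoc_castSucc (α := fun i : Fin (m + 2) => Fin (i.val + 1) → ℤ) k a i
    have e3 := (congrFun e1 (Fin.last m)).trans ha'.2
    exact Sigma.subtype_ext (Subtype.ext e3) e1

theorem finite_MTs (n : ℕ) : ∀ k : Fin n → ℤ, StrictMono k → Finite (MTs n k) := by
  induction n with
  | zero =>
    intro k _
    have := Nat.card_eq_one_iff_unique.1 (mtc_zero k)
    obtain ⟨h, _⟩ := this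
    infer_instance
  | succ n ih =>
    intro k hk
    cases n with
    | zero =>
      have := Nat.card_eq_one_iff_unique.1 (mtc_one k)
      obtain ⟨h, _⟩ := this
      infer_instance
    | succ m =>
      have : ∀ l : {l // l ∈ IF k}, Finite (MTs (m + 1) l.1) :=
        fun l => ih l.1 (mem_IF.1 l.2).2
      exact Finite.of_equiv _ (mtEquiv m k hk).symm

theorem mtc_succ (m : ℕ) (k : Fin (m + 2) → ℤ) (hk : StrictMono k) :
    mtc (m + 2) k = ∑ l ∈ IF k, mtc (m + 1) l := by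
  have : ∀ l : {l // l ∈ IF k}, Finite (MTs (m + 1) l.1) :=
    fun l => finite_MTs _ l.1 (mem_IF.1 l.2).2
  rw [mtc, Nat.card_congr (mtEquiv m k hk), Nat.card_sigma,
    Finset.sum_coe_sort (IF k) (fun l => Nat.card (MTs (m + 1) l))]
  rfl

theorem mtc_succ' (n : ℕ) (k : Fin (n + 1) → ℤ) (hk : StrictMono k) :
    mtc (n + 1) k = ∑ l ∈ IF k, mtc n l := by
  cases n with
  | zero =>
    rw [mtc_one]
    have h : IF k = {fun i => i.elim0} := by
      ext l
      simp only [mem_IF, mem_singleton]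
      constructor
      · intro _
        funext i
        exact i.elim0
      · intro _
        exact ⟨fun j => j.elim0, fun i => i.elim0⟩
    rw [h, sum_singleton, mtc_zero]
  | succ m => exact mtc_succ m k hk

end Pool.Agent.R110.MT
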