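import Pool.Agent.R110.MT.Lap
import Pool.Agent.R110.MT.Defs

/-!
# The word functional counts monotone triangles
-/

set_option autoImplicit false

namespace Pool.Agent.R110.MT

open MvPolynomial Finset

section alg

variable {A : Type*} [Ring A] [Algebra ℚ A] {T : ℕ → A}

theorem two_cancel {x : A} (h : x + x = 0) : x = 0 := by
  have h1 : (2 : ℚ) • x = 0 := by rw [two_smul]; exact h
  exact (smul_eq_zero.1 h1).resolve_left (by norm_num)

theorem six_cancel {x : A} (h : x + x + x + x + x + x = 0) : x = 0 := by
  have h1 : (6 : ℚ) • x = 0 := by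
    rw [← h]
    module
  exact (smul_eq_zero.1 h1).resolve_left (by norm_num)

/-- `T k * T (k + 1) = T k ^ 2 + T (k + 1) ^ 2` -/
theorem Rel.sq (h : Rel T) (k : ℕ) : T k * T (k + 1) = T k * T k + T (k + 1) * T (k + 1) := by
  have h1 := h.V k k
  have h2 : (T k * T k - T k * T (k + 1) + T (k + 1) * T (k + 1)) +
      (T k * T k - T k * T (k + 1) + T (k + 1) * T (k + 1)) = 0 := by
    rw [← h1]; abel
  have h3 := two_cancel h2
  have h4 : T k * T (k + 1) = T k * T k + T (k + 1) * T (k + 1) -
    (T k * T k - T k * T (k + 1) + T (k + 1) * T (k + 1)) := by abel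
  rw [h4, h3, sub_zero]

theorem Rel.psi_sq (h : Rel T) (k : ℕ) : ps T k * ps T k = - (T (k + 1) * T k) := by
  have h1 := h.sq k
  have h2 : ps T k * ps T k = T (k + 1) * T (k + 1) - T (k + 1) * T k - T k * T (k + 1) + T k * T k := by
    simp only [ps]; noncomm_ring
  rw [h2, h1]
  abel

/-- the three term recursion -/
theorem Rel.Th_cons (h : Rel T) (a b : ℕ) (w : List ℕ) : Th T (a :: b :: w) =
    (T (b + 1) - T a) * Th T (b :: w) - ps T b * ps T b * Th T w := by
  rw [h.psi_sq]
  simp only [Th, wd_cons, sh]
  noncomm_ring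

/-- strictly interlacing rows of words -/
def IL : List ℕ → Finset (List ℕ)
  | [] => ∅
  | [_] => {[]}
  | a :: b :: w => ((Icc a b ×ˢ IL (b :: w)).filter fun x => ∀ c ∈ x.2.head?, x.1 < c).image
      fun x => x.1 :: x.2

theorem IL_ge {a : ℕ} {w : List ℕ} {l : List ℕ} (h : l ∈ IL (a :: w)) :
    ∀ c ∈ l.head?, a ≤ c := by
  cases w with
  | nil =>
    simp only [IL, mem_singleton] at h
    subst h
    simp
  | cons b w =>
    simp only [IL, mem_image, mem_filter, mem_product, mem_Icc] at h
    obtain ⟨x, ⟨⟨⟨h1, h2⟩, h3⟩, h4⟩, rfl⟩ := h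
    simp only [List.head?_cons, Option.mem_some_iff, forall_eq']
    exact h1

theorem sum_ps (a b : ℕ) (hab : a ≤ b) : ∑ i ∈ Icc a b, ps T i = T (b + 1) - T a := by
  induction b, hab using Nat.le_induction with
  | base => simp [ps]
  | succ b hab ih =>
    have h : Icc a (b + 1) = insert (b + 1) (Icc a b) := by
      ext x
      simp only [mem_Icc, mem_insert]
      omega
    rw [h, sum_insert (by simp), ih]
    simp only [ps]
    abel

theorem Rel.Th_eq (h : Rel T) : ∀ w : List ℕ, w.Pairwise (· < ·) →
    Th T w = ∑ l ∈ IL w, wd (ps T) l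
  | [], _ => by simp [Th, IL]
  | [a], _ => by simp [Th, IL]
  | a :: b :: w, hw => by
    have hw1 : (b :: w).Pairwise (· < ·) := hw.of_cons
    have hw2 : w.Pairwise (· < ·) := hw1.of_cons
    have hab : a < b := (List.pairwise_cons.1 hw).1 b (by simp)
    rw [h.Th_cons, Rel.Th_eq h (b :: w) hw1, Rel.Th_eq h w hw2, IL, sum_image]
    · simp only [wd_cons]
      have h1 : ∑ x ∈ (Icc a b ×ˢ IL (b :: w)), ps T x.1 * wd (ps T) x.2 =
          (T (b + 1) - T a) * ∑ l ∈ IL (b :: w), wd (ps T) l := by
        rw [sum_product, ← sum_ps a b hab.le, sum_mul_sum]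
      rw [← h1, ← sum_filter_add_sum_filter_not (Icc a b ×ˢ IL (b :: w))
        (fun x => ∀ c ∈ x.2.head?, x.1 < c), add_sub_assoc, add_eq_left, sub_eq_zero, mul_sum]
      symm
      refine sum_bij (fun l _ => (b, b :: l)) ?_ ?_ ?_ ?_
      · intro l hl
        simp only [mem_filter, mem_product, mem_Icc, List.head?_cons, Option.mem_some_iff,
          forall_eq', lt_self_iff_false, not_false_eq_true, and_true, le_refl]
        refine ⟨hab.le, ?_⟩
        cases w with
        | nil => simp [IL] at hl
        | cons c w =>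
          have hbc : b < c := (List.pairwise_cons.1 hw1).1 c (by simp)
          simp only [IL, mem_image, mem_filter, mem_product, mem_Icc]
          refine ⟨(b, l), ⟨⟨⟨le_rfl, hbc.le⟩, hl⟩, ?_⟩, rfl⟩
          intro d hd
          exact lt_of_lt_of_le hbc (IL_ge hl d hd)
      · intro l _ l' _ hll
        simpa using hll
      · rintro ⟨c, l⟩ hx
        simp only [mem_filter, mem_product, mem_Icc] at hx
        obtain ⟨⟨⟨h2, h3⟩, h4⟩, h5⟩ := hx
        push Not at h5
        obtain ⟨d, hd, h6⟩ := h5
        have h7 := IL_ge h4 d hd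
        have h8 : d = b := by omega
        have h9 : c = b := by omega
        subst h9
        cases l with
        | nil => simp at hd
        | cons e l =>
          simp only [List.head?_cons, Option.mem_some_iff] at hd
          have h10 : e = c := by omega
          refine ⟨l, ?_, by rw [h10]⟩
          cases w with
          | nil => simp [IL] at h4
          | cons f w =>
            simp only [IL, mem_image, mem_filter, mem_product, mem_Icc] at h4
            obtain ⟨y, ⟨⟨_, h11⟩, _⟩, h12⟩ := h4
            rw [List.cons.injEq] at h12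
            rw [← h12.2]
            exact h11
      · intro l _
        rw [wd_cons, mul_assoc]
    · rintro ⟨x1, x2⟩ _ ⟨y1, y2⟩ _ hxy
      simpa using hxy

end alg

/-- the counting recursion -/
theorem al_count (w : List ℕ) (hw : w.Pairwise (· < ·)) (h0 : w ≠ []) :
    al 0 w = ∑ l ∈ IL w, al 0 l := by
  rw [← laplace w h0, rel_TT.Th_eq w hw]
  have h : ∀ l : List ℕ, (wd (ps TT) l (Al 1) : List ℕ → ℚ) [] = al 0 l := fun l => wd_ps 0 l
  rw [← sum_congr rfl fun l _ => h l, LinearMap.sum_apply]
  have h2 := map_sum (MM.subtype) (fun l => wd (ps TT) l (Al 1)) (IL w)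
  simp only [Submodule.subtype_apply] at h2
  rw [h2, Finset.sum_apply]

end Pool.Agent.R110.MT
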