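import Mathlib

/-!
# The antisymmetriser functional

Polynomials in the variables `X 0, X 1, ...` over `ℚ`. `D n j` sends a monomial with exponents
`m 0, ..., m (n - 1)` to the determinant of the matrix `[m i = a + j]`, that is the sign of the
permutation if the exponents are `j, ..., j + n - 1` in some order and `0` otherwise.
-/

set_option autoImplicit false

namespace Pool.Agent.R110.MT

open MvPolynomial Finset

/-- polynomials -/
abbrev PP := MvPolynomial ℕ ℚ

/-- the determinant of an exponent vector -/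
noncomputable def mdet (n j : ℕ) (m : ℕ →₀ ℕ) : ℚ :=
  Matrix.det (Matrix.of fun (i a : Fin n) => if m i = a + j then (1 : ℚ) else 0)

/-- the antisymmetriser functional -/
noncomputable def D (n j : ℕ) : PP →ₗ[ℚ] ℚ := (basisMonomials ℕ ℚ).constr ℚ (mdet n j)

theorem D_monomial (n j : ℕ) (m : ℕ →₀ ℕ) (c : ℚ) : D n j (monomial m c) = c * mdet n j m := by
  have h1 : (monomial m c : PP) = c • (basisMonomials ℕ ℚ) m := by
    rw [coe_basisMonomials, smul_monomial, smul_eq_mul, mul_one]
  rw [h1, map_smul, D, Module.Basis.constr_basis, smul_eq_mul]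

theorem lin_ext {M : Type*} [AddCommMonoid M] [Module ℚ M] {f g : PP →ₗ[ℚ] M}
    (h : ∀ m, f (monomial m 1) = g (monomial m 1)) : f = g := by
  apply (basisMonomials ℕ ℚ).ext
  intro m
  rw [coe_basisMonomials]
  exact h m

theorem mdet_swap (n j : ℕ) {p q : ℕ} (hp : p < n) (hq : q < n) (hpq : p ≠ q) (m : ℕ →₀ ℕ) :
    mdet n j (m.mapDomain (Equiv.swap p q)) = - mdet n j m := by
  have h1 : (Matrix.of fun (i a : Fin n) => if (m.mapDomain (Equiv.swap p q)) i = a + j then (1 : ℚ)
      else 0) = (Matrix.of fun (i a : Fin n) => if m i = a + j then (1 : ℚ) else 0).submatrix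
        (Equiv.swap (⟨p, hp⟩ : Fin n) ⟨q, hq⟩) id := by
    ext i a
    have h2 : (m.mapDomain (Equiv.swap p q)) i = m ((Equiv.swap (⟨p, hp⟩ : Fin n) ⟨q, hq⟩ i : Fin n)) := by
      have h3 : (i : ℕ) = Equiv.swap p q ((Equiv.swap (⟨p, hp⟩ : Fin n) ⟨q, hq⟩ i : Fin n) : ℕ) := by
        simp only [Equiv.swap_apply_def, Fin.ext_iff]
        split_ifs <;> simp_all
      conv_lhs => rw [h3]
      rw [Finsupp.mapDomain_apply (Equiv.injective _)]
    simp only [Matrix.of_apply, Matrix.submatrix_apply, id_eq, h2]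
  rw [mdet, h1, Matrix.det_permute, Equiv.Perm.sign_swap (by simpa using hpq)]
  simp [mdet]

theorem D_swap (n j : ℕ) {p q : ℕ} (hp : p < n) (hq : q < n) (hpq : p ≠ q) (g : PP) :
    D n j (rename (Equiv.swap p q) g) = - D n j g := by
  have h : (D n j) ∘ₗ (rename (Equiv.swap p q) : PP →ₐ[ℚ] PP).toLinearMap = - D n j := by
    apply lin_ext
    intro m
    simp only [LinearMap.comp_apply, AlgHom.toLinearMap_apply, rename_monomial, LinearMap.neg_apply,
      D_monomial, one_mul, mdet_swap n j hp hq hpq]
  exact congrArg (fun f => f g) h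

theorem D_eq_zero (n j : ℕ) {p q : ℕ} (hp : p < n) (hq : q < n) (hpq : p ≠ q) {g : PP}
    (hg : rename (Equiv.swap p q) g = g) : D n j g = 0 := by
  have h := D_swap n j hp hq hpq g
  rw [hg] at h
  linarith

/-- the product of all variables -/
noncomputable def allX (n : ℕ) : PP := ∏ i ∈ range n, X i

theorem allX_eq (n : ℕ) : allX n = monomial (∑ i ∈ range n, Finsupp.single i 1) 1 := by
  rw [allX]
  induction n with
  | zero => simp
  | succ n ih =>
    rw [prod_range_succ, ih, sum_range_succ, X, monomial_mul, one_mul]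

theorem mdet_shift (n j : ℕ) (m : ℕ →₀ ℕ) :
    mdet n (j + 1) ((∑ i ∈ range n, Finsupp.single i 1) + m) = mdet n j m := by
  rw [mdet, mdet]
  congr 1
  ext i a
  simp only [Matrix.of_apply]
  have h1 : ((∑ k ∈ range n, Finsupp.single k 1) + m : ℕ →₀ ℕ) i = m i + 1 := by
    rw [Finsupp.add_apply, Finsupp.finsetSum_apply]
    simp only [Finsupp.single_apply]
    rw [sum_ite_eq' (range n) (i : ℕ) (fun _ => 1), if_pos (mem_range.2 i.2)]
    ring
  rw [h1]
  congr 1
  apply propext
  omega

theorem D_shift (n j : ℕ) (g : PP) : D n (j + 1) (allX n * g) = D n j g := by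
  have h : (D n (j + 1)) ∘ₗ (LinearMap.mulLeft ℚ (allX n)) = D n j := by
    apply lin_ext
    intro m
    simp only [LinearMap.comp_apply, LinearMap.mulLeft_apply, allX_eq, monomial_mul, D_monomial,
      one_mul, mdet_shift]
  exact congrArg (fun f => f g) h

/-- set the variable `i` to `0` and relabel the later variables -/
noncomputable def rho (i : ℕ) : PP →ₐ[ℚ] PP :=
  aeval fun s => if s = i then 0 else if s < i then X s else X (s - 1)

theorem rho_monomial (i : ℕ) (m : ℕ →₀ ℕ) : rho i (monomial m 1) =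
    if m i = 0 then monomial (m.mapDomain fun s => if s < i then s else s - 1) 1 else 0 := by
  rw [rho, aeval_monomial, map_one, one_mul]
  by_cases h : m i = 0
  · rw [if_pos h]
    rw [Finsupp.mapDomain, monomial_finsupp_sum_index, C_1, one_mul]
    apply Finset.prod_congr rfl
    intro s hs
    have hsi : s ≠ i := by
      rintro rfl
      exact (Finsupp.mem_support_iff.1 hs) h
    simp only [hsi, if_false]
    split_ifs <;> rw [X_pow_eq_monomial]
  · rw [if_neg h]
    apply Finset.prod_eq_zero (Finsupp.mem_support_iff.2 h)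
    simp only [if_true]
    exact zero_pow h

theorem mapDomain_apply_aux (i : ℕ) (m : ℕ →₀ ℕ) (h : m i = 0) (k : ℕ) :
    (m.mapDomain fun s => if s < i then s else s - 1) k = m (if k < i then k else k + 1) := by
  rw [Finsupp.mapDomain, Finsupp.sum, Finsupp.finsetSum_apply]
  simp only [Finsupp.single_apply]
  rw [Finset.sum_eq_single (if k < i then k else k + 1)]
  · rw [if_pos]
    split_ifs <;> omega
  · intro s hs hne
    have hsi : s ≠ i := by
      rintro rfl
      exact (Finsupp.mem_support_iff.1 hs) h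
    rw [if_neg]
    intro h2
    apply hne
    split_ifs at h2 ⊢ <;> omega
  · intro hs
    rw [Finsupp.notMem_support_iff.1 hs]
    simp

theorem mdet_laplace (n : ℕ) (m : ℕ →₀ ℕ) : mdet (n + 1) 0 m =
    ∑ i ∈ range (n + 1), (-1) ^ i * if m i = 0 then
      mdet n 1 (m.mapDomain fun s => if s < i then s else s - 1) else 0 := by
  rw [mdet, Matrix.det_succ_column_zero, ← Fin.sum_univ_eq_sum_range
    (fun i => (-1 : ℚ) ^ i * if m i = 0 then
      mdet n 1 (m.mapDomain fun s => if s < i then s else s - 1) else 0)]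
  refine sum_congr rfl fun i _ => ?_
  rw [mul_assoc]
  congr 1
  by_cases h : m i = 0
  · have e1 : (Matrix.of fun (i a : Fin (n + 1)) => if m i = a + 0 then (1 : ℚ) else 0) i 0 = 1 := by
      simp [h]
    rw [e1, if_pos h, one_mul, mdet]
    congr 1
    ext k a
    simp only [Matrix.submatrix_apply, Matrix.of_apply, Fin.val_succ]
    rw [mapDomain_apply_aux _ _ h]
    have h2 : ((i.succAbove k : Fin (n + 1)) : ℕ) = if (k : ℕ) < i then (k : ℕ) else k + 1 := by
      rw [Fin.succAbove]
      simp only [Fin.lt_def, Fin.val_castSucc]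
      split_ifs <;> simp
    rw [h2]
  · have e1 : (Matrix.of fun (i a : Fin (n + 1)) => if m i = a + 0 then (1 : ℚ) else 0) i 0 = 0 := by
      simp [h]
    rw [e1, if_neg h, zero_mul]

theorem D_laplace (n : ℕ) (g : PP) : D (n + 1) 0 g =
    ∑ i ∈ range (n + 1), (-1) ^ i * D n 1 (rho i g) := by
  have h : D (n + 1) 0 = ∑ i ∈ range (n + 1), (-1 : ℚ) ^ i • (D n 1 ∘ₗ (rho i).toLinearMap) := by
    apply lin_ext
    intro m
    simp only [LinearMap.sum_apply, LinearMap.smul_apply, LinearMap.comp_apply,
      AlgHom.toLinearMap_apply, D_monomial, one_mul, mdet_laplace, rho_monomial, smul_eq_mul]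
    refine sum_congr rfl fun i _ => ?_
    split_ifs
    · rw [D_monomial, one_mul]
    · rw [map_zero]
  rw [h]
  simp only [LinearMap.sum_apply, LinearMap.smul_apply, LinearMap.comp_apply,
      AlgHom.toLinearMap_apply, smul_eq_mul]

end Pool.Agent.R110.MT
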