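import Pool.Agent.R110.MT.Alg2

/-!
# Word algebra III: the module generated by an increasing run
-/

set_option autoImplicit false
set_option linter.unusedSectionVars false

namespace Pool.Agent.R110.MT

section alg

variable {A : Type*} [Ring A] [Algebra ℚ A] {T : ℕ → A} {n : ℕ}

/-- the increasing run `T s * ... * T (s + n - 1)` -/
def rn (T : ℕ → A) (s n : ℕ) : A := wd T (List.range' s n)

theorem rn_zero (T : ℕ → A) (s : ℕ) : rn T s 0 = 1 := rfl

theorem rn_succ (T : ℕ → A) (s n : ℕ) : rn T s (n + 1) = rn T s n * T (s + n) := by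
  rw [rn, List.range'_1_concat, wd_append, wd_cons, wd_nil, mul_one]; rfl

theorem rn_succ' (T : ℕ → A) (s n : ℕ) : rn T s (n + 1) = T s * rn T (s + 1) n := by
  rw [rn, List.range'_succ, wd_cons]; rfl

theorem rn_sh (T : ℕ → A) : ∀ n s : ℕ, rn (sh T) s n = rn T (s + 1) n
  | 0, s => rfl
  | n + 1, s => by
    rw [rn_succ, rn_succ, rn_sh T n s]
    simp only [sh]
    rw [show s + n + 1 = s + 1 + n by ring]

/-- letters with `T (n + 1) = 0` -/
def up (T : ℕ → A) (n k : ℕ) : A := if k < n then T (k + 1) else 0

/-- condition on an element -/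
structure G (T : ℕ → A) (n : ℕ) (z : A) : Prop where
  k : ∀ b, b < n → z * (T b * T n + T n *  T b - T n * T (b + 1)) = 0
  t : z * (T n * T n) = 0
  e : z * (T n * T 0 * T n) = 0

theorem G.kk {z : A} (h : G T n z) (b : ℕ) (hb : b ≤ n) :
    z * (T b * T n) = z * (T n * (up T n b - T b)) := by
  rcases Nat.eq_or_lt_of_le hb with rfl | hb
  · have h1 := h.t
    simp only [up, lt_self_iff_false, if_false]
    linear_combination (norm := noncomm_ring) 2 • h1
  · have h1 := h.k b hb
    simp only [up, if_pos hb]
    linear_combination (norm := noncomm_ring) h1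

theorem RelN.G31 (hN : RelN n T) {z : A} (h : G T n z) (c : ℕ) (hc : c ≤ n) :
    z * (T n * T c * T n) = 0 := by
  rcases Nat.eq_zero_or_pos c with rfl | hpos
  · exact h.e
  · obtain ⟨a, rfl⟩ : ∃ a, c = a + 1 := ⟨c - 1, by omega⟩
    have h1 := h.k a (by omega)
    have h2 := hN.C2 n a le_rfl (by omega)
    have h3 := h.t
    linear_combination (norm := noncomm_ring) z * h2 - h1 * T n - h3 * T a

/-- the quadratic expression with `T (n + 1) = 0` -/
def Vt (T : ℕ → A) (n a b : ℕ) : A := T a * T b - T a * up T n b + up T n a * up T n b +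
  T b * T a - T b * up T n a + up T n b * up T n a

theorem Vt_comm (T : ℕ → A) (n a b : ℕ) : Vt T n a b = Vt T n b a := by
  simp only [Vt]; abel

theorem RelN.Vt_eq (hN : RelN n T) (a b : ℕ) (ha : a < n) (hb : b < n) : Vt T n a b = 0 := by
  have h := hN.V a b ha hb
  simp only [Vt, up, if_pos ha, if_pos hb]
  exact h

theorem RelN.ztV (hN : RelN n T) {z : A} (h : G T n z) (a b : ℕ) (ha : a ≤ n) (hb : b ≤ n) :
    z * T n * Vt T n a b = 0 := by
  have key : ∀ a, a ≤ n → z * T n * Vt T n a n = 0 := by
    intro a ha
    have h1 := hN.G31 h a ha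
    have h2 := h.t
    have h3 : up T n n = 0 := by simp [up]
    have h4 : z * T n * Vt T n a n = z * (T n * T a * T n) + z * (T n * T n) * T a -
        z * (T n * T n) * up T n a := by
      simp only [Vt, h3]; noncomm_ring
    rw [h4, h1, h2]
    noncomm_ring
  rcases Nat.eq_or_lt_of_le ha with rfl | ha'
  · rw [Vt_comm]; exact key b hb
  · rcases Nat.eq_or_lt_of_le hb with rfl | hb'
    · exact key a ha
    · rw [hN.Vt_eq a b ha' hb', mul_zero]

/-- difference letters with `T (n + 1) = 0` -/
def pt (T : ℕ → A) (n k : ℕ) : A := up T n k - T k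

/-- the defect -/
def dd (T : ℕ → A) (n : ℕ) (z : A) (a b : ℕ) : A :=
  z * (T a * T b * T n) - z * (T n * (pt T n a * pt T n b))

theorem RelN.dd_symm (hN : RelN n T) {z : A} (h : G T n z) (a b : ℕ) (ha : a ≤ n) (hb : b ≤ n) :
    dd T n z a b + dd T n z b a = 0 := by
  have h1 := hN.C a b n ha hb le_rfl
  have h2 := h.kk a ha
  have h3 := h.kk b hb
  have h4 := hN.ztV h a b ha hb
  simp only [dd, pt]
  simp only [Vt] at h4
  linear_combination (norm := noncomm_ring) z * h1 - h2 * T b - h3 * T a - h4

theorem RelN.dd_V (hN : RelN n T) {z : A} (h : G T n z) (a b : ℕ) (ha : a < n) (hb : b < n) :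
    dd T n z a b - dd T n z a (b + 1) + dd T n z (a + 1) (b + 1) + dd T n z b a -
      dd T n z b (a + 1) + dd T n z (b + 1) (a + 1) = 0 := by
  have h1 := hN.V a b ha hb
  have v1 := hN.ztV h (a + 1) (b + 1) ha hb
  have v2 := hN.ztV h (a + 1) b ha hb.le
  have v3 := hN.ztV h a (b + 1) ha.le hb
  have v4 := hN.ztV h a b ha.le hb.le
  have ea : up T n a = T (a + 1) := by simp [up, ha]
  have eb : up T n b = T (b + 1) := by simp [up, hb]
  simp only [dd, pt, ea, eb]
  simp only [Vt, ea, eb] at v1 v2 v3 v4
  linear_combination (norm := noncomm_ring) z * h1 * T n - v1 + v2 + v3 - v4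

theorem RelN.dd_step (hN : RelN n T) {z : A} (h : G T n z) (a b : ℕ) (ha : a < n) (hb : b < n) :
    dd T n z a (b + 1) = dd T n z (a + 1) b := by
  have h1 := hN.dd_V h a b ha hb
  have h2 := hN.dd_symm h a b ha.le hb.le
  have h3 := hN.dd_symm h (a + 1) (b + 1) ha hb
  have h4 := hN.dd_symm h b (a + 1) hb.le ha
  linear_combination (norm := abel) h2 + h3 - h1 - h4

theorem RelN.dd_swap (hN : RelN n T) {z : A} (h : G T n z) : ∀ d p q : ℕ, q = p + d → q ≤ n →
    dd T n z p q = dd T n z q p := by
  intro d
  induction d using Nat.strong_induction_on with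
  | _ d ih =>
    intro p q hq hqn
    rcases Nat.lt_or_ge d 1 with hd | hd
    · have : q = p := by omega
      rw [this]
    · obtain ⟨r, rfl⟩ : ∃ r, q = r + 1 := ⟨q - 1, by omega⟩
      rw [hN.dd_step h p r (by omega) (by omega)]
      rcases Nat.lt_or_ge d 2 with hd2 | hd2
      · have : r = p := by omega
        rw [this]
      · rw [ih (d - 2) (by omega) (p + 1) r (by omega) (by omega),
          hN.dd_step h r p (by omega) (by omega)]

theorem RelN.dd_zero (hN : RelN n T) {z : A} (h : G T n z) (a b : ℕ) (ha : a ≤ n) (hb : b ≤ n) :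
    dd T n z a b = 0 := by
  have h1 := hN.dd_symm h a b ha hb
  have h2 : dd T n z a b = dd T n z b a := by
    rcases Nat.le_total a b with hab | hab
    · exact hN.dd_swap h (b - a) a b (by omega) hb
    · exact (hN.dd_swap h (a - b) b a (by omega) ha).symm
  rw [← h2] at h1
  exact two_cancel h1

theorem RelN.G_top (hN : RelN n T) {z : A} (h : G T n z) : G T n (z * T n) where
  k b hb := by
    have h1 := hN.G31 h b hb.le
    have h2 := h.t
    linear_combination (norm := noncomm_ring) h1 + h2 * T b - h2 * T (b + 1)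
  t := by
    have h2 := h.t
    linear_combination (norm := noncomm_ring) h2 * T n
  e := by
    have h2 := h.t
    linear_combination (norm := noncomm_ring) h2 * T 0 * T n

theorem RelN.G_mul (hN : RelN n T) {z : A} (h : G T n z) (a : ℕ) (ha : a ≤ n) :
    G T n (z * T a) where
  k b hb := by
    have h1 := hN.dd_zero h a b ha hb.le
    have h2 := h.kk a ha
    have eb : up T n b = T (b + 1) := by simp [up, hb]
    simp only [dd, pt, eb] at h1
    linear_combination (norm := noncomm_ring) h1 + h2 * T b - h2 * T (b + 1)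
  t := by
    have h1 := hN.dd_zero h a n ha le_rfl
    have h2 : up T n n = 0 := by simp [up]
    have h3 := hN.G31 h a ha
    have h4 : z * (T n * up T n a * T n) = 0 := by
      by_cases han : a < n
      · have : up T n a = T (a + 1) := by simp [up, han]
        rw [this]
        exact hN.G31 h (a + 1) han
      · have : up T n a = 0 := by simp [up, han]
        rw [this]; simp
    simp only [dd, pt, h2] at h1
    linear_combination (norm := noncomm_ring) h1 - h4 + h3
  e := by
    have h2 := h.kk a ha
    have hz := hN.G_top h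
    have key : ∀ c, c ≤ n → z * T n * T c * T 0 * T n = 0 := by
      intro c hc
      have h1 := hN.dd_zero hz c 0 hc (Nat.zero_le _)
      have h3 := h.t
      simp only [dd] at h1
      linear_combination (norm := noncomm_ring) h1 + h3 * (pt T n c * pt T n 0)
    have h4 : z * T n * up T n a * T 0 * T n = 0 := by
      by_cases han : a < n
      · have : up T n a = T (a + 1) := by simp [up, han]
        rw [this]
        exact key (a + 1) han
      · have : up T n a = 0 := by simp [up, han]
        rw [this]; simp
    have h5 := key a ha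
    linear_combination (norm := noncomm_ring) h2 * T 0 * T n + h4 - h5

theorem RelN.G_wd (hN : RelN n T) {z : A} (h : G T n z) (w : List ℕ) (hw : ∀ k ∈ w, k ≤ n) :
    G T n (z * wd T w) := by
  induction w generalizing z with
  | nil => simpa using h
  | cons k w ih =>
    rw [wd_cons, ← mul_assoc]
    exact ih (hN.G_mul h k (hw k (by simp))) fun j hj => hw j (by simp [hj])

end alg

end Pool.Agent.R110.MT
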