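import Pool.Agent.R110.MT.Good

/-!
# Word algebra IV: the square of an increasing run
-/

set_option autoImplicit false
set_option linter.unusedSectionVars false

namespace Pool.Agent.R110.MT

section alg

variable {A : Type*} [Ring A] [Algebra ℚ A] {T : ℕ → A} {n N : ℕ}

theorem RelN.mono (h : RelN N T) (hn : n ≤ N) : RelN n T :=
  ⟨fun a b ha hb => h.V a b (by omega) (by omega),
    fun a b c ha hb hc => h.C a b c (by omega) (by omega) (by omega)⟩

theorem RelN.Q : ∀ n, RelN n T → ∀ b, b < n →
    rn T 0 (n + 1) * (T b * T n + T n * T b - T n * T (b + 1)) = 0 := by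
  intro n
  induction n with
  | zero => intro _ b hb; omega
  | succ n ih =>
    intro h b hb
    have h0 : rn T 0 (n + 1 + 1) = rn T 0 (n + 1) * T (n + 1) := by
      rw [rn_succ]; simp
    have h1 := h.C2 (n + 1) b le_rfl (by omega)
    rcases Nat.eq_or_lt_of_le (show b ≤ n by omega) with rfl | hbn
    · have h2 : rn T 0 (b + 1) = rn T 0 b * T b := by rw [rn_succ]; simp
      have h3 := h.aab b (by omega)
      have h4 := h.cube (b + 1) (by omega)
      rw [h0, h2]
      linear_combination (norm := noncomm_ring) rn T 0 b * T b * h1 - rn T 0 b * h3 * T (b + 1) - rn T 0 b * T b * h4 -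
        rn T 0 b * T b * h4
    · have h2 := ih (h.mono (by omega)) b hbn
      have h3 := h.V b n (by omega) (by omega)
      have h4 := h.C2 (n + 1) (b + 1) le_rfl (by omega)
      rw [h0]
      linear_combination (norm := noncomm_ring) rn T 0 (n + 1) * h1 + rn T 0 (n + 1) * h3 * T (n + 1)
        - h2 * T (n + 1) - rn T 0 (n + 1) * h4

theorem RelN.rn_top : ∀ n, RelN n T → rn T 0 (n + 1) * T n = T 0 * rn T 0 (n + 1) := by
  intro n
  induction n with
  | zero => intro _; simp [rn_succ, rn_zero]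
  | succ n ih =>
    intro h
    have h0 : rn T 0 (n + 1 + 1) = rn T 0 (n + 1) * T (n + 1) := by
      rw [rn_succ]; simp
    have h2 : rn T 0 (n + 1) = rn T 0 n * T n := by rw [rn_succ]; simp
    have h1 := ih (h.mono (by omega))
    have h3 := h.aab n (by omega)
    rw [h0]
    rw [h2] at h1 ⊢
    linear_combination (norm := noncomm_ring) h1 * T (n + 1) - rn T 0 n * h3

theorem RelN.rn_top_top (h : RelN n T) : rn T 0 (n + 1) * (T n * T n) = 0 := by
  have h1 := RelN.rn_top n h
  have h2 : rn T 0 (n + 1) = T 0 * rn T 1 n := by rw [rn_succ']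
  have h3 := h.cube 0 (by omega)
  have h4 : rn T 0 (n + 1) * (T n * T n) = T 0 * T 0 * rn T 0 (n + 1) := by
    linear_combination (norm := noncomm_ring) h1 * T n + T 0 * h1
  rw [h4, h2]
  linear_combination (norm := noncomm_ring) h3 * rn T 1 n

theorem RelN.G_rn (h : RelN n T) : G T n (rn T 0 (n + 1)) where
  k := RelN.Q n h
  t := h.rn_top_top
  e := by
    have h1 := RelN.rn_top n h
    have h2 : rn T 0 (n + 1) = T 0 * rn T 1 n := by rw [rn_succ']
    have h3 := h.cube 0 (by omega)
    rcases Nat.eq_zero_or_pos n with rfl | hn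
    · linear_combination (norm := noncomm_ring) rn T 0 1 * h3
    · have h4 := RelN.Q n h 0 hn
      have h5 : rn T 0 (n + 1) * (T n * T 0 * T n) =
          T 0 * T 0 * rn T 0 (n + 1) * (T 1 - T 0) := by
        linear_combination (norm := noncomm_ring) h1 * T 0 * T n + T 0 * h4 + T 0 * h1 * (T 1 - T 0)
      rw [h5, h2]
      linear_combination (norm := noncomm_ring) h3 * rn T 1 n * (T 1 - T 0)

/-- the algebra of the letters `0, ..., n` -/
def Wn (T : ℕ → A) (n : ℕ) : Subalgebra ℚ A := Algebra.adjoin ℚ {x | ∃ k, k ≤ n ∧ T k = x}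

theorem T_mem_Wn {k : ℕ} (hk : k ≤ n) : T k ∈ Wn T n := Algebra.subset_adjoin ⟨k, hk, rfl⟩

theorem Wn_mono {m : ℕ} (h : m ≤ n) : Wn T m ≤ Wn T n := by
  apply Algebra.adjoin_mono
  rintro x ⟨k, hk, rfl⟩
  exact ⟨k, hk.trans h, rfl⟩

theorem rn_mem_Wn (s : ℕ) : ∀ m, s + m ≤ n + 1 → rn T s m ∈ Wn T n
  | 0, _ => by rw [rn_zero]; exact one_mem _
  | m + 1, h => by
    rw [rn_succ]
    exact mul_mem (rn_mem_Wn s m (by omega)) (T_mem_Wn (by omega))

theorem RelN.G_Wn (hN : RelN n T) {x : A} (hx : x ∈ Wn T n) {z : A} (h : G T n z) :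
    G T n (z * x) := by
  induction hx using Algebra.adjoin_induction generalizing z with
  | mem x hx =>
    obtain ⟨k, hk, rfl⟩ := hx
    exact hN.G_mul h k hk
  | algebraMap r =>
    have hc : ∀ y : A, z * (algebraMap ℚ A r) * y = algebraMap ℚ A r * (z * y) := by
      intro y
      rw [← Algebra.commutes r z, mul_assoc]
    exact ⟨fun b hb => by rw [hc, h.k b hb, mul_zero], by rw [hc, h.t, mul_zero],
      by rw [hc, h.e, mul_zero]⟩
  | add x y _ _ hx hy =>
    have h1 := hx h
    have h2 := hy h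
    exact ⟨fun b hb => by rw [mul_add, add_mul, h1.k b hb, h2.k b hb, add_zero],
      by rw [mul_add, add_mul, h1.t, h2.t, add_zero],
      by rw [mul_add, add_mul, h1.e, h2.e, add_zero]⟩
  | mul x y _ _ hx hy =>
    rw [← mul_assoc]
    exact hy (hx h)

/-- two-sided condition -/
structure GG (T : ℕ → A) (n : ℕ) (z v : A) : Prop where
  k : ∀ x ∈ Wn T n, ∀ y ∈ Wn T n, ∀ b, b < n →
    z * x * (T b * T n + T n * T b - T n * T (b + 1)) * y * v = 0
  t : ∀ x ∈ Wn T n, ∀ y ∈ Wn T n, z * x * (T n * T n) * y * v = 0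

theorem RelN.GG_of_G (hN : RelN n T) {z : A} (h : G T n z) (v : A) : GG T n z v where
  k x hx y hy b hb := by
    rw [(hN.G_Wn hx h).k b hb, zero_mul, zero_mul]
  t x hx y hy := by
    rw [(hN.G_Wn hx h).t, zero_mul, zero_mul]

theorem up_mem_Wn (T : ℕ → A) (n k : ℕ) : up T n k ∈ Wn T n := by
  simp only [up]
  split_ifs with h
  · exact T_mem_Wn (by omega)
  · exact zero_mem _

theorem GG.kk {z v : A} (h : GG T n z v) {x y : A} (hx : x ∈ Wn T n) (hy : y ∈ Wn T n) (b : ℕ)
    (hb : b ≤ n) : z * x * (T b * T n) * y * v = z * x * (T n * (up T n b - T b)) * y * v := by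
  rcases Nat.eq_or_lt_of_le hb with rfl | hb
  · have h1 := h.t x hx y hy
    simp only [up, lt_self_iff_false, if_false]
    linear_combination (norm := noncomm_ring) 2 • h1
  · have h1 := h.k x hx y hy b hb
    simp only [up, if_pos hb]
    linear_combination (norm := noncomm_ring) h1

theorem GG.move {z v : A} (h : GG T n z v) {y : A} (hy : y ∈ Wn T n) :
    ∃ y' ∈ Wn T n, ∀ x ∈ Wn T n, ∀ u ∈ Wn T n,
      z * x * (y * T n) * u * v = z * x * (T n * y') * u * v := by
  induction hy using Algebra.adjoin_induction with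
  | mem y hy =>
    obtain ⟨k, hk, rfl⟩ := hy
    exact ⟨up T n k - T k, sub_mem (up_mem_Wn T n k) (T_mem_Wn hk),
      fun x hx u hu => h.kk hx hu k hk⟩
  | algebraMap r =>
    exact ⟨algebraMap ℚ A r, Subalgebra.algebraMap_mem _ r,
      fun x hx u hu => by rw [Algebra.commutes r (T n)]⟩
  | add y1 y2 _ _ h1 h2 =>
    obtain ⟨y1', m1, e1⟩ := h1
    obtain ⟨y2', m2, e2⟩ := h2
    refine ⟨y1' + y2', add_mem m1 m2, fun x hx u hu => ?_⟩
    rw [add_mul, mul_add, mul_add, add_mul, add_mul, mul_add, add_mul, add_mul, e1 x hx u hu,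
      e2 x hx u hu]
  | mul y1 y2 hy1 hy2 h1 h2 =>
    obtain ⟨y1', m1, e1⟩ := h1
    obtain ⟨y2', m2, e2⟩ := h2
    refine ⟨y1' * y2', mul_mem m1 m2, fun x hx u hu => ?_⟩
    have a1 := e2 (x * y1) (mul_mem hx hy1) u hu
    have a2 := e1 x hx (y2' * u) (mul_mem m2 hu)
    linear_combination (norm := noncomm_ring) a1 + a2

theorem GG.down (hN : RelN (n + 1) T) {z v : A} (h : GG T (n + 1) z v) :
    GG T n z (T (n + 1) * v) where
  k x hx y hy b hb := by
    have hx' := Wn_mono (Nat.le_succ n) hx
    obtain ⟨y', m, e⟩ := h.move (Wn_mono (Nat.le_succ n) hy)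
    have mT : ∀ k, k ≤ n + 1 → T k ∈ Wn T (n + 1) := fun k hk => T_mem_Wn hk
    have m1 : T b * T n + T n * T b - T n * T (b + 1) ∈ Wn T (n + 1) :=
      sub_mem (add_mem (mul_mem (mT b (by omega)) (mT n (by omega)))
        (mul_mem (mT n (by omega)) (mT b (by omega))))
        (mul_mem (mT n (by omega)) (mT (b + 1) (by omega)))
    have e1 := e (x * (T b * T n + T n * T b - T n * T (b + 1))) (mul_mem hx' m1) 1 (one_mem _)
    have e2 := hN.V b n (by omega) (by omega)
    have t1 := h.t (x * T b) (mul_mem hx' (mT b (by omega))) y' m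
    have t2 := h.t (x * T (b + 1)) (mul_mem hx' (mT (b + 1) (by omega))) y' m
    have t3 := h.kk (mul_mem hx' (mT (n + 1) le_rfl)) m (b + 1) (by omega)
    have t4 := h.t x hx' ((up T (n + 1) (b + 1) - T (b + 1)) * y')
      (mul_mem (sub_mem (up_mem_Wn T _ _) (mT (b + 1) (by omega))) m)
    linear_combination (norm := noncomm_ring) e1 + z * x * e2 * T (n + 1) * y' * v + t1 - t2 - t3 -
      t4
  t x hx y hy := by
    have hx' := Wn_mono (Nat.le_succ n) hx
    obtain ⟨y', m, e⟩ := h.move (Wn_mono (Nat.le_succ n) hy)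
    have mT : ∀ k, k ≤ n + 1 → T k ∈ Wn T (n + 1) := fun k hk => T_mem_Wn hk
    have e1 := e (x * (T n * T n)) (mul_mem hx' (mul_mem (mT n (by omega)) (mT n (by omega)))) 1
      (one_mem _)
    have e2 := hN.aab n (by omega)
    have t1 := h.t (x * T n) (mul_mem hx' (mT n (by omega))) y' m
    linear_combination (norm := noncomm_ring) e1 + z * x * e2 * y' * v + t1

/-- `N'` -/
theorem GG.nil (s : ℕ) : ∀ m, RelN (s + m) T → ∀ z v : A, GG T (s + m) z v → ∀ c, s ≤ c →
    c ≤ s + m → z * rn T s (m + 1) * T c * v = 0 := by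
  intro m
  induction m with
  | zero =>
    intro hN z v h c h1 h2
    have : c = s := by omega
    subst this
    have := h.t 1 (one_mem _) 1 (one_mem _)
    rw [rn_succ, rn_zero]
    simp only [add_zero] at this ⊢
    linear_combination (norm := noncomm_ring) this
  | succ m ih =>
    intro hN z v h
    have hX : rn T s (m + 1) ∈ Wn T (s + (m + 1)) := rn_mem_Wn s (m + 1) (by omega)
    have key : ∀ d c, c + d = s + (m + 1) → s ≤ c → z * rn T s (m + 1 + 1) * T c * v = 0 := by
      intro d
      induction d with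
      | zero =>
        intro c hc hs
        have : c = s + (m + 1) := by omega
        subst this
        have := h.t _ hX 1 (one_mem _)
        rw [rn_succ]
        linear_combination (norm := noncomm_ring) this
      | succ d ihd =>
        intro c hc hs
        have h1 := ihd (c + 1) (by omega) (by omega)
        have h2 := h.k _ hX 1 (one_mem _) c (by omega)
        have h3 := ih (hN.mono (by omega)) z (T (s + m + 1) * v) (GG.down hN h) c hs (by omega)
        rw [rn_succ] at h1 ⊢
        rw [show s + m + 1 = s + (m + 1) by ring] at h3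
        linear_combination (norm := noncomm_ring) h1 + h2 - h3
    intro c h1 h2
    exact key (s + (m + 1) - c) c (by omega) h1

/-- cyclic relation -/
theorem GG.cyc : ∀ n, RelN n T → ∀ z v : A, GG T n z v →
    z * rn T 1 n * T 0 * v = (-1) ^ n * (z * rn T 0 (n + 1) * v) := by
  intro n
  induction n with
  | zero =>
    intro _ z v _
    rw [rn_succ, rn_zero, rn_zero]
    simp
  | succ n ih =>
    intro hN z v h
    have h1 := ih (hN.mono (by omega)) z (T (n + 1) * v) (GG.down hN h)
    have hX : rn T 1 n ∈ Wn T (n + 1) := rn_mem_Wn 1 n (by omega)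
    have h2 := h.k _ hX 1 (one_mem _) 0 (by omega)
    have hN' : RelN (1 + n) T := by rw [show 1 + n = n + 1 by ring]; exact hN
    have h3 := GG.nil 1 n hN' z v (by rw [show 1 + n = n + 1 by ring]; exact h) 1 le_rfl (by omega)
    have e1 : rn T 1 (n + 1) = rn T 1 n * T (n + 1) := by rw [rn_succ, show 1 + n = n + 1 by ring]
    have e2 : rn T 0 (n + 1 + 1) = rn T 0 (n + 1) * T (n + 1) := by rw [rn_succ]; simp
    rw [e1] at h3 ⊢
    rw [e2, pow_succ]
    linear_combination (norm := noncomm_ring) h2 + h3 - h1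

theorem Rel.rn_sq : ∀ (n : ℕ) (T : ℕ → A), Rel T →
    rn T 0 (n + 1) * rn T 0 (n + 1) = om T 0 (n + 1) := by
  intro n
  induction n with
  | zero => intro T _; simp [rn_succ, rn_zero, om]
  | succ n ih =>
    intro T h
    have h1 := ih (MT.sh T) h.sh
    rw [rn_sh, om_sh] at h1
    have hN := h.toN (n + 1)
    have h2 := GG.cyc (n + 1) hN (rn T 0 (n + 1 + 1)) 1 (hN.GG_of_G hN.G_rn 1)
    have h3 := hN.sigL (n + 1) 0 (by omega)
    have h4 := hN.so_bottom (n := n + 1) (s := 0) (by omega)
    have h5 : rn T 0 (n + 1 + 1) = T 0 * rn T 1 (n + 1) := rn_succ' T 0 (n + 1)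
    have h6 : rn T 0 (n + 1 + 1) * rn T 1 (n + 1) * T 0 * 1 =
        (-1) ^ (n + 1) * om T 0 (n + 1 + 1) := by
      have : rn T 0 (n + 1 + 1) * rn T 1 (n + 1) * T 0 * 1 =
          T 0 * (rn T 1 (n + 1) * rn T 1 (n + 1)) * T 0 := by rw [h5]; noncomm_ring
      rw [this]
      simp only [zero_add] at h1 h3
      rw [h1, h3, mul_assoc, h4]
    rw [h6] at h2
    have h7 := congrArg (fun x => (-1) ^ (n + 1) * x) h2
    simp only [sgn_sq, mul_one] at h7
    exact h7.symm

/-- an increasing run after a longer increasing run -/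
theorem Rel.rn_mul (h : Rel T) (i r : ℕ) :
    wd T (List.range' 0 i ++ List.range' 0 (i + r)) = wd T (omw 0 i ++ List.range' i r) := by
  rw [wd_append, wd_append, wd_omw]
  have e : List.range' 0 (i + r) = List.range' 0 i ++ List.range' i r := by
    rw [← List.range'_append_1]; simp
  rw [e, wd_append, ← mul_assoc]
  congr 1
  cases i with
  | zero => simp [om]
  | succ i => exact h.rn_sq i T

end alg

end Pool.Agent.R110.MT
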