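import Pool.Agent.R110.MT.Alg2

/-!
# Transport of word identities to values of the monotone triangle polynomial
-/

set_option autoImplicit false
set_option linter.unusedSectionVars false

namespace Pool.Agent.R110.MT

/-- transport of an identity of words -/
theorem al_of_wd {w v : List ℕ} (j : ℕ) (h : wd TT w = wd TT v) : al j w = al j v := by
  rw [← wd_TT_Al, h, wd_TT_Al]

/-- the number of monotone triangles with bottom row `1, 2, ..., n` -/
theorem al_range (n : ℕ) : al 0 (List.range' 1 n) = mtc n (fun j => (j : ℤ) + 1) := by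
  have h := al_eq_mtc n (fun j : Fin n => (j : ℕ) + 1) (fun i j hij => by
    simp only
    have : (i : ℕ) < j := hij
    omega)
  have e : List.ofFn (fun j : Fin n => (j : ℕ) + 1) = List.range' 1 n := by
    apply List.ext_getElem
    · simp
    · intro i h1 h2
      simp
      ring
  rw [e] at h
  rw [h]
  simp only [Nat.cast_add, Nat.cast_one]

/-- evaluation of the monotone triangle polynomial at a row given as a list -/
theorem IsAlpha.evalList {n : ℕ} {P : MvPolynomial (Fin n) ℚ} (hP : IsAlpha n P) (w : List ℕ)
    (hw : w.length = n) (L : List ℤ) (hL : L = List.map (fun x : ℕ => (x : ℤ)) w) :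
    MvPolynomial.eval (fun i : Fin n => ((L.getD i 0 : ℤ) : ℚ)) P = al 0 w := by
  have h := hP.eval (fun i => w.getD i 0)
  rw [ofFn_getD hw] at h
  rw [← h]
  congr 2
  funext i
  subst hL
  have hi : (i : ℕ) < w.length := by rw [hw]; exact i.2
  rw [List.getD_eq_getElem _ _ (by rw [List.length_map]; exact hi), List.getD_eq_getElem _ _ hi,
    List.getElem_map, Int.cast_natCast]

/-- uniqueness of the monotone triangle polynomial -/
theorem IsAlpha.unique {n : ℕ} {P P' : MvPolynomial (Fin n) ℚ} (hP : IsAlpha n P)
    (hP' : IsAlpha n P') : P' = P := by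
  apply poly_unique
  intro w hw
  have h2 := hP (fun i => (w i : ℤ)) (fun i j hij => Int.ofNat_lt.2 (hw hij))
  have h3 := hP' (fun i => (w i : ℤ)) (fun i j hij => Int.ofNat_lt.2 (hw hij))
  push_cast at h2 h3
  rw [h2, h3]

section slide

variable {A : Type*} [Ring A] [Algebra ℚ A] {T : ℕ → A}

/-- sliding of a block -/
theorem Rel.slides (h : Rel T) (s k : ℕ) : ∀ p r,
    wd T (List.range' s p ++ (omw (s + p) k ++ List.range' (s + p + k) r)) =
      wd T (omw s k ++ List.range' (s + k) (p + r))
  | 0, r => by simp
  | p + 1, r => by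
    have h1 := Rel.slides h s k p (r + 1)
    have h2 := (h.toN (s + p + k)).slide (n := k) (s := s + p) le_rfl
    rw [show p + 1 + r = p + (r + 1) by ring, ← h1, wd_append, wd_append, wd_append, wd_append,
      List.range'_1_concat, wd_append, wd_cons, wd_nil, mul_one, wd_omw, wd_omw, List.range'_succ,
      wd_cons, show s + (p + 1) = s + p + 1 by ring, show s + p + 1 + k = s + p + k + 1 by ring,
      mul_assoc, ← mul_assoc (T (s + p)), h2]
    noncomm_ring

end slide

theorem al_slides (s k p r : ℕ) :
    al 0 (List.range' s p ++ (omw (s + p) k ++ List.range' (s + p + k) r)) =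
      al 0 (List.range' s (k + (p + r))) := by
  rw [al_of_wd 0 (rel_TT.slides s k p r), al_omw]

end Pool.Agent.R110.MT
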