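import Pool.Agent.R110.MT.Good2
import Pool.Agent.R110.MT.Tools

/-!
# Word algebra V: an increasing run times a shorter increasing run
-/

set_option autoImplicit false
set_option linter.unusedSectionVars false

namespace Pool.Agent.R110.MT

section alg

variable {A : Type*} [Ring A] [Algebra ℚ A] {T : ℕ → A} {n N : ℕ}

theorem GG.P : ∀ n, RelN n T → ∀ z v : A, GG T n z v → ∀ b, b ≤ n →
    z * rn T 0 n * T b * v = z * rn T 0 (n + 1) * v := by
  intro n
  induction n with
  | zero =>
    intro _ z v _ b hb
    have : b = 0 := by omega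
    subst this
    rw [rn_succ, rn_zero]
    simp
  | succ m ih =>
    intro hN z v h b hb
    have e1 : rn T 0 (m + 1) = rn T 0 m * T m := by rw [rn_succ]; simp
    have e2 : rn T 0 (m + 1 + 1) = rn T 0 m * T m * T (m + 1) := by rw [rn_succ, e1]; simp
    have mP : rn T 0 m ∈ Wn T (m + 1) := rn_mem_Wn 0 m (by omega)
    have mT : ∀ k, k ≤ m + 1 → T k ∈ Wn T (m + 1) := fun k hk => T_mem_Wn hk
    obtain ⟨O, hO⟩ : ∃ O, O = z * rn T 0 m * T m * T (m + 1) * v := ⟨_, rfl⟩
    -- the values `p`
    have hp : ∀ c, c ≤ m → z * rn T 0 m * T c * T (m + 1) * v = O := by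
      intro c hc
      have h1 := ih (hN.mono (by omega)) z (T (m + 1) * v) (GG.down hN h) c hc
      rw [hO]
      rw [e1] at h1
      linear_combination (norm := noncomm_ring) h1
    -- the values `u`
    have hu : ∀ d c, c + d = m + 1 → z * rn T 0 m * T (m + 1) * T c * v = - ((d : A) * O) := by
      intro d
      induction d with
      | zero =>
        intro c hc
        have : c = m + 1 := by omega
        subst this
        have h1 := h.t _ mP 1 (one_mem _)
        simp only [Nat.cast_zero, zero_mul, neg_zero]
        linear_combination (norm := noncomm_ring) h1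
      | succ d ihd =>
        intro c hc
        have h1 := ihd (c + 1) (by omega)
        have h2 := hp c (by omega)
        have h3 := h.k _ mP 1 (one_mem _) c (by omega)
        push_cast
        linear_combination (norm := noncomm_ring) h1 + h3 - h2
    -- the values `y`
    have hy0 : z * rn T 0 m * T m * T (m + 1) * v = O := hO.symm
    have hy1 : z * rn T 0 m * T m * T m * v = O := by
      have h1 := hN.sq m (by omega)
      have h2 := h.t _ mP 1 (one_mem _)
      linear_combination (norm := noncomm_ring) hy0 - z * rn T 0 m * h1 * v - h2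
    -- main induction
    have key : ∀ d b, b + (d + 1) = m + 1 → z * rn T 0 m * T m * T b * v = O ∧
        ∀ c, c + 1 = b → z * rn T 0 m * T c * T m * v = ((d + 1 : ℕ) : A) * O := by
      intro d
      induction d with
      | zero =>
        intro b hb
        have : b = m := by omega
        subst this
        refine ⟨hy1, ?_⟩
        rintro c rfl
        have e3 : rn T 0 (c + 1) = rn T 0 c * T c := by rw [rn_succ]; simp
        have h1 := hN.aab c (by omega)
        have h3 := hy1
        rw [e3] at h3 ⊢
        simp only [zero_add, Nat.cast_one, one_mul]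
        linear_combination (norm := noncomm_ring) h3 + z * rn T 0 c * h1 * v
      | succ d ihd =>
        intro b hb
        obtain ⟨h1, h2⟩ := ihd (b + 1) (by omega)
        have h3 := h2 b rfl
        have h4 := hN.V m b (by omega) (by omega)
        have h5 := hu (d + 1) (b + 1) (by omega)
        have h6 := hp b (by omega)
        have h7 := hp (b + 1) (by omega)
        have hyb : z * rn T 0 m * T m * T b * v = O := by
          linear_combination (norm := noncomm_ring) z * rn T 0 m * h4 * v + h1 - h5 - h3 + h6 - h7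
        refine ⟨hyb, ?_⟩
        rintro c rfl
        obtain ⟨q, rfl⟩ : ∃ q, m = q + 1 := ⟨m - 1, by omega⟩
        have h8 := RelN.Q q (hN.mono (by omega)) c (by omega)
        have h9 := hN.V c q (by omega) (by omega)
        push_cast at h3 ⊢
        linear_combination (norm := noncomm_ring) z * h8 * v + h3 + hyb -
          z * rn T 0 (q + 1) * h9 * v
    rw [e1, e2]
    rcases Nat.eq_or_lt_of_le hb with rfl | hb'
    · noncomm_ring
    · have h1 := (key (m - b) b (by omega)).1
      linear_combination (norm := noncomm_ring) h1 + hO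

/-- normal forms -/
def NN (T : ℕ → A) : ℕ → ℤ → Submodule ℚ A
  | 0, d => if d = 0 then Submodule.span ℚ {1} else ⊥
  | m + 1, d => NN T m d ⊔ (NN T m (d - 1)).map (LinearMap.mulLeft ℚ (T m)) ⊔
      (NN T m (d - 2)).map (LinearMap.mulLeft ℚ (T m * T m))

theorem mem_NN_succ {m : ℕ} {d : ℤ} {x : A} : x ∈ NN T (m + 1) d ↔
    ∃ a ∈ NN T m d, ∃ b ∈ NN T m (d - 1), ∃ c ∈ NN T m (d - 2),
      x = a + T m * b + T m * T m * c := by
  rw [NN, Submodule.mem_sup]
  constructor
  · rintro ⟨y, hy, z, hz, rfl⟩
    rw [Submodule.mem_sup] at hy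
    obtain ⟨a, ha, w, hw, rfl⟩ := hy
    obtain ⟨b, hb, rfl⟩ := hw
    obtain ⟨c, hc, rfl⟩ := hz
    exact ⟨a, ha, b, hb, c, hc, rfl⟩
  · rintro ⟨a, ha, b, hb, c, hc, rfl⟩
    exact ⟨a + T m * b, Submodule.add_mem_sup ha ⟨b, hb, rfl⟩, T m * T m * c, ⟨c, hc, rfl⟩, rfl⟩

theorem NN_closed : ∀ m, RelN (m - 1) T → ∀ k, k < m → ∀ d : ℤ, ∀ x ∈ NN T m d,
    T k * x ∈ NN T m (d + 1) := by
  intro m
  induction m with
  | zero => intro _ k hk; omega
  | succ m ih =>
    intro hN k hk d x hx
    rw [Nat.add_sub_cancel] at hN
    have ih' := ih (hN.mono (by omega))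
    obtain ⟨a, ha, b, hb, c, hc, rfl⟩ := mem_NN_succ.1 hx
    rw [mem_NN_succ]
    rcases Nat.eq_or_lt_of_le (show k ≤ m by omega) with rfl | hkm
    · refine ⟨0, zero_mem _, a, by simpa using ha, b, ?_, ?_⟩
      · rw [show d + 1 - 2 = d - 1 by ring]; exact hb
      · have := hN.cube k (by omega)
        linear_combination (norm := noncomm_ring) this * c
    · -- moving the top letter to the left
      have E : ∀ e k, k + (e + 1) = m → ∀ (d : ℤ) (x : A), x ∈ NN T m d →
          ∃ y ∈ NN T m (d + 1), ∃ q ∈ NN T m (d + 2),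
            T k * T m * x = T m * T m * x + T m * y + q := by
        intro e
        induction e with
        | zero =>
          intro k hk d x hx
          obtain rfl : m = k + 1 := by omega
          have h1 := hN.sq k (by omega)
          have m1 := ih' k (by omega) _ _ (ih' k (by omega) d x hx)
          rw [show d + 1 + 1 = d + 2 by ring] at m1
          refine ⟨0, zero_mem _, _, m1, ?_⟩
          linear_combination (norm := noncomm_ring) h1 * x
        | succ e ihe =>
          intro k hk d x hx
          obtain ⟨y, hy, q, hq, h1⟩ := ihe (k + 1) (by omega) d x hx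
          obtain ⟨r, rfl⟩ : ∃ r, m = r + 1 := ⟨m - 1, by omega⟩
          have h2 := hN.V k r (by omega) (by omega)
          have mm : ∀ i j, i < r + 1 → j < r + 1 → T i * (T j * x) ∈ NN T (r + 1) (d + 2) := by
            intro i j hi hj
            have := ih' i hi _ _ (ih' j hj d x hx)
            rwa [show d + 1 + 1 = d + 2 by ring] at this
          refine ⟨y + T (k + 1) * x, add_mem hy (ih' (k + 1) (by omega) d x hx),
            q + (T k * (T r * x) + T r * (T k * x) - T r * (T (k + 1) * x)),
            add_mem hq (sub_mem (add_mem (mm k r (by omega) (by omega)) (mm r k (by omega)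
              (by omega))) (mm r (k + 1) (by omega) (by omega))), ?_⟩
          linear_combination (norm := noncomm_ring) h1 - h2 * x
      obtain ⟨y1, hy1, q1, hq1, e1⟩ := E (m - 1 - k) k (by omega) _ b hb
      obtain ⟨y2, hy2, q2, hq2, e2⟩ := E (m - 1 - k) k (by omega) _ c hc
      have hc2 := hN.C2 m k le_rfl (by omega)
      have hcube := hN.cube m le_rfl
      have k0 := ih' k hkm d a ha
      have k2 := ih' k hkm _ c hc
      refine ⟨T k * a + q1, add_mem k0 (by rwa [show d - 1 + 2 = d + 1 by ring] at hq1),
        y1 - q2, sub_mem (by rwa [show d - 1 + 1 = d + 1 - 1 by ring] at hy1)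
          (by rwa [show d - 2 + 2 = d + 1 - 1 by ring] at hq2),
        b - T k * c - y2, sub_mem (sub_mem (by rwa [show d - 1 = d + 1 - 2 by ring] at hb)
          (by rwa [show d - 2 + 1 = d + 1 - 2 by ring] at k2))
          (by rwa [show d - 2 + 1 = d + 1 - 2 by ring] at hy2), ?_⟩
      linear_combination (norm := noncomm_ring) e1 + hc2 * c - T m * e2 - hcube * c

theorem one_mem_NN : ∀ m, (1 : A) ∈ NN T m 0
  | 0 => by rw [NN, if_pos rfl]; exact Submodule.mem_span_singleton_self _
  | m + 1 => mem_NN_succ.2 ⟨1, one_mem_NN m, 0, zero_mem _, 0, zero_mem _, by simp⟩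

theorem wd_mem_NN {m : ℕ} (hN : RelN (m - 1) T) : ∀ w : List ℕ, (∀ k ∈ w, k < m) →
    wd T w ∈ NN T m w.length
  | [], _ => one_mem_NN m
  | k :: w, h => by
    rw [wd_cons, List.length_cons]
    push_cast
    exact NN_closed m hN k (h k (by simp)) _ _ (wd_mem_NN hN w fun j hj => h j (by simp [hj]))

theorem NN_right {M : ℕ} (hN : RelN (M - 1) T) {b : ℕ} (hb : b < M) : ∀ m, m ≤ M → ∀ (d : ℤ) (x : A),
    x ∈ NN T m d → x * T b ∈ NN T M (d + 1) := by
  intro m
  induction m with
  | zero =>
    intro _ d x hx
    rw [NN] at hx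
    split_ifs at hx with hd
    · subst hd
      obtain ⟨c, rfl⟩ := Submodule.mem_span_singleton.1 hx
      rw [smul_mul_assoc, one_mul]
      apply Submodule.smul_mem
      have := NN_closed M hN b hb 0 1 (one_mem_NN M)
      rwa [mul_one] at this
    · rw [Submodule.mem_bot] at hx
      rw [hx, zero_mul]
      exact zero_mem _
  | succ m ih =>
    intro hm d x hx
    obtain ⟨a, ha, b', hb', c, hc, rfl⟩ := mem_NN_succ.1 hx
    have h1 := ih (by omega) _ a ha
    have h2 := NN_closed M hN m (by omega) _ _ (ih (by omega) _ b' hb')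
    have h3 := NN_closed M hN m (by omega) _ _ (NN_closed M hN m (by omega) _ _
      (ih (by omega) _ c hc))
    rw [show d - 1 + 1 + 1 = d + 1 by ring] at h2
    rw [show d - 2 + 1 + 1 + 1 = d + 1 by ring] at h3
    have e : (a + T m * b' + T m * T m * c) * T b = a * T b + T m * (b' * T b) +
      T m * (T m * (c * T b)) := by noncomm_ring
    rw [e]
    exact add_mem (add_mem h1 h2) h3

theorem NN_zero : ∀ m : ℕ, ∀ d : ℤ, 2 * m < d → ∀ x ∈ NN T m d, x = 0 := by
  intro m
  induction m with
  | zero =>
    intro d hd x hx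
    rw [NN, if_neg (by omega)] at hx
    exact (Submodule.mem_bot ℚ).1 hx
  | succ m ih =>
    intro d hd x hx
    obtain ⟨a, ha, b, hb, c, hc, rfl⟩ := mem_NN_succ.1 hx
    push_cast at hd
    rw [ih d (by omega) a ha, ih (d - 1) (by omega) b hb, ih (d - 2) (by omega) c hc]
    simp

theorem NN_top : ∀ m : ℕ, ∀ x ∈ NN T m (2 * m), ∃ c : ℚ, x = c • om T 0 m := by
  intro m
  induction m with
  | zero =>
    intro x hx
    rw [NN, if_pos (by simp)] at hx
    obtain ⟨c, rfl⟩ := Submodule.mem_span_singleton.1 hx
    exact ⟨c, rfl⟩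
  | succ m ih =>
    intro x hx
    obtain ⟨a, ha, b, hb, c, hc, rfl⟩ := mem_NN_succ.1 hx
    push_cast at ha hb hc
    rw [show (2 : ℤ) * (m + 1) - 2 = 2 * m by ring] at hc
    obtain ⟨r, rfl⟩ := ih c hc
    rw [NN_zero m _ (by omega) a ha, NN_zero m _ (by omega) b hb]
    refine ⟨r, ?_⟩
    rw [om, mul_smul_comm, zero_add, mul_zero, zero_add, zero_add]

/-- nondegeneracy in degree `2 m - 1` -/
theorem NN_nondeg : ∀ m : ℕ, RelN (m - 1) T → om T 0 m ≠ 0 → ∀ x ∈ NN T m (2 * m - 1),
    (∀ b, b < m → x * T b = 0) → x = 0 := by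
  intro m
  induction m with
  | zero =>
    intro _ _ x hx _
    rw [NN, if_neg (by omega)] at hx
    exact (Submodule.mem_bot ℚ).1 hx
  | succ m ih =>
    intro hN h0 x hx hxb
    rw [Nat.add_sub_cancel] at hN
    obtain ⟨a, ha, b, hb, c, hc, rfl⟩ := mem_NN_succ.1 hx
    push_cast at ha hb hc
    rw [show (2 : ℤ) * (m + 1) - 1 - 1 = 2 * m by ring] at hb
    rw [show (2 : ℤ) * (m + 1) - 1 - 2 = 2 * m - 1 by ring] at hc
    obtain ⟨r, rfl⟩ := NN_top m b hb
    have ha0 := NN_zero m _ (by omega) a ha
    subst ha0
    have hc0 : c = 0 := by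
      apply ih (hN.mono (by omega)) (fun h => h0 (by rw [om, h, mul_zero])) c hc
      intro j hj
      have h1 := NN_right (hN.mono (show m - 1 ≤ m by omega)) hj m le_rfl _ c hc
      rw [sub_add_cancel] at h1
      obtain ⟨s, hs⟩ := NN_top m _ h1
      have h2 := hxb j (by omega)
      have h3 := hN.ZR (n := m) (s := 0) (k := j) (by omega) (by omega) (by omega)
      have h4 : s • om T 0 (m + 1) = 0 := by
        rw [om, ← mul_smul_comm, ← hs]
        simp only [zero_add]
        have h5 : T m * (r • om T 0 m) * T j = 0 := by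
          rw [mul_smul_comm, smul_mul_assoc, mul_assoc, h3, mul_zero, smul_zero]
        rw [add_mul, zero_add, h5, zero_add] at h2
        rw [← mul_assoc]
        exact h2
      rcases smul_eq_zero.1 h4 with h5 | h5
      · rw [hs, h5, zero_smul]
      · exact absurd h5 h0
    subst hc0
    have h2 := hxb m (by omega)
    have h3 := hN.hH (n := m) (s := 0) (by omega)
    simp only [zero_add] at h3
    rw [zero_add, mul_zero, add_zero, mul_smul_comm, smul_mul_assoc, h3] at h2
    have h6 : r • om T 0 (m + 1) = 0 := by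
      have h7 := congrArg (fun x => (-1) ^ m * x) h2
      simp only [mul_smul_comm, sgn_sq, mul_zero] at h7
      exact h7
    rcases smul_eq_zero.1 h6 with h5 | h5
    · rw [h5]; simp
    · exact absurd h5 h0

/-- the product of a run and the run without the last letter -/
theorem Rel.rn_mul_rn (h : Rel T) (n : ℕ) (h0 : om T 0 (n + 1) ≠ 0) :
    rn T 0 (n + 1) * rn T 0 n = om T 1 n * T 0 := by
  rw [← sub_eq_zero]
  have hN := h.toN n
  have m1 : rn T 0 (n + 1) * rn T 0 n ∈ NN T (n + 1) (2 * (n + 1 : ℕ) - 1) := by
    have h1 := wd_mem_NN (m := n + 1) (by rw [Nat.add_sub_cancel]; exact hN)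
      (List.range' 0 (n + 1) ++ List.range' 0 n) (by
        intro k hk
        simp only [List.mem_append, List.mem_range'_1] at hk
        omega)
    rw [wd_append, List.length_append, List.length_range', List.length_range'] at h1
    rw [rn, rn]
    convert h1 using 2
    push_cast; ring
  have m2 : om T 1 n * T 0 ∈ NN T (n + 1) (2 * (n + 1 : ℕ) - 1) := by
    have hk : ∀ n k, k ∈ omw 1 n → k < n + 1 := by
      intro n
      induction n with
      | zero => intro k hk; simp [omw] at hk
      | succ n ih =>
        intro k hk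
        simp only [omw, List.mem_cons] at hk
        rcases hk with hk | hk | hk
        · omega
        · omega
        · have := ih k hk; omega
    have h1 := wd_mem_NN (m := n + 1) (by rw [Nat.add_sub_cancel]; exact hN)
      (omw 1 n ++ [0]) (by
        intro k hk'
        rw [List.mem_append, List.mem_singleton] at hk'
        rcases hk' with hk' | hk'
        · exact hk n k hk'
        · omega)
    rw [wd_append, List.length_append, length_omw, wd_omw, wd_cons, wd_nil, mul_one] at h1
    convert h1 using 2
    simp only [List.length_cons, List.length_nil]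
    push_cast; ring
  apply NN_nondeg (n + 1) (by rw [Nat.add_sub_cancel]; exact hN) h0 _ (sub_mem m1 m2)
  intro b hb
  have h1 := GG.P n hN (rn T 0 (n + 1)) 1 (hN.GG_of_G hN.G_rn 1) b (by omega)
  have h2 := h.rn_sq n T
  have h3 := hN.LR (n := n) (s := 0) (b := b) (by omega) (by omega) (by omega)
  simp only [zero_add] at h3
  rw [sub_mul, h3]
  linear_combination (norm := noncomm_ring) h1 + h2

end alg

end Pool.Agent.R110.MT
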