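import Pool.Agent.R110.MT.Tools

/-!
# Elementary symmetric polynomials are in the kernel of the antisymmetriser functional
-/

set_option autoImplicit false

namespace Pool.Agent.R110.MT

open MvPolynomial Finset

/-- the matrix of an exponent vector -/
def mm (N : ℕ) (m : ℕ →₀ ℕ) : Matrix (Fin N) (Fin N) ℚ :=
  Matrix.of fun (i a : Fin N) => if m i = a + 0 then (1 : ℚ) else 0

/-- the shifted matrix of an exponent vector -/
def mm' (N : ℕ) (m : ℕ →₀ ℕ) : Matrix (Fin N) (Fin N) ℚ :=
  Matrix.of fun (i a : Fin N) => if m i + 1 = a + 0 then (1 : ℚ) else 0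

/-- the nilpotent shift -/
def nil (N : ℕ) : Matrix (Fin N) (Fin N) ℚ :=
  Matrix.of fun (i a : Fin N) => if (i : ℕ) + 1 = a then (1 : ℚ) else 0

theorem mm_mul_nil (N : ℕ) (m : ℕ →₀ ℕ) : mm N m * nil N = mm' N m := by
  ext i a
  rw [Matrix.mul_apply]
  simp only [mm, nil, mm', Matrix.of_apply, add_zero]
  by_cases h : m i + 1 = a
  · rw [if_pos h, Finset.sum_eq_single (⟨m i, by omega⟩ : Fin N)]
    · simp [h]
    · intro b _ hb
      rw [if_neg, zero_mul]
      intro h'
      apply hb
      ext
      exact h'.symm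
    · intro h'
      exact absurd (mem_univ _) h'
  · rw [if_neg h]
    apply Finset.sum_eq_zero
    intro b _
    by_cases h1 : m i = b
    · rw [if_neg (show ¬ ((b : ℕ) + 1 = a) from fun h2 => h (by omega)), mul_zero]
    · rw [if_neg h1, zero_mul]

theorem det_one_add_nil (N : ℕ) (t : ℚ) : (1 + t • nil N).det = 1 := by
  rw [Matrix.det_of_upperTriangular]
  · apply Finset.prod_eq_one
    intro i _
    simp [nil]
  · intro i j hij
    have hij' : (j : ℕ) < i := hij
    have h1 : i ≠ j := fun h => by rw [h] at hij'; omega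
    simp only [Matrix.add_apply, Matrix.one_apply_ne h1, Matrix.smul_apply, nil, Matrix.of_apply]
    rw [if_neg (by omega)]
    simp

/-- indicator exponent vector -/
noncomputable def ind {N : ℕ} (S : Finset (Fin N)) : ℕ →₀ ℕ := ∑ i ∈ S, Finsupp.single (i : ℕ) 1

theorem ind_apply {N : ℕ} (S : Finset (Fin N)) (i : Fin N) :
    ind S (i : ℕ) = if i ∈ S then 1 else 0 := by
  rw [ind, Finsupp.finsetSum_apply]
  simp only [Finsupp.single_apply]
  have h : ∀ x ∈ S, (if (x : ℕ) = (i : ℕ) then 1 else 0) = if x = i then 1 else 0 := by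
    intro x _
    simp only [Fin.ext_iff]
  rw [sum_congr rfl h, sum_ite_eq']

theorem mdet_sum (N : ℕ) (m : ℕ →₀ ℕ) (t : ℚ) :
    ∑ S : Finset (Fin N), t ^ #S * mdet N 0 (ind S + m) = mdet N 0 m := by
  have h0 : ∀ m, mdet N 0 m = (mm N m).det := fun m => rfl
  have h1 : (mm N m).det = (t • mm' N m + mm N m).det := by
    rw [← mm_mul_nil]
    have h2 : t • (mm N m * nil N) + mm N m = mm N m * (1 + t • nil N) := by
      rw [mul_add, mul_one, Matrix.mul_smul, add_comm]
    rw [h2, Matrix.det_mul, det_one_add_nil, mul_one]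
  rw [h0, h1]
  have h3 := (Matrix.detRowAlternating (n := Fin N) (R := ℚ)).toMultilinearMap.map_add_univ
    (fun i => t • mm' N m i) (fun i => mm N m i)
  have h4 : (t • mm' N m + mm N m).det =
      (Matrix.detRowAlternating (n := Fin N) (R := ℚ)).toMultilinearMap
        ((fun i => t • mm' N m i) + fun i => mm N m i) := rfl
  rw [h4, h3]
  refine sum_congr rfl fun S _ => ?_
  set g : Fin N → Fin N → ℚ := S.piecewise (fun i => mm' N m i) (fun i => mm N m i) with hg
  have h5 : S.piecewise (fun i => t • mm' N m i) (fun i => mm N m i) =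
      S.piecewise (fun i => (fun _ => t) i • g i) g := by
    funext i
    by_cases hi : i ∈ S
    · simp only [Finset.piecewise_eq_of_mem _ _ _ hi, hg]
    · simp only [Finset.piecewise_eq_of_notMem _ _ _ hi, hg]
  rw [h5, MultilinearMap.map_piecewise_smul, prod_const, smul_eq_mul, h0]
  congr 1
  show (mm N (ind S + m)).det = Matrix.det g
  congr 1
  ext i a
  rw [hg]
  by_cases hi : i ∈ S
  · rw [Finset.piecewise_eq_of_mem _ _ _ hi]
    simp only [mm, mm', Matrix.of_apply, Finsupp.add_apply, ind_apply, if_pos hi]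
    congr 1
    apply propext
    omega
  · rw [Finset.piecewise_eq_of_notMem _ _ _ hi]
    simp only [mm, Matrix.of_apply, Finsupp.add_apply, ind_apply, if_neg hi, zero_add]

/-- elementary symmetric polynomials -/
noncomputable def es (N r : ℕ) : PP := ∑ S ∈ powersetCard r (univ : Finset (Fin N)), ∏ q ∈ S, X (q : ℕ)

theorem prod_X (N : ℕ) (S : Finset (Fin N)) : (∏ q ∈ S, X (q : ℕ) : PP) = monomial (ind S) 1 := by
  rw [ind]
  induction S using Finset.induction_on with
  | empty => simp
  | insert a S ha ih =>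
    rw [prod_insert ha, ih, sum_insert ha, X, monomial_mul, one_mul]

theorem D_gen (N : ℕ) (t : ℚ) (h : PP) :
    ∑ S : Finset (Fin N), t ^ #S * D N 0 ((∏ q ∈ S, X (q : ℕ)) * h) = D N 0 h := by
  have e : ∑ S : Finset (Fin N), (t ^ #S) • (D N 0 ∘ₗ (LinearMap.mulLeft ℚ (∏ q ∈ S, X (q : ℕ) : PP))) =
      D N 0 := by
    apply lin_ext
    intro m
    rw [LinearMap.sum_apply]
    simp only [LinearMap.smul_apply, LinearMap.comp_apply, LinearMap.mulLeft_apply, smul_eq_mul,
      prod_X, monomial_mul, D_monomial, one_mul]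
    exact mdet_sum N m t
  have e2 := congrArg (fun f => f h) e
  simp only [LinearMap.sum_apply, LinearMap.smul_apply, LinearMap.comp_apply,
    LinearMap.mulLeft_apply, smul_eq_mul] at e2
  exact e2

theorem D_es (N r : ℕ) (hr : 1 ≤ r) (h : PP) : D N 0 (es N r * h) = 0 := by
  have e : ∀ t : ℚ, ∑ r ∈ range (N + 1), t ^ r * D N 0 (es N r * h) = D N 0 h := by
    intro t
    rw [← D_gen N t h, ← powerset_univ, Finset.sum_powerset, card_univ, Fintype.card_fin]
    refine sum_congr rfl fun r _ => ?_
    rw [es, sum_mul, map_sum, mul_sum]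
    refine sum_congr rfl fun S hS => ?_
    rw [(mem_powersetCard.1 hS).2]
  by_cases hrN : r ≤ N
  · have hp : (∑ r ∈ range (N + 1), Polynomial.C (D N 0 (es N r * h)) * Polynomial.X ^ r :
        Polynomial ℚ) = Polynomial.C (D N 0 h) := by
      apply Polynomial.funext
      intro t
      rw [Polynomial.eval_finset_sum, Polynomial.eval_C, ← e t]
      refine sum_congr rfl fun r _ => ?_
      rw [Polynomial.eval_mul, Polynomial.eval_C, Polynomial.eval_pow, Polynomial.eval_X, mul_comm]
    have hc := congrArg (fun p => Polynomial.coeff p r) hp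
    simp only [Polynomial.finset_sum_coeff, Polynomial.coeff_C_mul, Polynomial.coeff_X_pow,
      mul_ite, mul_one, mul_zero] at hc
    rw [Finset.sum_ite_eq, if_pos (mem_range.2 (by omega)), Polynomial.coeff_C,
      if_neg (by omega)] at hc
    exact hc
  · rw [es, powersetCard_eq_empty.2 (by rw [card_univ, Fintype.card_fin]; omega), sum_empty,
      zero_mul, map_zero]

theorem prod_add_es (N : ℕ) (s t : PP) :
    ∏ q : Fin N, (s + t * X (q : ℕ)) = ∑ r ∈ range (N + 1), s ^ (N - r) * t ^ r * es N r := by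
  have h1 : ∏ q : Fin N, (s + t * X (q : ℕ)) = ∏ q : Fin N, (t * X (q : ℕ) + s) :=
    prod_congr rfl fun q _ => by ring
  rw [h1, Finset.prod_add, Finset.sum_powerset, card_univ, Fintype.card_fin]
  refine sum_congr rfl fun r _ => ?_
  rw [es, mul_sum]
  refine sum_congr rfl fun S hS => ?_
  have h2 := (mem_powersetCard.1 hS).2
  rw [prod_mul_distrib, prod_const, prod_const, h2, card_sdiff_of_subset (subset_univ _), card_univ,
    Fintype.card_fin, h2]
  ring

theorem D_prod (N : ℕ) (s t h : PP) :
    D N 0 ((∏ q : Fin N, (s + t * X (q : ℕ))) * h) = D N 0 (s ^ N * h) := by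
  rw [prod_add_es, sum_mul, map_sum, sum_range_succ']
  have h1 : ∀ r ∈ range N, D N 0 (s ^ (N - (r + 1)) * t ^ (r + 1) * es N (r + 1) * h) = 0 := by
    intro r _
    have h2 : s ^ (N - (r + 1)) * t ^ (r + 1) * es N (r + 1) * h =
        es N (r + 1) * (s ^ (N - (r + 1)) * t ^ (r + 1) * h) := by ring
    rw [h2, D_es N (r + 1) (by omega)]
  rw [sum_eq_zero h1, zero_add]
  congr 1
  have h3 : es N 0 = 1 := by simp [es]
  rw [h3]
  simp

end Pool.Agent.R110.MT
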