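import Pool.Agent.R110.MT.Mod

/-!
# The Laplace rule
-/

set_option autoImplicit false

namespace Pool.Agent.R110.MT

open MvPolynomial Finset

theorem wd_sh_TT (w : List ℕ) (f : MM) (u : List ℕ) :
    (wd (sh TT) w f : List ℕ → ℚ) u = (f : List ℕ → ℚ) (u ++ w.map (· + 1)) := by
  have h : wd (sh TT) w = wd TT (w.map (· + 1)) := by
    simp only [wd, List.map_map]
    rfl
  rw [h, wd_TT]

theorem Th_TT (w : List ℕ) (f : MM) (u : List ℕ) : (Th TT w f : List ℕ → ℚ) u =
    ∑ i ∈ range w.length, (-1) ^ i *
      (f : List ℕ → ℚ) (u ++ (w.take i ++ (w.drop (i + 1)).map (· + 1))) := by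
  induction w generalizing u with
  | nil => simp [Th]
  | cons k w ih =>
    rw [Th, LinearMap.sub_apply, Submodule.coe_sub, Pi.sub_apply, Module.End.mul_apply, TT_apply,
      ih, wd_sh_TT, List.length_cons, sum_range_succ']
    simp only [List.take_zero, List.drop_succ_cons, List.drop_zero, List.nil_append, pow_zero,
      one_mul, List.take_succ_cons, List.cons_append, List.append_assoc]
    rw [sub_eq_add_neg, add_comm]
    congr 1
    rw [← sum_neg_distrib]
    refine sum_congr rfl fun i _ => ?_
    rw [pow_succ]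
    ring

theorem rho_X (i s : ℕ) : rho i (X s) = if s = i then 0 else if s < i then X s else X (s - 1) := by
  rw [rho, aeval_X]

theorem rho_E_lt (i : ℕ) : ∀ (s : ℕ) (u : List ℕ), s + u.length ≤ i → rho i (E s u) = E s u
  | _, [], _ => by simp [E]
  | s, k :: u, h => by
    simp only [List.length_cons] at h
    simp only [E, map_mul, map_pow, map_add, map_one, rho_X]
    rw [if_neg (by omega), if_pos (by omega), rho_E_lt i (s + 1) u (by omega)]

theorem rho_E_gt (i : ℕ) : ∀ (s : ℕ) (u : List ℕ), i ≤ s → rho i (E (s + 1) u) = E s u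
  | _, [], _ => by simp [E]
  | s, k :: u, h => by
    simp only [E, map_mul, map_pow, map_add, map_one, rho_X]
    rw [if_neg (by omega), if_neg (by omega), rho_E_gt i (s + 1) u (by omega), Nat.add_sub_cancel]

theorem rho_E (i : ℕ) (u v : List ℕ) (k : ℕ) (h : u.length = i) :
    rho i (E 0 (u ++ k :: v)) = E 0 u * E i v := by
  rw [E_append, map_mul, rho_E_lt i 0 u (by omega)]
  simp only [E, map_mul, map_pow, map_add, map_one, rho_X]
  rw [if_pos (by omega), add_zero, one_pow, one_mul]
  congr 1
  rw [zero_add, h, rho_E_gt i i v le_rfl]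

theorem Q_succ (n : ℕ) : Q (n + 1) = Q n * ∏ p ∈ range n, pf p n := by
  rw [Q, Q]
  have h : prs (n + 1) = prs n ∪ (range n).image (fun p => (p, n)) := by
    ext ⟨i, j⟩
    simp only [mem_prs, mem_union, mem_image, mem_range, Prod.mk.injEq]
    constructor
    · rintro ⟨h1, h2⟩
      by_cases h3 : j = n
      · right; exact ⟨i, by omega, rfl, h3.symm⟩
      · left; omega
    · rintro (h1 | ⟨a, h1, h2, h3⟩) <;> omega
  rw [h, prod_union, prod_image]
  · intro a _ b _ hab
    exact (Prod.mk.inj hab).1
  · rw [Finset.disjoint_left]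
    rintro ⟨i, j⟩ h1 h2
    simp only [mem_prs, mem_image, mem_range, Prod.mk.injEq] at h1 h2
    obtain ⟨a, h2, h3, h4⟩ := h2
    omega

theorem rho_pf (i p q : ℕ) (hpq : p < q) : rho i (pf p q) =
    if q < i then pf p q else if q = i then 1 else if p < i then pf p (q - 1) else
      if p = i then 1 + X (q - 1) else pf (p - 1) (q - 1) := by
  simp only [pf, map_add, map_mul, map_one, rho_X]
  split_ifs <;> first | omega | simp

theorem rho_Q_le (i : ℕ) : ∀ m, m ≤ i → rho i (Q m) = Q m
  | 0, _ => by simp [Q, prs]
  | m + 1, h => by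
    rw [Q_succ, map_mul, rho_Q_le i m (by omega), map_prod]
    congr 1
    refine prod_congr rfl fun p hp => ?_
    rw [mem_range] at hp
    rw [rho_pf _ _ _ hp, if_pos (by omega)]

theorem rho_Q (i : ℕ) : ∀ r, rho i (Q (i + 1 + r)) = Q (i + r) * ∏ q ∈ range r, (1 + X (i + q))
  | 0 => by
    simp only [add_zero, range_zero, prod_empty, mul_one]
    rw [Q_succ, map_mul, rho_Q_le i i le_rfl, map_prod, prod_congr rfl (g := fun _ => (1 : PP)),
      prod_const_one, mul_one]
    intro p hp
    rw [mem_range] at hp
    rw [rho_pf _ _ _ hp, if_neg (by omega), if_pos rfl]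
  | r + 1 => by
    rw [← add_assoc, Q_succ, map_mul, rho_Q i r, ← add_assoc, Q_succ (i + r), prod_range_succ,
      map_prod, prod_range_add, prod_range_add (fun p => pf p (i + r)) i r, prod_range_succ]
    have h1 : ∀ p ∈ range i, rho i (pf p (i + 1 + r)) = pf p (i + r) := by
      intro p hp
      rw [mem_range] at hp
      rw [rho_pf _ _ _ (by omega), if_neg (by omega), if_neg (by omega), if_pos hp]
      congr 1
      omega
    have h2 : rho i (pf i (i + 1 + r)) = 1 + X (i + r) := by
      rw [rho_pf _ _ _ (by omega), if_neg (by omega), if_neg (by omega), if_neg (by omega),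
        if_pos rfl]
      congr 2
      omega
    have h3 : ∀ q ∈ range r, rho i (pf (i + 1 + q) (i + 1 + r)) = pf (i + q) (i + r) := by
      intro q hq
      rw [mem_range] at hq
      rw [rho_pf _ _ _ (by omega), if_neg (by omega), if_neg (by omega), if_neg (by omega),
        if_neg (by omega)]
      congr 1 <;> omega
    rw [prod_congr rfl h1, h2, prod_congr rfl h3]
    ring

theorem E_map_succ (s : ℕ) (v : List ℕ) :
    E s (v.map (· + 1)) = E s v * ∏ q ∈ range v.length, (1 + X (s + q)) := by
  induction v generalizing s with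
  | nil => simp [E]
  | cons k v ih =>
    rw [List.map_cons, E, E, ih, List.length_cons, prod_range_succ']
    have h : ∀ i, (1 + X (s + 1 + i) : PP) = 1 + X (s + (i + 1)) := fun i => by
      congr 2; ring
    rw [prod_congr rfl fun i _ => h i]
    simp only [add_zero]
    ring

/-- the Laplace rule -/
theorem laplace (w : List ℕ) (hw : w ≠ []) : (Th TT w (Al 1) : List ℕ → ℚ) [] = al 0 w := by
  obtain ⟨n, hn⟩ : ∃ n, w.length = n + 1 :=
    ⟨w.length - 1, by have := List.length_pos_iff.2 hw; omega⟩
  rw [Th_TT, al, hn, D_laplace]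
  refine sum_congr rfl fun i hi => ?_
  rw [mem_range] at hi
  congr 1
  have hw2 : w = w.take i ++ w[i] :: w.drop (i + 1) := by
    rw [← List.drop_eq_getElem_cons, List.take_append_drop]
  set u := w.take i with hu
  set v := w.drop (i + 1) with hv
  have hul : u.length = i := by rw [hu, List.length_take]; omega
  have hvl : v.length = n - i := by rw [hv, List.length_drop]; omega
  have hlen : (u ++ v.map (· + 1)).length = n := by
    rw [List.length_append, List.length_map, hul, hvl]; omega
  obtain ⟨r, hr⟩ : ∃ r, n = i + r := ⟨n - i, by omega⟩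
  have hvr : v.length = r := by omega
  rw [List.nil_append]
  change al 1 _ = _
  have e : rho i (E 0 w * Q (n + 1)) = E 0 (u ++ v.map (· + 1)) * Q n := by
    have e1 : rho i (E 0 w) = E 0 u * E i v := by
      conv_lhs => rw [hw2]
      exact rho_E i u v _ hul
    rw [map_mul, e1, hr, show i + r + 1 = i + 1 + r by ring, rho_Q, E_append, E_map_succ,
      zero_add, hul, hvr]
    ring
  rw [al, hlen, e]

end Pool.Agent.R110.MT
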