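import Pool.Agent.R110.MT.Op

/-!
# The relations of the word functionals and the operators of letters
-/

set_option autoImplicit false

namespace Pool.Agent.R110.MT

open MvPolynomial Finset

theorem al_two (j : ℕ) (u v : List ℕ) (a b : ℕ) : al j (u ++ a :: b :: v) =
    D (u.length + v.length + 2) j (E 0 u * ((1 + X u.length) ^ a * (1 + X (u.length + 1)) ^ b) *
      E (u.length + 2) v * Q (u.length + v.length + 2)) := by
  have h : (u ++ a :: b :: v).length = u.length + v.length + 2 := by simp; ring
  rw [al, h, E_append]
  simp only [E, zero_add]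
  congr 1
  ring_nf

theorem al_three (j : ℕ) (u v : List ℕ) (a b c : ℕ) : al j (u ++ a :: b :: c :: v) =
    D (u.length + v.length + 3) j (E 0 u * ((1 + X u.length) ^ a * (1 + X (u.length + 1)) ^ b *
      (1 + X (u.length + 2)) ^ c) * E (u.length + 3) v * Q (u.length + v.length + 3)) := by
  have h : (u ++ a :: b :: c :: v).length = u.length + v.length + 3 := by simp; ring
  rw [al, h, E_append]
  simp only [E, zero_add]
  congr 1
  ring_nf

theorem al_V (j : ℕ) (u v : List ℕ) (a b : ℕ) :
    al j (u ++ a :: b :: v) - al j (u ++ a :: (b + 1) :: v) + al j (u ++ (a + 1) :: (b + 1) :: v) +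
    al j (u ++ b :: a :: v) - al j (u ++ b :: (a + 1) :: v) +
    al j (u ++ (b + 1) :: (a + 1) :: v) = 0 := by
  simp only [al_two]
  rw [← map_sub, ← map_add, ← map_add, ← map_sub, ← map_add]
  have h := two_zero j u v ((1 - (1 + X (u.length + 1)) + (1 + X u.length) * (1 + X (u.length + 1))) *
    ((1 + X u.length) ^ a * (1 + X (u.length + 1)) ^ b +
      (1 + X u.length) ^ b * (1 + X (u.length + 1)) ^ a)) (n := u.length + v.length + 2) rfl (by
      simp only [map_mul, map_add, map_sub, map_one, map_pow, rename_X, rename_pf,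
        Equiv.swap_apply_left, Equiv.swap_apply_right]
      simp only [pf]
      ring)
  rw [← h]
  congr 1
  ring

theorem al_C (j : ℕ) (u v : List ℕ) (a b c : ℕ) :
    al j (u ++ a :: b :: c :: v) + al j (u ++ a :: c :: b :: v) + al j (u ++ b :: a :: c :: v) +
    al j (u ++ b :: c :: a :: v) + al j (u ++ c :: a :: b :: v) +
    al j (u ++ c :: b :: a :: v) = 0 := by
  simp only [al_three]
  simp only [← map_add]
  have h := three_zero j u v (
    (1 + X u.length) ^ a * (1 + X (u.length + 1)) ^ b * (1 + X (u.length + 2)) ^ c +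
    (1 + X u.length) ^ a * (1 + X (u.length + 1)) ^ c * (1 + X (u.length + 2)) ^ b +
    (1 + X u.length) ^ b * (1 + X (u.length + 1)) ^ a * (1 + X (u.length + 2)) ^ c +
    (1 + X u.length) ^ b * (1 + X (u.length + 1)) ^ c * (1 + X (u.length + 2)) ^ a +
    (1 + X u.length) ^ c * (1 + X (u.length + 1)) ^ a * (1 + X (u.length + 2)) ^ b +
    (1 + X u.length) ^ c * (1 + X (u.length + 1)) ^ b * (1 + X (u.length + 2)) ^ a)
    (n := u.length + v.length + 3) rfl (by
      have e : Equiv.swap u.length (u.length + 1) (u.length + 2) = u.length + 2 :=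
        Equiv.swap_apply_of_ne_of_ne (by omega) (by omega)
      simp only [map_mul, map_add, map_one, map_pow, rename_X,
        Equiv.swap_apply_left, Equiv.swap_apply_right, e]
      ring) (by
      have e : Equiv.swap (u.length + 1) (u.length + 2) u.length = u.length :=
        Equiv.swap_apply_of_ne_of_ne (by omega) (by omega)
      have e' : u.length + 1 + 1 = u.length + 2 := rfl
      simp only [e', map_mul, map_add, map_one, map_pow, rename_X,
        Equiv.swap_apply_left, Equiv.swap_apply_right, e]
      ring)
  rw [← h]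
  congr 1
  ring

/-- functionals on words with all relations -/
def MM : Submodule ℚ (List ℕ → ℚ) where
  carrier := {f | (∀ u v a b, f (u ++ a :: b :: v) - f (u ++ a :: (b + 1) :: v) +
      f (u ++ (a + 1) :: (b + 1) :: v) + f (u ++ b :: a :: v) - f (u ++ b :: (a + 1) :: v) +
      f (u ++ (b + 1) :: (a + 1) :: v) = 0) ∧
    ∀ u v a b c, f (u ++ a :: b :: c :: v) + f (u ++ a :: c :: b :: v) + f (u ++ b :: a :: c :: v) +
      f (u ++ b :: c :: a :: v) + f (u ++ c :: a :: b :: v) + f (u ++ c :: b :: a :: v) = 0}
  add_mem' := by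
    intro f g hf hg
    refine ⟨fun u v a b => ?_, fun u v a b c => ?_⟩
    · have h1 := hf.1 u v a b
      have h2 := hg.1 u v a b
      simp only [Pi.add_apply]
      linarith
    · have h1 := hf.2 u v a b c
      have h2 := hg.2 u v a b c
      simp only [Pi.add_apply]
      linarith
  zero_mem' := ⟨fun u v a b => by simp, fun u v a b c => by simp⟩
  smul_mem' := by
    intro r f hf
    refine ⟨fun u v a b => ?_, fun u v a b c => ?_⟩
    · have h1 := hf.1 u v a b
      simp only [Pi.smul_apply, smul_eq_mul]
      linear_combination r * h1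
    · have h1 := hf.2 u v a b c
      simp only [Pi.smul_apply, smul_eq_mul]
      linear_combination r * h1

/-- the operator of a letter -/
def TT (k : ℕ) : Module.End ℚ MM where
  toFun f := ⟨fun w => (f : List ℕ → ℚ) (w ++ [k]), by
    obtain ⟨f, hf⟩ := f
    refine ⟨fun u v a b => ?_, fun u v a b c => ?_⟩
    · have := hf.1 u (v ++ [k]) a b
      simpa only [List.append_assoc, List.cons_append] using this
    · have := hf.2 u (v ++ [k]) a b c
      simpa only [List.append_assoc, List.cons_append] using this⟩
  map_add' f g := by ext; rfl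
  map_smul' r f := by ext; rfl

theorem TT_apply (k : ℕ) (f : MM) (w : List ℕ) :
    (TT k f : List ℕ → ℚ) w = (f : List ℕ → ℚ) (w ++ [k]) := rfl

/-- the relations of letters in a ring -/
structure Rel {A : Type*} [Ring A] (T : ℕ → A) : Prop where
  V : ∀ a b, T a * T b - T a * T (b + 1) + T (a + 1) * T (b + 1) + T b * T a - T b * T (a + 1) +
    T (b + 1) * T (a + 1) = 0
  C : ∀ a b c, T a * T b * T c + T a * T c * T b + T b * T a * T c + T b * T c * T a +
    T c * T a * T b + T c * T b * T a = 0

theorem rel_TT : Rel TT where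
  V a b := by
    ext f w
    have h := f.2.1 w [] a b
    simp only [LinearMap.sub_apply, LinearMap.add_apply, Module.End.mul_apply, LinearMap.zero_apply,
      Submodule.coe_sub, Submodule.coe_add, Submodule.coe_zero, Pi.sub_apply, Pi.add_apply,
      Pi.zero_apply, TT_apply, List.append_assoc, List.cons_append, List.nil_append]
    exact h
  C a b c := by
    ext f w
    have h := f.2.2 w [] a b c
    simp only [LinearMap.add_apply, Module.End.mul_apply, LinearMap.zero_apply,
      Submodule.coe_add, Submodule.coe_zero, Pi.add_apply,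
      Pi.zero_apply, TT_apply, List.append_assoc, List.cons_append, List.nil_append]
    exact h

/-- the functional `al j` as an element of the module -/
noncomputable def Al (j : ℕ) : MM := ⟨al j, al_V j, al_C j⟩

section words

variable {A : Type*} [Ring A]

/-- value of a word -/
def wd (T : ℕ → A) (w : List ℕ) : A := (w.map T).prod

@[simp] theorem wd_nil (T : ℕ → A) : wd T [] = 1 := rfl
@[simp] theorem wd_cons (T : ℕ → A) (k : ℕ) (w : List ℕ) : wd T (k :: w) = T k * wd T w := by
  simp [wd]
theorem wd_append (T : ℕ → A) (u w : List ℕ) : wd T (u ++ w) = wd T u * wd T w := by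
  simp [wd]

/-- shifted letters -/
def sh (T : ℕ → A) (k : ℕ) : A := T (k + 1)

/-- difference letters -/
def ps (T : ℕ → A) (k : ℕ) : A := T (k + 1) - T k

/-- the Laplace operator of a word -/
def Th (T : ℕ → A) : List ℕ → A
  | [] => 0
  | k :: w => wd (sh T) w - T k * Th T w

end words

theorem wd_TT (w : List ℕ) (f : MM) (u : List ℕ) :
    (wd TT w f : List ℕ → ℚ) u = (f : List ℕ → ℚ) (u ++ w) := by
  induction w generalizing u with
  | nil => simp
  | cons k w ih =>
    rw [wd_cons, Module.End.mul_apply, TT_apply, ih]
    simp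

theorem wd_TT_Al (j : ℕ) (w : List ℕ) : (wd TT w (Al j) : List ℕ → ℚ) [] = al j w := by
  rw [wd_TT]; rfl

/-- shifted products -/
noncomputable def E' : ℕ → List ℕ → PP
  | _, [] => 1
  | s, k :: w => X s * (1 + X s) ^ k * E' (s + 1) w

theorem wd_ps_aux (j : ℕ) (w u : List ℕ) : (wd (ps TT) w (Al j) : List ℕ → ℚ) u =
    D (u.length + w.length) j (E 0 u * E' u.length w * Q (u.length + w.length)) := by
  induction w generalizing u with
  | nil => simp [Al, al, E']
  | cons k w ih =>
    rw [wd_cons, Module.End.mul_apply, ps, LinearMap.sub_apply, Submodule.coe_sub, Pi.sub_apply,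
      TT_apply, TT_apply, ih, ih]
    have h1 : ∀ m : ℕ, (u ++ [m]).length + w.length = u.length + (k :: w).length := by
      intro m; simp; ring
    rw [h1, h1, ← map_sub]
    congr 1
    simp only [E_append, E, E', List.length_append, List.length_cons, List.length_nil, zero_add]
    ring

theorem E'_eq (s : ℕ) (w : List ℕ) : E' s w = (∏ i ∈ range w.length, X (s + i)) * E s w := by
  induction w generalizing s with
  | nil => simp [E, E']
  | cons k w ih =>
    rw [E', E, ih, List.length_cons, prod_range_succ']
    have h : ∀ i, (X (s + 1 + i) : PP) = X (s + (i + 1)) := fun i => by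
      congr 1; ring
    rw [prod_congr rfl fun i _ => h i]
    simp only [add_zero]
    ring

/-- the shift rule -/
theorem wd_ps (j : ℕ) (w : List ℕ) : (wd (ps TT) w (Al (j + 1)) : List ℕ → ℚ) [] = al j w := by
  rw [wd_ps_aux, E'_eq, al, ← D_shift w.length j (E 0 w * Q w.length)]
  simp only [List.length_nil, zero_add, E, one_mul, allX]
  congr 1
  ring

end Pool.Agent.R110.MT
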