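import Pool.Agent.R110.MT.Fun

/-!
# The generating function of a word, relations, shift rule and Laplace rule
-/

set_option autoImplicit false

namespace Pool.Agent.R110.MT

open MvPolynomial Finset

/-- pair factor -/
noncomputable def pf (p q : ℕ) : PP := 1 + X q + X p * X q

/-- letter product of a word starting at position `s` -/
noncomputable def E : ℕ → List ℕ → PP
  | _, [] => 1
  | s, k :: w => (1 + X s) ^ k * E (s + 1) w

theorem E_append (s : ℕ) (u v : List ℕ) : E s (u ++ v) = E s u * E (s + u.length) v := by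
  induction u generalizing s with
  | nil => simp [E]
  | cons k u ih =>
    simp only [List.cons_append, E, List.length_cons]
    rw [ih, mul_assoc]
    congr 3
    ring

/-- pairs of positions -/
def prs (n : ℕ) : Finset (ℕ × ℕ) := (range n ×ˢ range n).filter fun x => x.1 < x.2

theorem mem_prs {n : ℕ} {x : ℕ × ℕ} : x ∈ prs n ↔ x.1 < x.2 ∧ x.2 < n := by
  simp only [prs, mem_filter, mem_product, mem_range]
  constructor
  · rintro ⟨⟨h1, h2⟩, h3⟩; exact ⟨h3, h2⟩
  · rintro ⟨h1, h2⟩; exact ⟨⟨h1.trans h2, h2⟩, h1⟩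

/-- product over all pairs -/
noncomputable def Q (n : ℕ) : PP := ∏ x ∈ prs n, pf x.1 x.2

/-- product over all pairs not inside the block -/
noncomputable def Qo (n p m : ℕ) : PP :=
  ∏ x ∈ (prs n).filter (fun x => ¬ (p ≤ x.1 ∧ x.2 < p + m)), pf x.1 x.2

theorem Q_split (n p m : ℕ) : Q n = Qo n p m *
    ∏ x ∈ (prs n).filter (fun x => p ≤ x.1 ∧ x.2 < p + m), pf x.1 x.2 := by
  rw [Q, Qo, mul_comm, prod_filter_mul_prod_filter_not]

theorem rename_pf (f : ℕ → ℕ) (p q : ℕ) : rename f (pf p q) = pf (f p) (f q) := by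
  simp [pf]

theorem rename_Qo {n p m s : ℕ} (h1 : p ≤ s) (h2 : s + 1 < p + m) (h3 : p + m ≤ n) :
    rename (Equiv.swap s (s + 1)) (Qo n p m) = Qo n p m := by
  rw [Qo, map_prod]
  simp only [rename_pf]
  have key : ∀ x : ℕ × ℕ, x ∈ (prs n).filter (fun x => ¬ (p ≤ x.1 ∧ x.2 < p + m)) →
      (Equiv.swap s (s + 1) x.1, Equiv.swap s (s + 1) x.2) ∈
        (prs n).filter (fun x => ¬ (p ≤ x.1 ∧ x.2 < p + m)) := by
    rintro ⟨i, j⟩ hx
    simp only [mem_filter, mem_prs, Equiv.swap_apply_def] at hx ⊢
    split_ifs <;> omega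
  refine Finset.prod_bij' (fun x _ => (Equiv.swap s (s + 1) x.1, Equiv.swap s (s + 1) x.2))
    (fun x _ => (Equiv.swap s (s + 1) x.1, Equiv.swap s (s + 1) x.2)) key key ?_ ?_ ?_
  · rintro ⟨i, j⟩ _; simp
  · rintro ⟨i, j⟩ _; simp
  · rintro ⟨i, j⟩ _; rfl

theorem rename_E {f : ℕ → ℕ} : ∀ (s : ℕ) (u : List ℕ), (∀ i, s ≤ i → i < s + u.length → f i = i) →
    rename f (E s u) = E s u
  | _, [], _ => by simp [E]
  | s, k :: u, h => by
    simp only [E, map_mul, map_pow, map_add, map_one, rename_X]
    rw [h s le_rfl (by simp), rename_E (s + 1) u fun i h1 h2 => h i (by omega) (by simp; omega)]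

/-- the values -/
noncomputable def al (j : ℕ) (w : List ℕ) : ℚ := D w.length j (E 0 w * Q w.length)

section relations

/-- value of the functional on a polynomial `F` in two adjacent positions -/
theorem two_zero (j : ℕ) (u v : List ℕ) (F : PP) {n : ℕ} (hn : n = u.length + v.length + 2)
    (hF : rename (Equiv.swap u.length (u.length + 1)) (F * pf u.length (u.length + 1)) =
      F * pf u.length (u.length + 1)) :
    D n j (E 0 u * F * E (u.length + 2) v * Q n) = 0 := by
  set p := u.length with hp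
  have hQ : Q n = Qo n p 2 * pf p (p + 1) := by
    rw [Q_split n p 2]
    congr 1
    have : (prs n).filter (fun x => p ≤ x.1 ∧ x.2 < p + 2) = {(p, p + 1)} := by
      ext ⟨i, k⟩
      simp only [mem_filter, mem_prs, mem_singleton, Prod.mk.injEq]
      omega
    rw [this, prod_singleton]
  apply D_eq_zero n j (p := p) (q := p + 1) (by omega) (by omega) (by omega)
  have e : E 0 u * F * E (p + 2) v * Q n = E 0 u * E (p + 2) v * Qo n p 2 * (F * pf p (p + 1)) := by
    rw [hQ]; ring
  rw [e]
  simp only [map_mul]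
  rw [map_mul] at hF
  rw [rename_E, rename_E, rename_Qo (by omega) (by omega) (by omega), hF]
  · intro i h1 h2
    rw [Equiv.swap_apply_of_ne_of_ne] <;> omega
  · intro i h1 h2
    rw [Equiv.swap_apply_of_ne_of_ne] <;> omega

theorem three_zero (j : ℕ) (u v : List ℕ) (S : PP) {n : ℕ} (hn : n = u.length + v.length + 3)
    (h1 : rename (Equiv.swap u.length (u.length + 1)) S = S)
    (h2 : rename (Equiv.swap (u.length + 1) (u.length + 1 + 1)) S = S) :
    D n j (E 0 u * S * E (u.length + 3) v * Q n) = 0 := by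
  set p := u.length with hp
  have hQ : Q n = Qo n p 3 * (pf p (p + 1) * pf p (p + 2) * pf (p + 1) (p + 2)) := by
    rw [Q_split n p 3]
    congr 1
    have : (prs n).filter (fun x => p ≤ x.1 ∧ x.2 < p + 3) =
        {(p, p + 1), (p, p + 2), (p + 1, p + 2)} := by
      ext ⟨i, k⟩
      simp only [mem_filter, mem_prs, mem_singleton, mem_insert, Prod.mk.injEq]
      omega
    rw [this, prod_insert, prod_insert, prod_singleton]
    · ring
    · simp
    · simp
  set R : PP := E 0 u * E (p + 3) v * Qo n p 3 * S with hR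
  have r1 : rename (Equiv.swap p (p + 1)) R = R := by
    rw [hR]
    simp only [map_mul]
    rw [rename_E, rename_E, rename_Qo (by omega) (by omega) (by omega), h1]
    · intro i h1 h2
      rw [Equiv.swap_apply_of_ne_of_ne] <;> omega
    · intro i h1 h2
      rw [Equiv.swap_apply_of_ne_of_ne] <;> omega
  have r2 : rename (Equiv.swap (p + 1) (p + 1 + 1)) R = R := by
    rw [hR]
    simp only [map_mul]
    rw [rename_E, rename_E, rename_Qo (by omega) (by omega) (by omega), h2]
    · intro i h1 h2
      rw [Equiv.swap_apply_of_ne_of_ne] <;> omega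
    · intro i h1 h2
      rw [Equiv.swap_apply_of_ne_of_ne] <;> omega
  -- the antisymmetrisation
  have t1 : ∀ g : PP, D n j (R * rename (Equiv.swap p (p + 1)) g) = - D n j (R * g) := by
    intro g
    rw [← D_swap n j (p := p) (q := p + 1) (by omega) (by omega) (by omega)]
    congr 1
    rw [map_mul, r1]
  have t2 : ∀ g : PP, D n j (R * rename (Equiv.swap (p + 1) (p + 1 + 1)) g) = - D n j (R * g) := by
    intro g
    rw [← D_swap n j (p := p + 1) (q := p + 1 + 1) (by omega) (by omega) (by omega)]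
    congr 1
    rw [map_mul, r2]
  have sp : Equiv.swap p (p + 1) p = p + 1 := Equiv.swap_apply_left _ _
  have sq : Equiv.swap p (p + 1) (p + 1) = p := Equiv.swap_apply_right _ _
  have sr : Equiv.swap p (p + 1) (p + 2) = p + 2 :=
    Equiv.swap_apply_of_ne_of_ne (by omega) (by omega)
  have up : Equiv.swap (p + 1) (p + 1 + 1) p = p := Equiv.swap_apply_of_ne_of_ne (by omega) (by omega)
  have uq : Equiv.swap (p + 1) (p + 1 + 1) (p + 1) = p + 2 := Equiv.swap_apply_left _ _
  have ur : Equiv.swap (p + 1) (p + 1 + 1) (p + 2) = p + 1 := Equiv.swap_apply_right _ _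
  set F : ℕ → ℕ → ℕ → PP := fun a b c => pf a b * pf a c * pf b c with hF
  have rF : ∀ (f : ℕ → ℕ) a b c, rename f (F a b c) = F (f a) (f b) (f c) := by
    intro f a b c
    simp only [hF, map_mul, rename_pf]
  have e1 := t1 (F p (p + 1) (p + 2))
  rw [rF, sp, sq, sr] at e1
  have e2 := t2 (F p (p + 1) (p + 2))
  rw [rF, up, uq, ur] at e2
  have e3 := t1 (F p (p + 2) (p + 1))
  rw [rF, sp, sq, sr, e2] at e3
  have e4 := t2 (F (p + 1) p (p + 2))
  rw [rF, up, uq, ur, e1] at e4
  have e5 := t1 (F (p + 2) p (p + 1))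
  rw [rF, sp, sq, sr, e4] at e5
  have key : R * F p (p + 1) (p + 2) - R * F (p + 1) p (p + 2) - R * F p (p + 2) (p + 1) +
      R * F (p + 1) (p + 2) p + R * F (p + 2) p (p + 1) - R * F (p + 2) (p + 1) p = 0 := by
    simp only [hF, pf]
    ring
  have key2 := congrArg (D n j) key
  rw [map_sub, map_add, map_add, map_sub, map_sub, map_zero, e1, e2, e3, e4, e5] at key2
  have e : E 0 u * S * E (p + 3) v * Q n = R * F p (p + 1) (p + 2) := by
    rw [hQ, hR, hF]
    ring
  rw [e]
  linarith

end relations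

end Pool.Agent.R110.MT
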