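import Pool.Agent.R110.MT.Cnt

/-!
# Polynomiality, uniqueness and the values of the monotone triangle polynomial
-/

set_option autoImplicit false

namespace Pool.Agent.R110.MT

open MvPolynomial Finset

theorem D_X_pow (n j s m : ℕ) (hs : s < n) (hm : n + j ≤ m) (h : PP) :
    D n j (X s ^ m * h) = 0 := by
  have e : (D n j) ∘ₗ (LinearMap.mulLeft ℚ (X s ^ m : PP)) = 0 := by
    apply lin_ext
    intro μ
    simp only [LinearMap.comp_apply, LinearMap.mulLeft_apply, X_pow_eq_monomial, monomial_mul,
      D_monomial, one_mul, LinearMap.zero_apply]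
    rw [mdet]
    apply Matrix.det_eq_zero_of_row_eq_zero (⟨s, hs⟩ : Fin n)
    intro a
    simp only [Matrix.of_apply, Finsupp.add_apply, Finsupp.single_eq_same]
    rw [if_neg]
    have := a.2
    omega
  exact congrArg (fun f => f h) e

theorem D_one_add (n j s k : ℕ) (hs : s < n) (h : PP) : D n j ((1 + X s) ^ k * h) =
    ∑ m ∈ range (n + j), (k.choose m : ℚ) * D n j (X s ^ m * h) := by
  have h1 : ((1 + X s) ^ k : PP) = ∑ m ∈ range (k + 1), (k.choose m : ℚ) • (X s ^ m : PP) := by
    rw [add_comm, add_pow]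
    refine sum_congr rfl fun m _ => ?_
    rw [one_pow, mul_one, Algebra.smul_def, mul_comm]
    simp
  have h2 : D n j ((1 + X s) ^ k * h) =
      ∑ m ∈ range (k + 1), (k.choose m : ℚ) * D n j (X s ^ m * h) := by
    rw [h1, sum_mul, map_sum]
    refine sum_congr rfl fun m _ => ?_
    rw [smul_mul_assoc, map_smul, smul_eq_mul]
  have h3 : ∑ m ∈ range (k + 1), (k.choose m : ℚ) * D n j (X s ^ m * h) =
      ∑ m ∈ range (k + 1 + (n + j)), (k.choose m : ℚ) * D n j (X s ^ m * h) := by
    apply sum_subset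
    · intro x hx
      rw [mem_range] at hx ⊢
      omega
    · intro x _ hx
      rw [mem_range] at hx
      rw [Nat.choose_eq_zero_of_lt (by omega)]
      simp
  have h4 : ∑ m ∈ range (n + j), (k.choose m : ℚ) * D n j (X s ^ m * h) =
      ∑ m ∈ range (k + 1 + (n + j)), (k.choose m : ℚ) * D n j (X s ^ m * h) := by
    apply sum_subset
    · intro x hx
      rw [mem_range] at hx ⊢
      omega
    · intro x _ hx
      rw [mem_range] at hx
      rw [D_X_pow n j s x hs (by omega), mul_zero]
  rw [h2, h3, h4]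

/-- binomial polynomial -/
noncomputable def bp {σ : Type} (i : σ) (m : ℕ) : MvPolynomial σ ℚ :=
  C ((m.factorial : ℚ)⁻¹) * Polynomial.aeval (X i) (descPochhammer ℚ m)

theorem eval_bp {σ : Type} (i : σ) (m : ℕ) (x : σ → ℚ) (k : ℕ) (hk : x i = k) :
    eval x (bp i m) = (k.choose m : ℚ) := by
  rw [bp, map_mul, eval_C]
  have h1 : eval x (Polynomial.aeval (X i : MvPolynomial σ ℚ) (descPochhammer ℚ m)) =
      (descPochhammer ℚ m).eval (k : ℚ) := by
    rw [← hk]
    have h2 := Polynomial.hom_eval₂ (descPochhammer ℚ m) (algebraMap ℚ (MvPolynomial σ ℚ))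
      (eval x) (X i)
    rw [Polynomial.aeval_def, h2, eval_X]
    have h3 : (eval x).comp (algebraMap ℚ (MvPolynomial σ ℚ)) = RingHom.id ℚ :=
      Subsingleton.elim _ _
    rw [h3]
    exact (Polynomial.eval₂_id)
  rw [h1, descPochhammer_eval_eq_descFactorial, Nat.descFactorial_eq_factorial_mul_choose]
  push_cast
  rw [inv_mul_cancel_left₀]
  exact_mod_cast m.factorial_ne_zero

theorem poly_aux (n j : ℕ) : ∀ (r s : ℕ), s + r ≤ n → ∀ g : PP,
    ∃ P : MvPolynomial (Fin r) ℚ, ∀ w : Fin r → ℕ,
      D n j (E s (List.ofFn w) * g) = eval (fun i => (w i : ℚ)) P := by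
  intro r
  induction r with
  | zero =>
    intro s _ g
    exact ⟨C (D n j g), fun w => by simp [E]⟩
  | succ r ih =>
    intro s hs g
    choose P hP using fun m : ℕ => ih (s + 1) (by omega) (X s ^ m * g)
    refine ⟨∑ m ∈ range (n + j), bp 0 m * rename Fin.succ (P m), fun w => ?_⟩
    rw [List.ofFn_succ, E, mul_assoc, D_one_add n j s _ (by omega), map_sum]
    refine sum_congr rfl fun m _ => ?_
    rw [map_mul (eval fun i => (w i : ℚ)), eval_bp 0 m _ (w 0) rfl, eval_rename]
    congr 1
    have h1 := hP m (fun i => w i.succ)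
    have h2 : X s ^ m * (E (s + 1) (List.ofFn fun i => w i.succ) * g) =
        E (s + 1) (List.ofFn fun i => w i.succ) * (X s ^ m * g) := by ring
    rw [h2, h1]
    rfl

/-- polynomiality -/
theorem exists_poly (n : ℕ) : ∃ P : MvPolynomial (Fin n) ℚ, ∀ w : Fin n → ℕ,
    al 0 (List.ofFn w) = eval (fun i => (w i : ℚ)) P := by
  obtain ⟨P, hP⟩ := poly_aux n 0 n 0 (by omega) (Q n)
  refine ⟨P, fun w => ?_⟩
  rw [← hP w, al, List.length_ofFn]

/-- uniqueness -/
theorem poly_unique {n : ℕ} {P P' : MvPolynomial (Fin n) ℚ}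
    (h : ∀ w : Fin n → ℕ, StrictMono w → eval (fun i => (w i : ℚ)) P = eval (fun i => (w i : ℚ)) P') :
    P = P' := by
  rw [← sub_eq_zero]
  set R := P - P' with hR
  obtain ⟨d, hd⟩ : ∃ d, ∀ i, R.degreeOf i < d := by
    refine ⟨(∑ i, R.degreeOf i) + 1, fun i => ?_⟩
    have h0 : R.degreeOf i ≤ ∑ i, R.degreeOf i :=
      single_le_sum (f := fun i => R.degreeOf i) (fun _ _ => Nat.zero_le _) (mem_univ i)
    omega
  apply eq_zero_of_eval_zero_at_prod_finset R
    (fun i : Fin n => (Finset.range d).image fun t : ℕ => ((i.val * d + t : ℕ) : ℚ))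
  · intro i
    rw [card_image_of_injective, card_range]
    · exact hd i
    · intro a b hab
      have hab' : ((i.val * d + a : ℕ) : ℚ) = ((i.val * d + b : ℕ) : ℚ) := hab
      have := Nat.cast_injective hab'
      omega
  · intro x hx
    simp only [mem_image, mem_range] at hx
    choose t ht hxt using hx
    have h1 := h (fun i => i.val * d + t i) (by
      intro i j hij
      have h2 : i.val + 1 ≤ j.val := hij
      have h3 : (i.val + 1) * d ≤ j.val * d := Nat.mul_le_mul_right d h2
      have h4 := ht i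
      have h5 : (i.val + 1) * d = i.val * d + d := by ring
      show i.val * d + t i < j.val * d + t j
      omega)
    have h6 : (fun i : Fin n => (((i.val * d + t i : ℕ)) : ℚ)) = x := funext hxt
    rw [h6] at h1
    rw [hR, map_sub, h1, sub_self]

end Pool.Agent.R110.MT
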