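import Pool.Agent.R110.MT.Refl

/-!
# The symmetry of the values at the rows `i, 2, ..., n + 1, 1, ..., n`
-/

set_option autoImplicit false

namespace Pool.Agent.R110.MT

open MvPolynomial Finset

/-- the row `(i, 2, ..., n + 1, 1, ..., n)` -/
def wrow (n : ℕ) (i : ℤ) (j : Fin (2 * n + 1)) : ℤ :=
  if (j : ℕ) = 0 then i else if (j : ℕ) ≤ n then (j : ℤ) + 1 else (j : ℤ) - n

theorem wrow_eval {n : ℕ} {P : MvPolynomial (Fin (2 * n + 1)) ℚ} (hP : IsAlpha (2 * n + 1) P)
    (i : ℤ) (c k : ℕ) (hk : (k : ℤ) = i + c) :
    MvPolynomial.eval (fun j => (wrow n i j : ℚ)) P =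
      al 0 (k :: (List.range' (2 + c) n ++ List.range' (1 + c) n)) := by
  have h1 := hP.eval (fun j : Fin (2 * n + 1) =>
    if (j : ℕ) = 0 then k else if (j : ℕ) ≤ n then j + 1 + c else j - n + c)
  have h2 : List.ofFn (fun j : Fin (2 * n + 1) =>
      if (j : ℕ) = 0 then k else if (j : ℕ) ≤ n then j + 1 + c else j - n + c) =
      k :: (List.range' (2 + c) n ++ List.range' (1 + c) n) := by
    apply List.ext_getElem
    · simp only [List.length_ofFn, List.length_cons, List.length_append, List.length_range']
      ring
    · intro j hj hj'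
      rw [List.getElem_ofFn]
      simp only
      cases j with
      | zero => simp
      | succ j =>
        rw [List.getElem_cons_succ, if_neg (by omega), List.getElem_append]
        simp only [List.length_range', List.getElem_range']
        split_ifs <;> omega
  rw [h2] at h1
  rw [← h1, ← hP.trans c]
  congr 2
  funext j
  simp only [wrow]
  have hk' : (k : ℚ) = (i : ℚ) + c := by
    have := congrArg (fun z : ℤ => (z : ℚ)) hk
    push_cast at this
    exact this
  split_ifs with h3 h4
  · rw [hk']
  · push_cast; ring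
  · push_cast [Nat.cast_sub (show n ≤ (j : ℕ) by omega)]
    ring

theorem wrow_symm {n : ℕ} {P : MvPolynomial (Fin (2 * n + 1)) ℚ} (hP : IsAlpha (2 * n + 1) P)
    (i : ℤ) : MvPolynomial.eval (fun j => (wrow n i j : ℚ)) P =
      MvPolynomial.eval (fun j => (wrow n (3 * n + 3 - i) j : ℚ)) P := by
  obtain ⟨c, hc⟩ : ∃ c : ℕ, c = 2 * n + 1 + i.natAbs := ⟨_, rfl⟩
  obtain ⟨k, hk⟩ : ∃ k : ℕ, (k : ℤ) = i + c - (2 * n + 1) := ⟨(i + c - (2 * n + 1)).toNat, by omega⟩
  obtain ⟨k', hk'⟩ : ∃ k' : ℕ, (k' : ℤ) = 3 * n + 3 - i + c := ⟨(3 * n + 3 - i + c).toNat, by omega⟩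
  set w := List.range' (2 + c) n ++ List.range' (1 + c) n with hw
  have hwl : w.length = 2 * n := by
    rw [hw, List.length_append, List.length_range', List.length_range']; ring
  rw [wrow_eval hP i c (k + (2 * n + 1)) (by push_cast; omega),
    wrow_eval hP (3 * n + 3 - i) c k' (by omega), ← hw]
  have h1 := al_rotate w k
  rw [hwl, Even.neg_one_pow (even_two_mul n), one_mul] at h1
  rw [h1, ← al_refl (w ++ [k]) (n + 2 + 2 * c)]
  · rw [List.map_append, List.reverse_append]
    congr 1
    simp only [List.map_cons, List.map_nil, List.reverse_cons, List.reverse_nil, List.nil_append,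
      List.cons_append, List.cons.injEq]
    refine ⟨by omega, ?_⟩
    apply List.ext_getElem
    · simp
    · intro j hj hj'
      rw [List.length_reverse, List.length_map, hwl] at hj
      rw [List.getElem_reverse, List.getElem_map]
      simp only [hw, List.getElem_append, List.length_range', List.getElem_range', List.length_map,
        List.length_append]
      split_ifs <;> omega
  · intro x hx
    simp only [hw, List.mem_append, List.mem_range'_1, List.mem_singleton] at hx
    omega

end Pool.Agent.R110.MT
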