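import Pool.Agent.R110.MT.Good3
import Pool.Agent.R110.MT.Sym

/-!
# Positivity, and the value at a run followed by the run without the last letter
-/

set_option autoImplicit false

namespace Pool.Agent.R110.MT

theorem mtc_pos (n : ℕ) : ∀ k : Fin n → ℤ, StrictMono k → 0 < mtc n k := by
  induction n with
  | zero => intro k _; rw [mtc_zero]; exact Nat.one_pos
  | succ n ih =>
    intro k hk
    rw [mtc_succ' n k hk]
    refine Finset.sum_pos' (fun _ _ => Nat.zero_le _) ⟨fun j => k j.castSucc, ?_, ih _ ?_⟩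
    · rw [mem_IF]
      exact ⟨fun j => ⟨le_rfl, hk.monotone (Fin.castSucc_lt_succ).le⟩,
        hk.comp (Fin.strictMono_castSucc)⟩
    · exact hk.comp (Fin.strictMono_castSucc)

theorem om_ne_zero (m : ℕ) : om TT 0 m ≠ 0 := by
  intro h
  have h1 : al 0 (omw 0 m) = 0 := by
    rw [← wd_TT_Al, wd_omw, h]
    rfl
  have h2 := al_omw 0 m 0
  rw [List.range'_zero, List.append_nil, h1, add_zero] at h2
  have h6 : List.range' 1 m = List.map (fun x : ℕ => x + 1) (List.range' 0 m) := by
    apply List.ext_getElem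
    · simp
    · intro j hj hj'
      simp
      ring
  have h3 := al_range m
  rw [h6, al_trans, ← h2] at h3
  have h4 := mtc_pos m (fun j => (j : ℤ) + 1) (by
    intro i j hij
    have : (i : ℕ) < j := hij
    simp only
    omega)
  have h5 : (mtc m (fun j => (j : ℤ) + 1) : ℚ) ≠ 0 := by
    exact_mod_cast h4.ne'
  exact h5 h3.symm

section alg

variable {A : Type*} [Ring A] [Algebra ℚ A] {T : ℕ → A}

theorem Rel.Th_run (h : Rel T) (n : ℕ) : Th T (omw 1 n ++ [0]) =
    (-1) ^ n * wd (MT.ps T) (omw 1 n) := by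
  have e : (-1 : A) ^ (omw 1 n).length = 1 := by
    rw [length_omw, pow_mul]; simp
  have e2 : Th T [0] = 1 := by simp [Th]
  rw [Th_append, e, one_mul, wd_cons, wd_nil, mul_one, e2, mul_one, wd_omw, wd_omw]
  cases n with
  | zero => simp [omw, Th, om]
  | succ n =>
    rw [h.Th_omw, h.om_ps, sgn_sq, om_bot]
    simp only [MT.sh]
    noncomm_ring

theorem Rel.Th_run_even (h : Rel T) {n : ℕ} (hn : Even n) : Th T (omw 1 n ++ [0]) =
    wd (MT.ps T) (omw 1 n) := by
  rw [h.Th_run, hn.neg_one_pow, one_mul]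

theorem Rel.Th_run_odd (h : Rel T) {n : ℕ} (hn : Odd n) : Th T (omw 1 n ++ [0]) =
    - wd (MT.ps T) (omw 1 n) := by
  rw [h.Th_run, hn.neg_one_pow, neg_mul, one_mul]

end alg

theorem al_run (n : ℕ) : al 0 (List.range' 0 (n + 1) ++ List.range' 0 n) =
    (-1) ^ n * al 0 (List.range' 1 n) := by
  have h1 := rel_TT.rn_mul_rn n (om_ne_zero (n + 1))
  have h2 : wd TT (List.range' 0 (n + 1) ++ List.range' 0 n) = wd TT (omw 1 n ++ [0]) := by
    rw [wd_append, wd_append, wd_omw, wd_cons, wd_nil, mul_one]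
    exact h1
  have h3 := al_omw 1 n 0
  rw [List.range'_zero, List.append_nil, add_zero] at h3
  rw [al_of_wd 0 h2, ← h3]
  rcases Nat.even_or_odd n with hn | hn
  · rw [hn.neg_one_pow, one_mul]
    exact al_of_Th (by simp) (rel_TT.Th_run_even hn)
  · rw [hn.neg_one_pow, neg_mul, one_mul, ← laplace _ (by simp), rel_TT.Th_run_odd hn, ← wd_ps]
    simp

end Pool.Agent.R110.MT
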