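import Pool.Agent.R110.MT.Rot

/-!
# Reflection and translation of words
-/

set_option autoImplicit false

namespace Pool.Agent.R110.MT

open MvPolynomial Finset

theorem refl_mem {n : ℕ} {k : Fin n → ℤ} {a : (i : Fin n) → Fin (i.val + 1) → ℤ}
    (h : a ∈ MTs n k) : (fun i j => - a i j.rev) ∈ MTs n (fun i => - k i.rev) := by
  obtain ⟨⟨h1, h2⟩, h3⟩ := h
  refine ⟨⟨fun i x y hxy => ?_, fun i hi j => ?_⟩, fun i hi j => ?_⟩
  · have := h1 i (Fin.rev_lt_rev.2 hxy)
    show - a i x.rev < - a i y.rev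
    linarith
  · have h4 := h2 i hi j.rev
    rw [← Fin.rev_succ, ← Fin.rev_castSucc] at h4
    show - a ⟨i + 1, hi⟩ j.castSucc.rev ≤ - a ⟨i, _⟩ j.rev ∧
      - a ⟨i, _⟩ j.rev ≤ - a ⟨i + 1, hi⟩ j.succ.rev
    constructor <;> linarith
  · have h4 := h3 i hi j.rev
    show - a ⟨i, _⟩ j.rev = - k (Fin.rev (Fin.cast hi j))
    rw [h4]
    congr 2
    subst hi
    rfl

theorem mtc_refl (n : ℕ) (k : Fin n → ℤ) : mtc n (fun i => - k i.rev) = mtc n k := by
  rw [mtc, mtc]
  refine Nat.card_congr
    { toFun := fun a => ⟨fun i j => - a.1 i j.rev, ?_⟩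
      invFun := fun a => ⟨fun i j => - a.1 i j.rev, refl_mem a.2⟩
      left_inv := fun a => by ext; simp
      right_inv := fun a => by ext; simp }
  have h := refl_mem a.2
  simpa only [Fin.rev_rev, neg_neg] using h

/-- reflection of the polynomial -/
theorem IsAlpha.refl {n : ℕ} {P : MvPolynomial (Fin n) ℚ} (hP : IsAlpha n P) (x : Fin n → ℚ) :
    MvPolynomial.eval (fun i => - x i.rev) P = MvPolynomial.eval x P := by
  have h2 : ∀ y : Fin n → ℚ, MvPolynomial.eval y (bind₁ (fun i => - X i.rev) P) =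
      MvPolynomial.eval (fun i => - y i.rev) P := by
    intro y
    rw [← coe_aeval_eq_eval, ← coe_aeval_eq_eval]
    change (aeval y) (bind₁ _ P) = _
    rw [aeval_bind₁]
    simp
  have h1 : bind₁ (fun i => - X i.rev) P = P := by
    apply hP.unique
    intro k hk
    rw [h2]
    have h3 := hP (fun i => - k i.rev) (fun i j hij => by
      have := hk (Fin.rev_lt_rev.2 hij)
      show - k i.rev < - k j.rev
      linarith)
    rw [mtc_refl] at h3
    rw [← h3]
    push_cast
    rfl
  rw [← h2, h1]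

theorem IsAlpha.trans {n : ℕ} {P : MvPolynomial (Fin n) ℚ} (hP : IsAlpha n P) (c : ℕ)
    (x : Fin n → ℚ) : MvPolynomial.eval (fun i => x i + c) P = MvPolynomial.eval x P := by
  apply translate
  intro w hw
  have := hP (fun i => (w i : ℤ)) (fun i j hij => Int.ofNat_lt.2 (hw hij))
  push_cast at this
  exact this

theorem al_trans (w : List ℕ) (c : ℕ) : al 0 (List.map (fun x : ℕ => x + c) w) = al 0 w := by
  obtain ⟨P, hP, -⟩ := exists_alpha w.length
  have h1 := hP.eval (fun i => w.getD i 0)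
  have h2 := hP.eval (fun i => w.getD i 0 + c)
  rw [ofFn_getD rfl] at h1
  have h3 : List.ofFn (fun i : Fin w.length => w.getD i 0 + c) =
      List.map (fun x : ℕ => x + c) w := by
    conv_rhs => rw [← ofFn_getD (l := w) rfl]
    rw [List.map_ofFn]
    rfl
  rw [h3] at h2
  rw [← h1, ← h2]
  push_cast
  exact hP.trans c _

theorem al_refl (w : List ℕ) (M : ℕ) (hM : ∀ x ∈ w, x ≤ M) :
    al 0 (List.map (fun x : ℕ => M - x) w).reverse = al 0 w := by
  obtain ⟨P, hP, -⟩ := exists_alpha w.length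
  have h1 := hP.eval (fun i => w.getD i 0)
  have h2 := hP.eval (fun i => M - w.getD i.rev 0)
  rw [ofFn_getD rfl] at h1
  have h3 : List.ofFn (fun i : Fin w.length => M - w.getD i.rev 0) =
      (List.map (fun x : ℕ => M - x) w).reverse := by
    apply List.ext_getElem
    · simp
    · intro i hi hi'
      rw [List.getElem_ofFn, List.getElem_reverse, List.getElem_map, List.getD_eq_getElem]
      · congr 2
        simp only [Fin.val_rev, List.length_map]
        omega
      · exact (Fin.rev _).2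
  rw [h3] at h2
  have h5 := hP.refl (fun i => ((w.getD i 0 : ℕ) : ℚ))
  have h6 := hP.trans M (fun i => -(((w.getD i.rev 0 : ℕ)) : ℚ))
  rw [← h1, ← h2, ← h5, ← h6]
  congr 2
  funext i
  have h4 : w.getD i.rev 0 ≤ M := by
    rw [List.getD_eq_getElem _ _ i.rev.2]
    exact hM _ (List.getElem_mem _)
  rw [Nat.cast_sub h4]
  ring

end Pool.Agent.R110.MT
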