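import Pool.Agent.R110.MT.Ker

/-!
# Rotation of the monotone triangle polynomial
-/

set_option autoImplicit false

namespace Pool.Agent.R110.MT

open MvPolynomial Finset

theorem mdet_perm (n j : ℕ) (c : ℕ → ℕ) (hc : Function.Injective c) (σ : Equiv.Perm (Fin n))
    (h : ∀ i : Fin n, c i = σ i) (m : ℕ →₀ ℕ) :
    mdet n j (m.mapDomain c) = (Equiv.Perm.sign σ : ℚ) * mdet n j m := by
  have h1 : (Matrix.of fun (i a : Fin n) => if m i = a + j then (1 : ℚ) else 0) =
      (Matrix.of fun (i a : Fin n) => if (m.mapDomain c) i = a + j then (1 : ℚ)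
      else 0).submatrix σ id := by
    ext i a
    have h2 : (m.mapDomain c) (σ i : Fin n) = m i := by
      rw [← h i, Finsupp.mapDomain_apply hc]
    simp only [Matrix.of_apply, Matrix.submatrix_apply, id_eq, h2]
  have h3 : mdet n j m = (Equiv.Perm.sign σ : ℚ) * mdet n j (m.mapDomain c) := by
    rw [mdet, h1, Matrix.det_permute]
    rfl
  rw [h3, ← mul_assoc]
  have h4 : ((Equiv.Perm.sign σ : ℤ) : ℚ) * ((Equiv.Perm.sign σ : ℤ) : ℚ) = 1 := by
    rcases Int.units_eq_one_or (Equiv.Perm.sign σ) with h | h <;> rw [h] <;> norm_num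
  rw [h4, one_mul]

theorem D_perm (n j : ℕ) (c : ℕ → ℕ) (hc : Function.Injective c) (σ : Equiv.Perm (Fin n))
    (h : ∀ i : Fin n, c i = σ i) (g : PP) :
    D n j (rename c g) = (Equiv.Perm.sign σ : ℚ) * D n j g := by
  have e : (D n j) ∘ₗ (rename c : PP →ₐ[ℚ] PP).toLinearMap = (Equiv.Perm.sign σ : ℚ) • D n j := by
    apply lin_ext
    intro m
    simp only [LinearMap.comp_apply, AlgHom.toLinearMap_apply, rename_monomial,
      LinearMap.smul_apply, D_monomial, one_mul, mdet_perm n j c hc σ h, smul_eq_mul]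
  exact congrArg (fun f => f g) e

/-- the exchange of the two pair products -/
theorem D_exchange (N : ℕ) (h : PP) :
    D (N + 1) 0 ((1 + X 0) ^ (N + 1) * (∏ q ∈ range N, pf 0 (q + 1)) * h) =
      D (N + 1) 0 ((∏ q ∈ range N, pf (q + 1) 0) * h) := by
  set x : PP := 1 + X 0 with hx
  set a : PP := ∏ q ∈ range N, pf 0 (q + 1) with ha
  set b : PP := ∏ q ∈ range N, pf (q + 1) 0 with hb
  set u : PP := 1 + x * X 0 with hu
  -- the kernel
  have hA : ∀ g : PP, D (N + 1) 0 (u * a * g) = D (N + 1) 0 g := by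
    intro g
    have h1 := D_prod (N + 1) 1 x g
    rw [one_pow, one_mul, Fin.prod_univ_succ] at h1
    rw [← h1]
    congr 2
    rw [hu, ha]
    congr 1
    rw [← Fin.prod_univ_eq_prod_range (fun q => pf 0 (q + 1)) N]
    refine prod_congr rfl fun q _ => ?_
    simp only [pf, Fin.val_succ]
    rw [hx]
    ring
  have hB : ∀ g : PP, D (N + 1) 0 (u * b * g) = D (N + 1) 0 (x ^ (N + 1) * g) := by
    intro g
    have h1 := D_prod (N + 1) x (X 0) g
    rw [Fin.prod_univ_succ] at h1
    rw [← h1]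
    congr 2
    have e1 : u = x + X 0 * X ((0 : Fin (N + 1)) : ℕ) := by
      rw [hu, hx]
      simp only [Fin.val_zero]
      ring
    rw [e1, hb]
    congr 1
    rw [← Fin.prod_univ_eq_prod_range (fun q => pf (q + 1) 0) N]
    refine prod_congr rfl fun q _ => ?_
    simp only [pf, Fin.val_succ]
    rw [hx]
    ring
  have hX : ∀ g : PP, D (N + 1) 0 (X 0 ^ (N + 1) * g) = 0 := by
    intro g
    have h1 := D_prod (N + 1) (X 0) (-1) g
    rw [← h1, Fin.prod_univ_succ]
    simp
  -- `u` is invertible modulo the kernel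
  set G : PP := x ^ (N + 1) * a - b with hG
  have hGu : ∀ g : PP, D (N + 1) 0 (u * G * g) = 0 := by
    intro g
    have e1 : u * G * g = u * a * (x ^ (N + 1) * g) - u * b * g := by rw [hG]; ring
    rw [e1, map_sub, hA, hB, sub_self]
  set z : PP := -(x * X 0) with hz
  have e2 : (1 : PP) = u * (∑ i ∈ range (N + 1), z ^ i) + z ^ (N + 1) := by
    have h2 := mul_neg_geom_sum z (N + 1)
    have h3 : u = 1 - z := by rw [hu, hz]; ring
    rw [h3, h2]
    ring
  have e3 : D (N + 1) 0 (G * h) = 0 := by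
    have e4 : G * h = u * G * ((∑ i ∈ range (N + 1), z ^ i) * h) +
        X 0 ^ (N + 1) * ((-x) ^ (N + 1) * G * h) := by
      have h5 : z ^ (N + 1) = X 0 ^ (N + 1) * (-x) ^ (N + 1) := by
        rw [hz, ← mul_pow]
        ring
      calc G * h = 1 * (G * h) := (one_mul _).symm
        _ = (u * (∑ i ∈ range (N + 1), z ^ i) + z ^ (N + 1)) * (G * h) := by rw [← e2]
        _ = _ := by rw [h5]; ring
    rw [e4, map_add, hGu, hX, add_zero]
  have e6 : x ^ (N + 1) * a * h = G * h + b * h := by rw [hG]; ring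
  rw [e6, map_add, e3, zero_add]

/-- the cyclic permutation of the first `N + 1` positions -/
def cyc (N i : ℕ) : ℕ := if i < N then i + 1 else if i = N then 0 else i

theorem cyc_inj (N : ℕ) : Function.Injective (cyc N) := by
  intro i j h
  simp only [cyc] at h
  split_ifs at h <;> omega

theorem cyc_fin (N : ℕ) (i : Fin (N + 1)) : cyc N i = finRotate (N + 1) i := by
  rw [finRotate_apply, cyc]
  have hi := i.2
  by_cases h : (i : ℕ) < N
  · rw [if_pos h, Fin.val_add_one_of_lt (by simpa [Fin.lt_def] using h)]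
  · have h1 : i = Fin.last N := by ext; simp; omega
    rw [if_neg h, if_pos (by omega), h1]
    simp

theorem Q_bot (N : ℕ) : Q (N + 1) = (∏ q ∈ range N, pf 0 (q + 1)) * rename Nat.succ (Q N) := by
  induction N with
  | zero =>
    rw [Q_succ]
    simp [Q, prs]
  | succ N ih =>
    rw [Q_succ (N + 1)]
    conv_lhs => rw [ih]
    rw [Q_succ N, prod_range_succ (fun q => pf 0 (q + 1)), map_mul, map_prod,
      prod_range_succ' (fun p => pf p (N + 1))]
    simp only [rename_pf, Nat.succ_eq_add_one]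
    ring

theorem rename_E_succ (f : ℕ → ℕ) : ∀ (s : ℕ) (u : List ℕ),
    (∀ i, s ≤ i → i < s + u.length → f i = i + 1) → rename f (E s u) = E (s + 1) u
  | _, [], _ => by simp [E]
  | s, k :: u, h => by
    simp only [E, map_mul, map_pow, map_add, map_one, rename_X]
    rw [h s le_rfl (by simp), rename_E_succ f (s + 1) u fun i h1 h2 => h i (by omega)
      (by simp; omega)]

theorem rename_cyc_Q (N : ℕ) : ∀ n, n ≤ N → rename (cyc N) (Q n) = rename Nat.succ (Q n) := by
  intro n hn
  rw [Q, map_prod, map_prod]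
  refine prod_congr rfl fun x hx => ?_
  rw [mem_prs] at hx
  rw [rename_pf, rename_pf, cyc, cyc, if_pos (by omega), if_pos (by omega)]

/-- rotation of words -/
theorem al_rotate (w : List ℕ) (k : ℕ) :
    al 0 ((k + (w.length + 1)) :: w) = (-1) ^ w.length * al 0 (w ++ [k]) := by
  set N := w.length with hN
  have h1 : al 0 (w ++ [k]) = D (N + 1) 0 (E 0 w * (1 + X N) ^ k * Q (N + 1)) := by
    rw [al, List.length_append, List.length_singleton, E_append, ← hN, zero_add]
    simp only [E, mul_one]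
  have h2 : D (N + 1) 0 (rename (cyc N) (E 0 w * (1 + X N) ^ k * Q (N + 1))) =
      (-1) ^ N * D (N + 1) 0 (E 0 w * (1 + X N) ^ k * Q (N + 1)) := by
    rw [D_perm (N + 1) 0 (cyc N) (cyc_inj N) (finRotate (N + 1)) (cyc_fin N), sign_finRotate]
    simp
  have h3 : rename (cyc N) (E 0 w * (1 + X N) ^ k * Q (N + 1)) =
      (∏ q ∈ range N, pf (q + 1) 0) * (E 1 w * (1 + X 0) ^ k * rename Nat.succ (Q N)) := by
    rw [map_mul, map_mul, Q_succ, map_mul, rename_cyc_Q N N le_rfl, map_prod,
      rename_E_succ (cyc N) 0 w (fun i _ hi => by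
        rw [cyc, if_pos (by omega)])]
    have e1 : rename (cyc N) ((1 + X N : PP) ^ k) = (1 + X 0) ^ k := by
      simp [cyc]
    have e2 : ∏ p ∈ range N, rename (cyc N) (pf p N) = ∏ q ∈ range N, pf (q + 1) 0 := by
      refine prod_congr rfl fun p hp => ?_
      rw [mem_range] at hp
      rw [rename_pf, cyc, cyc, if_pos hp, if_neg (by omega), if_pos rfl]
    rw [e1, e2]
    ring
  have h4 : al 0 ((k + (N + 1)) :: w) = D (N + 1) 0 ((1 + X 0) ^ (N + 1) *
      (∏ q ∈ range N, pf 0 (q + 1)) * (E 1 w * (1 + X 0) ^ k * rename Nat.succ (Q N))) := by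
    rw [al, List.length_cons, ← hN, Q_bot]
    simp only [E, zero_add]
    congr 1
    ring
  rw [h1, ← h2, h3, h4, D_exchange]

end Pool.Agent.R110.MT
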